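import Mathlib

/-!
# Orbits of two involutions without fixed points
-/

set_option autoImplicit false
set_option linter.unusedSectionVars false

namespace Pool.Agent.H875.PL

open Finset Function

variable {Φ : Type} [Fintype Φ] [DecidableEq Φ]

open Classical in
/-- The orbit of `x` under the group generated by the permutations `a` and `b`. -/
noncomputable def cell (a b : Equiv.Perm Φ) (x : Φ) : Finset Φ :=
  univ.filter fun y => ∃ g ∈ Subgroup.closure ({a, b} : Set (Equiv.Perm Φ)), g x = y

/-- All orbits of the group generated by `a` and `b`. -/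
noncomputable def cells (a b : Equiv.Perm Φ) : Finset (Finset Φ) := univ.image (cell a b)

theorem mem_cell {a b : Equiv.Perm Φ} {x y : Φ} :
    y ∈ cell a b x ↔ ∃ g ∈ Subgroup.closure ({a, b} : Set (Equiv.Perm Φ)), g x = y := by
  simp [cell]

theorem self_mem (a b : Equiv.Perm Φ) (x : Φ) : x ∈ cell a b x :=
  mem_cell.2 ⟨1, one_mem _, rfl⟩

theorem mem_cell_symm {a b : Equiv.Perm Φ} {x y : Φ} (h : y ∈ cell a b x) : x ∈ cell a b y := by
  obtain ⟨g, hg, rfl⟩ := mem_cell.1 h
  exact mem_cell.2 ⟨g⁻¹, inv_mem hg, by simp⟩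

theorem mem_cell_trans {a b : Equiv.Perm Φ} {x y z : Φ} (h : y ∈ cell a b x) (h' : z ∈ cell a b y) :
    z ∈ cell a b x := by
  obtain ⟨g, hg, rfl⟩ := mem_cell.1 h
  obtain ⟨g', hg', rfl⟩ := mem_cell.1 h'
  exact mem_cell.2 ⟨g' * g, mul_mem hg' hg, by simp⟩

theorem cell_eq_iff {a b : Equiv.Perm Φ} {x y : Φ} : cell a b y = cell a b x ↔ y ∈ cell a b x := by
  constructor
  · intro h
    rw [← h]
    exact self_mem a b y
  · intro h
    ext z
    exact ⟨fun hz => mem_cell_trans h hz, fun hz => mem_cell_trans (mem_cell_symm h) hz⟩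

theorem left_mem {a b : Equiv.Perm Φ} (x : Φ) : a x ∈ cell a b x :=
  mem_cell.2 ⟨a, Subgroup.subset_closure (by simp), rfl⟩

theorem right_mem {a b : Equiv.Perm Φ} (x : Φ) : b x ∈ cell a b x :=
  mem_cell.2 ⟨b, Subgroup.subset_closure (by simp), rfl⟩

theorem cell_left {a b : Equiv.Perm Φ} (x : Φ) : cell a b (a x) = cell a b x := cell_eq_iff.2 (left_mem x)

theorem cell_right {a b : Equiv.Perm Φ} (x : Φ) : cell a b (b x) = cell a b x := cell_eq_iff.2 (right_mem x)

theorem cell_pow {a b : Equiv.Perm Φ} (x : Φ) (i : ℕ) : cell a b (((a * b) ^ i) x) = cell a b x := by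
  induction i with
  | zero => simp
  | succ i ih =>
    rw [pow_succ', Equiv.Perm.mul_apply, Equiv.Perm.mul_apply, cell_left, cell_right, ih]

/-- The sum over the points is the sum over the orbits. -/
theorem filter_cell {a b : Equiv.Perm Φ} {P : Finset Φ} (hP : P ∈ cells a b) :
    (univ.filter fun x => cell a b x = P) = P := by
  obtain ⟨y, -, rfl⟩ := mem_image.1 hP
  ext x
  simp [cell_eq_iff]

theorem card_filter_eq_sum (a b : Equiv.Perm Φ) (p : Finset Φ → Prop) [DecidablePred p] :
    (univ.filter fun x => p (cell a b x)).card = ∑ P ∈ (cells a b).filter p, P.card := by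
  rw [card_eq_sum_card_image (cell a b)]
  have e : (univ.filter fun x => p (cell a b x)).image (cell a b) = (cells a b).filter p := by
    ext P
    simp only [mem_image, mem_filter, mem_univ, true_and, cells]
    constructor
    · rintro ⟨x, hx, rfl⟩
      exact ⟨⟨x, rfl⟩, hx⟩
    · rintro ⟨⟨x, rfl⟩, hx⟩
      exact ⟨x, hx, rfl⟩
  rw [e]
  refine sum_congr rfl fun P hP => ?_
  rw [mem_filter] at hP
  have e2 : (univ.filter fun x => p (cell a b x)).filter (fun x => cell a b x = P) = P := by
    refine Eq.trans ?_ (filter_cell hP.1)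
    ext x
    simp only [mem_filter, mem_univ, true_and]
    constructor
    · rintro ⟨-, h⟩
      exact h
    · intro h
      exact ⟨by rw [h]; exact hP.2, h⟩
  rw [e2]

theorem card_univ_eq_sum (a b : Equiv.Perm Φ) : Fintype.card Φ = ∑ P ∈ cells a b, P.card := by
  have := card_filter_eq_sum a b (fun _ => True)
  simpa using this

variable {a b : Equiv.Perm Φ}

theorem conj_pow (ha : ∀ x, a (a x) = x) (hb : ∀ x, b (b x) = x) (x : Φ) (i : ℕ) :
    ((a * b) ^ i) (b (((a * b) ^ i) x)) = b x := by
  induction i generalizing x with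
  | zero => simp
  | succ i ih =>
    have e1 : ((a * b) ^ (i + 1)) x = (a * b) (((a * b) ^ i) x) := by rw [pow_succ']; rfl
    have e2 : ∀ y, ((a * b) ^ (i + 1)) y = ((a * b) ^ i) ((a * b) y) := by
      intro y; rw [pow_succ]; rfl
    rw [e1, e2]
    simp only [Equiv.Perm.mul_apply]
    rw [hb, ha]
    exact ih x

/-- The points `(a b) ^ i x`. -/
noncomputable def half (a b : Equiv.Perm Φ) (x : Φ) : Finset Φ :=
  (range (minimalPeriod (a * b) x)).image fun i => ((a * b) ^ i) x

theorem pow_eq_iterate (x : Φ) (i : ℕ) : ((a * b) ^ i) x = (⇑(a * b))^[i] x := by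
  rw [Equiv.Perm.iterate_eq_pow]

theorem period_pos (x : Φ) : 0 < minimalPeriod (a * b) x := by
  have : x ∈ periodicPts (a * b) := by
    have := (a * b).injective.mem_periodicPts x
    exact this
  exact minimalPeriod_pos_of_mem_periodicPts this

theorem card_half (x : Φ) : (half a b x).card = minimalPeriod (a * b) x := by
  unfold half
  rw [card_image_of_injOn, card_range]
  intro i hi j hj h
  simp only [coe_range, Set.mem_Iio] at hi hj
  simp only [pow_eq_iterate] at h
  exact iterate_injOn_Iio_minimalPeriod hi hj h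

theorem mem_half {x : Φ} (i : ℕ) : ((a * b) ^ i) x ∈ half a b x := by
  unfold half
  refine mem_image.2 ⟨i % minimalPeriod (a * b) x, mem_range.2 (Nat.mod_lt _ (period_pos x)), ?_⟩
  simp only [pow_eq_iterate]
  exact iterate_mod_minimalPeriod_eq

/-- The orbit is the union of two cyclic orbits. -/
theorem cell_eq (ha : ∀ x, a (a x) = x) (hb : ∀ x, b (b x) = x) (x : Φ) :
    cell a b x = half a b x ∪ (half a b x).image b := by
  apply subset_antisymm
  · intro y hy
    obtain ⟨g, hg, hgy⟩ := mem_cell.1 hy
    have step : ∀ z ∈ half a b x ∪ (half a b x).image b, a z ∈ half a b x ∪ (half a b x).image b ∧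
        b z ∈ half a b x ∪ (half a b x).image b := by
      intro z hz
      rw [mem_union] at hz
      rcases hz with hz | hz
      · refine ⟨?_, mem_union_right _ (mem_image_of_mem _ hz)⟩
        obtain ⟨i, hi, rfl⟩ := mem_image.1 hz
        rw [mem_range] at hi
        -- `a ((a b) ^ i x) = b ((a b) ^ (i - 1) x)`
        have key : ∀ w, a ((a * b) w) = b w := by
          intro w
          simp only [Equiv.Perm.mul_apply]
          rw [ha]
        have hsucc : ∃ j : ℕ, ((a * b) ^ i) x = (a * b) (((a * b) ^ j) x) := by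
          refine ⟨i + minimalPeriod (a * b) x - 1, ?_⟩
          have hp := period_pos (a := a) (b := b) x
          have e : (a * b) (((a * b) ^ (i + minimalPeriod (a * b) x - 1)) x)
              = ((a * b) ^ (i + minimalPeriod (a * b) x)) x := by
            rw [← Equiv.Perm.mul_apply, ← pow_succ']
            congr 2
            omega
          rw [e, pow_eq_iterate, pow_eq_iterate, iterate_add_minimalPeriod_eq]
        obtain ⟨j, hj⟩ := hsucc
        rw [hj, key]
        exact mem_union_right _ (mem_image_of_mem _ (mem_half j))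
      · obtain ⟨w, hw, rfl⟩ := mem_image.1 hz
        refine ⟨?_, ?_⟩
        · obtain ⟨i, hi, rfl⟩ := mem_image.1 hw
          have e : a (b (((a * b) ^ i) x)) = ((a * b) ^ (i + 1)) x := by
            rw [pow_succ']; rfl
          rw [e]
          exact mem_union_left _ (mem_half _)
        · rw [hb]
          exact mem_union_left _ hw
    have inv_step : ∀ z ∈ half a b x ∪ (half a b x).image b, a⁻¹ z ∈ half a b x ∪ (half a b x).image b ∧
        b⁻¹ z ∈ half a b x ∪ (half a b x).image b := by
      intro z hz
      have h1 : a⁻¹ z = a z := by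
        rw [Equiv.Perm.inv_eq_iff_eq]; exact (ha z).symm
      have h2 : b⁻¹ z = b z := by
        rw [Equiv.Perm.inv_eq_iff_eq]; exact (hb z).symm
      rw [h1, h2]
      exact step z hz
    have main : ∀ g ∈ Subgroup.closure ({a, b} : Set (Equiv.Perm Φ)),
        ∀ z ∈ half a b x ∪ (half a b x).image b, g z ∈ half a b x ∪ (half a b x).image b := by
      intro g hg
      induction hg using Subgroup.closure_induction'' with
      | one => intro z hz; simpa using hz
      | mem h hh =>
        intro z hz
        rcases hh with rfl | hh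
        · exact (step z hz).1
        · rw [Set.mem_singleton_iff] at hh
          subst hh
          exact (step z hz).2
      | inv_mem h hh =>
        intro z hz
        rcases hh with rfl | hh
        · exact (inv_step z hz).1
        · rw [Set.mem_singleton_iff] at hh
          subst hh
          exact (inv_step z hz).2
      | mul g h _ _ ihg ihh =>
        intro z hz
        rw [Equiv.Perm.mul_apply]
        exact ihg _ (ihh _ hz)
    rw [← hgy]
    refine main g hg x ?_
    exact mem_union_left _ (by simpa using mem_half (a := a) (b := b) (x := x) 0)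
  · intro y hy
    rw [mem_union] at hy
    rcases hy with hy | hy
    · obtain ⟨i, -, rfl⟩ := mem_image.1 hy
      rw [← cell_eq_iff, cell_pow]
    · obtain ⟨w, hw, rfl⟩ := mem_image.1 hy
      obtain ⟨i, -, rfl⟩ := mem_image.1 hw
      rw [← cell_eq_iff, cell_right, cell_pow]

theorem mem_cell_iff (ha : ∀ x, a (a x) = x) (hb : ∀ x, b (b x) = x) {x y : Φ} :
    y ∈ cell a b x ↔ ∃ i < minimalPeriod (a * b) x, y = ((a * b) ^ i) x ∨ y = b (((a * b) ^ i) x) := by
  rw [cell_eq ha hb, mem_union]
  unfold half
  simp only [mem_image, mem_range]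
  constructor
  · rintro (⟨i, hi, rfl⟩ | ⟨w, ⟨i, hi, rfl⟩, rfl⟩)
    · exact ⟨i, hi, Or.inl rfl⟩
    · exact ⟨i, hi, Or.inr rfl⟩
  · rintro ⟨i, hi, h | h⟩
    · exact Or.inl ⟨i, hi, h.symm⟩
    · exact Or.inr ⟨_, ⟨i, hi, rfl⟩, h.symm⟩

/-- A power of `a b` is never equal to the reflection `b`. -/
theorem ne_reflection (ha : ∀ x, a (a x) = x) (hb : ∀ x, b (b x) = x) (na : ∀ x, a x ≠ x)
    (nb : ∀ x, b x ≠ x) (x : Φ) (n : ℕ) : ((a * b) ^ n) x ≠ b x := by
  -- strong induction on `n`
  induction n using Nat.strong_induction_on generalizing x with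
  | _ n ih =>
    intro h
    rcases n with _ | _ | n
    · exact nb x (by simpa using h.symm)
    · -- `a (b x) = b x`
      have : a (b x) = b x := by simpa using h
      exact na _ this
    · -- apply the induction hypothesis to `(a b) x`
      refine ih n (by omega) ((a * b) x) ?_
      have e : ((a * b) ^ (n + 1 + 1)) x = (a * b) (((a * b) ^ n) ((a * b) x)) := by
        rw [pow_succ', pow_succ]; rfl
      rw [e] at h
      -- `(a b) w = b x`, so `b w = a (b x)`
      have h2 : ∀ w, (a * b) w = b x → w = b ((a * b) x) := by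
        intro w hw
        simp only [Equiv.Perm.mul_apply] at hw ⊢
        have h3 : b w = a (b x) := by rw [← hw, ha]
        rw [← h3, hb]
      exact h2 _ h

theorem card_cell (ha : ∀ x, a (a x) = x) (hb : ∀ x, b (b x) = x) (na : ∀ x, a x ≠ x)
    (nb : ∀ x, b x ≠ x) (x : Φ) : (cell a b x).card = 2 * minimalPeriod (a * b) x := by
  rw [cell_eq ha hb, card_union_of_disjoint, card_image_of_injective _ b.injective, card_half]
  · ring
  · rw [disjoint_left]
    intro y hy hy'
    obtain ⟨w, hw, rfl⟩ := mem_image.1 hy'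
    obtain ⟨i, hi, hi'⟩ := mem_image.1 hy
    obtain ⟨j, hj, rfl⟩ := mem_image.1 hw
    rw [mem_range] at hi hj
    -- `(a b) ^ i x = b ((a b) ^ j x)`
    have h1 := conj_pow ha hb x j
    rw [← hi'] at h1
    rw [← Equiv.Perm.mul_apply, ← pow_add] at h1
    exact ne_reflection ha hb na nb x _ h1

end Pool.Agent.H875.PL
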