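import Pool.Agent.H875.PL.Cell

/-!
# Arrangements of pseudolines and their coverings: definitions
-/

set_option autoImplicit false
set_option linter.unusedSectionVars false

namespace Pool.Agent.H875.PL

open Finset Function

/-- **An arrangement of `k` pseudolines in the real projective plane**, given by the cell decomposition of the plane
which it defines: `Φ` is the set of the flags (a vertex, an edge and a face which are incident, locally), `v x`, `e x`
and `f x` are the flags which one gets from `x` by changing the vertex, the edge and the face; `line x` is the
pseudoline of the edge of `x`. The vertices are the orbits of the group generated by `e` and `f`, the edges those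
of `v`, `f` and the faces those of `v`, `e`. The rotation around the vertex of `x` is `e * f`, and `mult x` is the
number of the pseudolines through this vertex. -/
structure Arrangement (k : ℕ) (Φ : Type) [Fintype Φ] [DecidableEq Φ] where
  v : Equiv.Perm Φ
  e : Equiv.Perm Φ
  f : Equiv.Perm Φ
  vv : ∀ x, v (v x) = x
  ee : ∀ x, e (e x) = x
  ff : ∀ x, f (f x) = x
  v_ne : ∀ x, v x ≠ x
  e_ne : ∀ x, e x ≠ x
  f_ne : ∀ x, f x ≠ x
  comm : ∀ x, v (f x) = f (v x)
  vf_ne : ∀ x, v (f x) ≠ x
  line : Φ → Fin k
  line_v : ∀ x, line (v x) = line x
  line_f : ∀ x, line (f x) = line x
  mult : Φ → ℕ
  /-- at each vertex at least two pseudolines meet, -/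
  two_le : ∀ x, 2 ≤ mult x
  /-- so that there are `2 * mult x` edges around the vertex -/
  period : ∀ x, minimalPeriod (e * f) x = 2 * mult x
  /-- opposite edges are on the same pseudoline: pseudolines cross at the vertices -/
  cross : ∀ x, line (((e * f) ^ mult x) x) = line x
  /-- other edges at a vertex are on different pseudolines -/
  simple : ∀ x i, 0 < i → i < mult x → line (((e * f) ^ i) x) ≠ line x
  /-- each pseudoline is one closed curve: one comes from each of its flags to every other one by the maps `v`, `f` and
  by going straight on at the vertices -/
  closed : ∀ x y, line x = line y →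
    Relation.ReflTransGen (fun p q => q = v p ∨ q = f p ∨ q = ((e * f) ^ mult p) p) x y
  /-- two different pseudolines meet in exactly one point -/
  meet : ∀ i j : Fin k, i ≠ j → ∃! P : Finset Φ, P ∈ cells e f ∧ i ∈ P.image line ∧ j ∈ P.image line
  /-- the surface is the projective plane: its Euler characteristic is one -/
  euler : (cells e f).card + (cells v e).card = (cells v f).card + 1

variable {k : ℕ} {Φ : Type} [Fintype Φ] [DecidableEq Φ] (A : Arrangement k Φ)

/-- The vertices of the arrangement. -/
noncomputable def Arrangement.points : Finset (Finset Φ) := cells A.e A.f

/-- The number of the pseudolines through the point `P`. -/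
def Arrangement.mul (P : Finset Φ) : ℕ := (P.image A.line).card

/-- The number of the points on exactly `r` pseudolines. -/
noncomputable def Arrangement.t (r : ℕ) : ℕ := (A.points.filter fun P => A.mul P = r).card

/-- The Euler characteristic of the covering divided by `N`: `n ^ 2` times the Euler characteristic of the complement of
the curve, plus `n` times the one of its smooth points, plus the number of its double points, where the curve is
the total transform of the union of the symplectic lines on the blow-up of the points of multiplicity at least
three of the complex projective plane. -/
noncomputable def Arrangement.c2 (n : ℕ) : ℤ :=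
  n ^ 2 * (3 - 2 * k + ∑ P ∈ A.points, ((A.mul P : ℤ) - 1)) +
    n * (2 * k - ∑ P ∈ A.points, if A.mul P = 2 then (2 : ℤ) else 2 * A.mul P - 2) +
    ∑ P ∈ A.points, if A.mul P = 2 then (1 : ℤ) else A.mul P

/-- The number `c_1 ^ 2` of the covering divided by `N`: the square of `n K + (n - 1) D` on the blow-up of the points of
multiplicity at least three, where `D` is the total transform of the union of the symplectic lines. -/
noncomputable def Arrangement.c1sq (n : ℕ) : ℤ :=
  (((n : ℤ) - 1) * k - 3 * n) ^ 2 -
    ∑ P ∈ A.points, if A.mul P = 2 then (0 : ℤ) else (((n : ℤ) - 1) * (A.mul P - 1) - n) ^ 2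

/-- `e` and `σ` are the Euler characteristic and the signature of a closed symplectic four-manifold which is an abelian
covering of degree `n ^ 2 N` of the complex projective plane, branched along the symplectic lines of the arrangement,
ramified of order `n` over each of them and over each exceptional curve of the blow-up of the points of
multiplicity at least three (for instance the Kummer covering, with the group `(ℤ / n) ^ (k - 1)`). -/
def Arrangement.Covering (n : ℕ) (e σ : ℤ) : Prop :=
  ∃ N : ℕ, 0 < N ∧ e = N * A.c2 n ∧ 2 * e + 3 * σ = N * A.c1sq n

end Pool.Agent.H875.PL
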