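import Mathlib

/-!
# The case of the order two: numerical part
-/

set_option autoImplicit false

namespace Pool.Agent.H875.PL

theorem num_big {k N S Y R : ℤ} (hN : 9 ≤ N) (hNk : 2 * N + 7 ≤ k) (hR : 3 * R ≤ k + 3) (hS : 6 * N ≤ S)
    (hY : 13 * S ≤ Y) (h1 : S ^ 2 ≤ k * (N ^ 2 - N + S))
    (h2 : Y * (2 * (k + 3) - R - 19) ≤ k * (k + 3) ^ 2 + (S + 7 * N) ^ 2 - (13 * R + 98) * S - 49 * N) :
    7 * Y < 7 * k ^ 2 - 127 * k + 630 + 450 * N := by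
  have h3 : Y * (5 * k - 42) ≤ 3 * k ^ 3 + 18 * k ^ 2 + 27 * k + (3 * k + 147) * (N ^ 2 - N) +
      (42 * N - 10 * k - 333) * S := by
    have h4 : 0 ≤ (Y - 13 * S) * (k + 3 - 3 * R) := mul_nonneg (by linarith) (by linarith)
    nlinarith
  by_contra hcon
  have hcon' : 7 * k ^ 2 - 127 * k + 630 + 450 * N ≤ 7 * Y := not_lt.1 hcon
  set g := 42 * N - 10 * k - 333 with hg
  set Z := (7 * k ^ 2 - 127 * k + 450 * N + 630) * (5 * k - 42) -
    7 * (3 * k ^ 3 + 18 * k ^ 2 + 27 * k + (3 * k + 147) * (N ^ 2 - N)) with hZ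
  have h5 : Z ≤ 7 * g * S := by
    have h6 : 0 ≤ (7 * Y - (7 * k ^ 2 - 127 * k + 630 + 450 * N)) * (5 * k - 42) :=
      mul_nonneg (by linarith) (by linarith)
    rw [hZ]
    linarith
  rcases le_or_gt g 0 with hg0 | hg0
  · have h6 : 7 * g * S ≤ 42 * g * N := by nlinarith
    obtain ⟨u, hu, hk'⟩ : ∃ u, 0 ≤ u ∧ k = 2 * N + 7 + u := ⟨k - (2 * N + 7), by linarith, by ring⟩
    obtain ⟨w, hw, hN'⟩ : ∃ w, 0 ≤ w ∧ N = 9 + w := ⟨N - 9, by linarith, by ring⟩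
    have h7 : Z - 42 * g * N = 42042 + u * (14 * u ^ 2 - 5 * u + 4313) + 12292 * w + 2293 * w * u +
        84 * w * u ^ 2 + 1288 * w ^ 2 + 147 * w ^ 2 * u + 70 * w ^ 3 := by
      rw [hZ, hg, hk', hN']; ring
    have h8 : 0 ≤ u * (14 * u ^ 2 - 5 * u + 4313) := mul_nonneg hu (by nlinarith [sq_nonneg (u - 1)])
    have h9 : 0 ≤ 12292 * w + 2293 * w * u + 84 * w * u ^ 2 + 1288 * w ^ 2 + 147 * w ^ 2 * u + 70 * w ^ 3 := by
      positivity
    linarith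
  · have hN19 : 19 ≤ N := by omega
    obtain ⟨u, hu, hk'⟩ : ∃ u, 0 ≤ u ∧ k = 2 * N + 7 + u := ⟨k - (2 * N + 7), by linarith, by ring⟩
    obtain ⟨w, hw, hN'⟩ : ∃ w, 0 ≤ w ∧ N = 19 + w := ⟨N - 19, by linarith, by ring⟩
    have hM : 0 < 2 * Z - 7 * g * k := by
      have : 2 * Z - 7 * g * k = 746739 + 70971 * u + 1740 * u ^ 2 + 28 * u ^ 3 + 147336 * w + 9612 * w * u +
          168 * w * u ^ 2 + 8316 * w ^ 2 + 294 * w ^ 2 * u + 140 * w ^ 3 := by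
        rw [hZ, hg, hk', hN']; ring
      rw [this]
      positivity
    have hP : 0 < Z ^ 2 - 7 * g * k * Z - 49 * g ^ 2 * k * (N ^ 2 - N) := by
      have : Z ^ 2 - 7 * g * k * Z - 49 * g ^ 2 * k * (N ^ 2 - N) =
          139229527374 + 26728063047 * u + 1836347409 * u ^ 2 + 70416741 * u ^ 3 + 1749269 * u ^ 4 +
          24360 * u ^ 5 + 196 * u ^ 6 + 54470290077 * w + 9182827332 * w * u + 528673557 * w * u ^ 2 +
          16205898 * w * u ^ 3 + 280728 * w * u ^ 4 + 2352 * w * u ^ 5 + 8076174561 * w ^ 2 +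
          1156459080 * w ^ 2 * u + 53381568 * w ^ 2 * u ^ 2 + 1174712 * w ^ 2 * u ^ 3 +
          11172 * w ^ 2 * u ^ 4 + 604215864 * w ^ 3 + 68276110 * w ^ 3 * u + 2245068 * w ^ 3 * u ^ 2 +
          26656 * w ^ 3 * u ^ 3 + 24691884 * w ^ 4 + 1914696 * w ^ 4 * u + 33369 * w ^ 4 * u ^ 2 +
          534688 * w ^ 5 + 20580 * w ^ 5 * u + 4900 * w ^ 6 := by
        rw [hZ, hg, hk', hN']; ring
      rw [this]
      positivity
    have h6 : 0 ≤ (7 * g * S - Z) * (7 * g * S + Z - 7 * g * k) := by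
      apply mul_nonneg (by linarith)
      linarith
    have h7 : 0 ≤ g ^ 2 * (k * (N ^ 2 - N + S) - S ^ 2) := mul_nonneg (sq_nonneg _) (by linarith)
    nlinarith

theorem num_small {k N S Y R : ℤ} (h1N : 1 ≤ N) (hN : N ≤ 8) (hR : 3 * R ≤ k + 3)
    (hSR : S ≤ N * R) (hS : 6 * N ≤ S) (hU : 2 * S ≤ 2 * k + N * (N - 1))
    (hYR : Y ≤ (R + 13) * S - 6 * R * N) (h3 : N = 3 → S ≤ k + 2) :
    7 * Y < 7 * k ^ 2 - 127 * k + 630 + 450 * N := by
  have h4 : 3 * Y ≤ (k + 42) * S - 6 * N * (k + 3) := by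
    have h5 : 0 ≤ (k + 3 - 3 * R) * (S - 6 * N) := mul_nonneg (by linarith) (by linarith)
    nlinarith
  have h8 : N = 1 ∨ N = 2 ∨ N = 3 ∨ N = 4 ∨ N = 5 ∨ N = 6 ∨ N = 7 ∨ N = 8 := by omega
  rcases h8 with rfl | rfl | rfl | rfl | rfl | rfl | rfl | rfl
  · have h5 : 0 ≤ (k + 42) * (k + 3 - 3 * S) := mul_nonneg (by linarith) (by linarith)
    nlinarith [sq_nonneg (112 * k - 1332)]
  · have h5 : 0 ≤ (k + 42) * (2 * (k + 3) - 3 * S) := mul_nonneg (by linarith) (by linarith)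
    nlinarith [sq_nonneg (98 * k - 1521)]
  · have h6 := h3 rfl
    have h5 : 0 ≤ (k + 42) * (k + 2 - S) := mul_nonneg (by linarith) (by linarith)
    nlinarith [sq_nonneg (28 * k - 563)]
  · have h5 : 0 ≤ (k + 42) * (k + 6 - S) := mul_nonneg (by linarith) (by linarith)
    nlinarith [sq_nonneg (28 * k - 549)]
  · have h5 : 0 ≤ (k + 42) * (k + 10 - S) := mul_nonneg (by linarith) (by linarith)
    nlinarith [sq_nonneg (28 * k - 535)]
  · have h5 : 0 ≤ (k + 42) * (k + 15 - S) := mul_nonneg (by linarith) (by linarith)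
    nlinarith [sq_nonneg (28 * k - 528)]
  · have h5 : 0 ≤ (k + 42) * (k + 21 - S) := mul_nonneg (by linarith) (by linarith)
    nlinarith [sq_nonneg (28 * k - 528)]
  · have h5 : 0 ≤ (k + 42) * (k + 28 - S) := mul_nonneg (by linarith) (by linarith)
    nlinarith [sq_nonneg (28 * k - 535)]

/-- The inequality from the numbers of the points. -/
theorem num_full {k f t a b N S X R : ℤ} (ha : 0 ≤ a) (hb : 0 ≤ b) (hN : 0 ≤ N)
    (hpairs : 2 * f + 6 * t + 12 * a + 20 * b + (X - S) = k * (k - 1))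
    (hmel : 3 ≤ f - a - 2 * b + (3 * N - S))
    (hstar : 7 ≤ f + t - a - 3 * b + (7 * N - 2 * S))
    (h0 : N = 0 → S = 0 ∧ X = 0)
    (h1 : 1 ≤ N → 3 * R ≤ k + 3 ∧ S ≤ N * R ∧ 6 * N ≤ S ∧ 2 * S ≤ 2 * k + N * (N - 1) ∧
      X ≤ (R + 6) * S - 6 * R * N ∧ 6 * S ≤ X ∧ S ^ 2 ≤ k * (N ^ 2 - N + S) ∧
      (X + 7 * S) * (2 * (k + 3) - R - 19) ≤ k * (k + 3) ^ 2 + (S + 7 * N) ^ 2 - (13 * R + 98) * S - 49 * N)
    (h3 : N = 3 → k + 3 ≤ S → a = 0 ∧ b = 0) :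
    4 * k < 4 * f + 4 * t - 5 * b + (36 * N - 8 * S) := by
  by_contra hcon
  have hst : 4 * a + 7 * b + 8 * N ≤ 4 * k - 28 := by linarith
  have hpm : 28 * k ≥ 0 → 4 * k ^ 2 - 28 * k + 48 + 168 * N ≤ 32 * a + 78 * b + 4 * (X + 7 * S) := by
    intro _
    nlinarith
  have hk : 0 ≤ k := by linarith
  have hpm' := hpm (by linarith)
  rcases eq_or_lt_of_le hN with hN0 | hN0
  · obtain ⟨hS0, hX0⟩ := h0 hN0.symm
    rw [hS0, hX0] at hpm'
    nlinarith [sq_nonneg (14 * k - 127)]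
  · have hN1 : 1 ≤ N := hN0
    obtain ⟨hR, hSR, h6, hU, hXR, hX6, hC, hY2⟩ := h1 hN1
    by_cases h33 : N = 3 ∧ k + 3 ≤ S
    · obtain ⟨hN3, hS3⟩ := h33
      obtain ⟨ha0, hb0⟩ := h3 hN3 hS3
      subst hN3
      have hSk : S = k + 3 := by linarith
      subst hSk
      rw [ha0, hb0] at hpm'
      have h5 : 0 ≤ (k + 3 - 3 * R) * (k + 3 - 6 * 3) := mul_nonneg (by linarith) (by linarith)
      nlinarith [sq_nonneg (k - 12)]
    · have hNk : 2 * N + 7 ≤ k := by linarith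
      have hD : 7 * (X + 7 * S) < 7 * k ^ 2 - 127 * k + 630 + 450 * N := by
        rcases le_or_gt N 8 with h8 | h9
        · exact num_small hN1 h8 hR hSR h6 hU (by linarith) (fun h => by
            by_contra hc
            exact h33 ⟨h, by linarith⟩)
        · exact num_big (by linarith) hNk hR h6 (by linarith) hC hY2
      linarith

end Pool.Agent.H875.PL
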