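import Pool.Agent.H875.PL.Two
import Pool.Agent.H875.PL.FullNum

/-!
# The case of the order two and of arbitrary orders over the exceptional curves: the inequality
-/

set_option autoImplicit false
set_option linter.unusedSectionVars false

namespace Pool.Agent.H875.PL

open Finset Function

/-- Sixteen times the least weight of a point of multiplicity `r`, for the order two. -/
def hH (r : ℕ) : ℤ := if r = 2 then 4 else if r = 3 then 4 else if r = 4 then 0 else if r = 5 then -5 else 36 - 8 * r

theorem hH_six {r : ℕ} (h : 6 ≤ r) : hH r = 36 - 8 * r := by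
  unfold hH
  rw [if_neg (by omega), if_neg (by omega), if_neg (by omega), if_neg (by omega)]

theorem term_cube {r R : ℤ} (h6 : 6 ≤ r) (hR : r ≤ R) :
    (r + 7) ^ 2 * (r - 1) ≤ (R + 19) * r ^ 2 + (7 * (R + 19) - (13 * R + 98)) * r - 49 := by
  have h7 : 0 ≤ r * ((r - 6) * (R - r)) :=
    mul_nonneg (by linarith) (mul_nonneg (by linarith) (by linarith))
  linarith

theorem term_square {r R : ℤ} (h6 : 6 ≤ r) (hR : r ≤ R) : r ^ 2 ≤ (R + 6) * r - 6 * R := by
  have h7 : 0 ≤ (r - 6) * (R - r) := mul_nonneg (by linarith) (by linarith)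
  linarith

theorem term_six {r : ℤ} (h6 : 6 ≤ r) : 6 * r ≤ r ^ 2 := by
  have h7 : 0 ≤ r * (r - 6) := mul_nonneg (by linarith) (by linarith)
  linarith

variable {k : ℕ} {Φ : Type} [Fintype Φ] [DecidableEq Φ] (A : Arrangement k Φ)

namespace Arrangement

theorem sum_five (φ : ℕ → ℤ) : ∑ P ∈ A.points, φ (A.mul P) =
    φ 2 * A.t 2 + φ 3 * A.t 3 + φ 4 * A.t 4 + φ 5 * A.t 5 +
      ∑ P ∈ A.points.filter (fun P => 6 ≤ A.mul P), φ (A.mul P) := by
  have ht : ∀ r : ℕ, φ r * A.t r = ∑ P ∈ A.points, (if A.mul P = r then φ r else 0) := by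
    intro r
    rw [← sum_filter, sum_const, nsmul_eq_mul, mul_comm]
    rfl
  rw [ht 2, ht 3, ht 4, ht 5, sum_filter, ← sum_add_distrib, ← sum_add_distrib, ← sum_add_distrib,
    ← sum_add_distrib]
  refine sum_congr rfl fun P hP => ?_
  have h2 := A.two_le_mul hP
  rcases lt_or_ge (A.mul P) 6 with h6 | h6
  · have h : A.mul P = 2 ∨ A.mul P = 3 ∨ A.mul P = 4 ∨ A.mul P = 5 := by omega
    rcases h with h | h | h | h <;> simp [h]
  · rw [if_neg (by omega), if_neg (by omega), if_neg (by omega), if_neg (by omega), if_pos h6]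
    ring

/-- **The inequality for the order two and arbitrary orders over the exceptional curves.** -/
theorem full_pos (hk : ∀ P ∈ A.points, A.mul P + 3 ≤ k) :
    4 * (k : ℤ) < ∑ P ∈ A.points, hH (A.mul P) := by
  have hk2 : ∀ P ∈ A.points, A.mul P + 2 ≤ k := fun P hP => by have := hk P hP; omega
  obtain ⟨p, H⟩ := A.exists_rel hk2
  have hp3 : (A.mul p : ℤ) + 3 ≤ k := by exact_mod_cast hk p H.mem
  have h2 := H.two_le p H.mem
  rcases le_or_gt ((k : ℤ) + 4) (3 * A.mul p) with hL | hS
  · have h := H.certII (fun P => hH (A.mul P)) 4 8 (by norm_num) (by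
      intro P hP
      have h2' := A.two_le_mul hP
      rcases lt_or_ge (A.mul P) 6 with h6 | h6
      · have h : A.mul P = 2 ∨ A.mul P = 3 ∨ A.mul P = 4 ∨ A.mul P = 5 := by omega
        rcases h with h | h | h | h <;> simp only [h, hH] <;> norm_num
      · simp only [hH_six h6]
        nlinarith [sq_nonneg (2 * (A.mul P : ℤ) - 9)])
    have hR4 : (4 : ℤ) ≤ A.mul p := by omega
    have h5 : 0 ≤ ((k : ℤ) - A.mul p - 3) * (3 * A.mul p - k - 4) := mul_nonneg (by linarith) (by linarith)
    have h8 : 2 * hH (A.mul p) ≥ 72 - 16 * A.mul p - 8 := by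
      rcases lt_or_ge (A.mul p) 6 with h6 | h6
      · have h : A.mul p = 4 ∨ A.mul p = 5 := by
          have : 4 ≤ A.mul p := by exact_mod_cast hR4
          omega
        rcases h with h | h <;> simp only [h, hH] <;> norm_num
      · rw [hH_six h6]
        linarith
    nlinarith
  · set M := A.points.filter (fun P => 6 ≤ A.mul P) with hM
    have hMs : M ⊆ A.points := filter_subset _ _
    have hM6 : ∀ P ∈ M, (6 : ℤ) ≤ A.mul P := fun P hP => by exact_mod_cast (mem_filter.1 hP).2
    set N : ℤ := (M.card : ℤ) with hN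
    set S : ℤ := ∑ P ∈ M, (A.mul P : ℤ) with hS'
    set X : ℤ := ∑ P ∈ M, (A.mul P : ℤ) ^ 2 with hX
    set R : ℤ := (A.mul p : ℤ) with hRd
    have hrR : ∀ P ∈ M, (A.mul P : ℤ) ≤ R := fun P hP => H.max P (hMs hP)
    -- the sums over the points
    have hpairs := A.pairs
    have hmel := A.melchior hk2
    have hstar := A.star hk
    have e1 := A.sum_five (fun r => (r : ℤ) * (r - 1))
    have e2 := A.sum_five (fun r => 3 - (r : ℤ))
    have e3 := A.sum_five (fun r => if r = 2 then (1 : ℤ) else 7 - 2 * r)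
    have e4 := A.sum_five hH
    rw [← hM] at e1 e2 e3 e4
    have f1 : ∑ P ∈ M, ((A.mul P : ℤ) * (A.mul P - 1)) = X - S := by
      rw [hX, hS', ← sum_sub_distrib]
      exact sum_congr rfl fun P _ => by ring
    have f2 : ∑ P ∈ M, (3 - (A.mul P : ℤ)) = 3 * N - S := by
      rw [sum_sub_distrib, sum_const, nsmul_eq_mul]
      ring
    have f3 : ∑ P ∈ M, (if A.mul P = 2 then (1 : ℤ) else 7 - 2 * A.mul P) = 7 * N - 2 * S := by
      rw [sum_congr rfl (fun P hP => if_neg (by have := (mem_filter.1 hP).2; omega)), sum_sub_distrib, sum_const,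
        nsmul_eq_mul, ← mul_sum]
      ring
    have f4 : ∑ P ∈ M, hH (A.mul P) = 36 * N - 8 * S := by
      rw [sum_congr rfl (fun P hP => hH_six (mem_filter.1 hP).2), sum_sub_distrib, sum_const,
        nsmul_eq_mul, ← mul_sum]
      ring
    rw [e1, f1] at hpairs
    rw [e2, f2] at hmel
    rw [e3, f3] at hstar
    rw [e4, f4]
    have g2 : hH 2 = 4 := rfl
    have g3 : hH 3 = 4 := rfl
    have g4 : hH 4 = 0 := rfl
    have g5 : hH 5 = -5 := rfl
    rw [g2, g3, g4, g5]
    have key := num_full (k := (k : ℤ)) (f := (A.t 2 : ℤ)) (t := (A.t 3 : ℤ)) (a := (A.t 4 : ℤ)) (b := (A.t 5 : ℤ))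
      (N := N) (S := S) (X := X) (R := R) (by positivity) (by positivity) (by positivity)
      (by rw [← hpairs]; push_cast; ring) (by refine hmel.trans (le_of_eq ?_); push_cast; ring)
      (by refine hstar.trans (le_of_eq ?_); norm_num; ring) ?_ ?_ ?_
    · refine lt_of_lt_of_eq key ?_
      ring
    · intro h0
      have h0' : (M.card : ℤ) = 0 := h0
      have : M = ∅ := by
        rw [← card_eq_zero]
        exact_mod_cast h0'
      rw [hS', hX, this, sum_empty, sum_empty]
      exact ⟨rfl, rfl⟩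
    · intro hN1
      have hX0 : 0 ≤ X := sum_nonneg fun P _ => sq_nonneg _
      have hSR : S ≤ N * R := by
        have := sum_le_card_nsmul M (fun P => (A.mul P : ℤ)) R hrR
        rwa [nsmul_eq_mul] at this
      have hS6 : 6 * N ≤ S := by
        have := card_nsmul_le_sum M (fun P => (A.mul P : ℤ)) 6 hM6
        rw [nsmul_eq_mul] at this
        linarith
      have hU := A.union_bound M hMs
      have hXR : X ≤ (R + 6) * S - 6 * R * N := by
        have : ∑ P ∈ M, (A.mul P : ℤ) ^ 2 ≤ ∑ P ∈ M, ((R + 6) * (A.mul P : ℤ) - 6 * R) := by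
          exact sum_le_sum fun P hP => term_square (hM6 P hP) (hrR P hP)
        rw [sum_sub_distrib, ← mul_sum, sum_const, nsmul_eq_mul] at this
        linarith
      have hX6 : 6 * S ≤ X := by
        rw [hX, hS', mul_sum]
        exact sum_le_sum fun P hP => term_six (hM6 P hP)
      -- the lines
      have hd1 := A.line_sum M (fun _ => 1)
      have hd2 := A.line_squares M hMs (fun _ => 1) (fun _ _ => zero_le_one)
      have hg1 := A.line_sum M (fun P => (A.mul P : ℤ) + 7)
      have hg2 := A.line_squares M hMs (fun P => (A.mul P : ℤ) + 7) (fun P _ => by positivity)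
      set d : Fin k → ℤ := fun i => ∑ P ∈ M, if i ∈ P.image A.line then (1 : ℤ) else 0 with hd
      set g : Fin k → ℤ := fun i => ∑ P ∈ M, if i ∈ P.image A.line then ((A.mul P : ℤ) + 7) else 0 with hg
      have hd1' : ∑ i, d i = S := by
        rw [hS']
        refine Eq.trans hd1 (sum_congr rfl fun P _ => mul_one _)
      have hd2' : ∑ i, d i ^ 2 ≤ N ^ 2 - N + S := by
        refine hd2.trans (le_of_eq ?_)
        rw [sum_const, nsmul_eq_mul, mul_one, sum_congr rfl (fun P _ => by ring :
          ∀ P ∈ M, (1 : ℤ) ^ 2 * ((A.mul P : ℤ) - 1) = (A.mul P : ℤ) - 1), sum_sub_distrib, sum_const, nsmul_eq_mul]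
        ring
      have hg1' : ∑ i, g i = X + 7 * S := by
        rw [hX, hS', mul_sum, ← sum_add_distrib]
        refine Eq.trans hg1 (sum_congr rfl fun P _ => by ring)
      have hsumg : ∑ P ∈ M, ((A.mul P : ℤ) + 7) = S + 7 * N := by
        rw [sum_add_distrib, sum_const, nsmul_eq_mul]
        ring
      have hg2' : ∑ i, g i ^ 2 ≤ (R + 19) * (X + 7 * S) - (13 * R + 98) * S - 49 * N + (S + 7 * N) ^ 2 := by
        refine hg2.trans ?_
        rw [hsumg]
        have hterm : ∑ P ∈ M, ((A.mul P : ℤ) + 7) ^ 2 * ((A.mul P : ℤ) - 1) ≤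
            ∑ P ∈ M, ((R + 19) * (A.mul P : ℤ) ^ 2 + (7 * (R + 19) - (13 * R + 98)) * (A.mul P : ℤ) - 49) := by
          exact sum_le_sum fun P hP => term_cube (hM6 P hP) (hrR P hP)
        rw [sum_sub_distrib, sum_add_distrib, ← mul_sum, ← mul_sum, sum_const, nsmul_eq_mul] at hterm
        linarith
      have h1 : S ^ 2 ≤ k * (N ^ 2 - N + S) := by
        have := sq_sum_le_card_mul_sum_sq (s := (univ : Finset (Fin k))) (f := d)
        rw [hd1', card_univ, Fintype.card_fin] at this
        refine this.trans ?_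
        gcongr
      have h2 : (X + 7 * S) * (2 * ((k : ℤ) + 3) - R - 19) ≤
          (k : ℤ) * ((k : ℤ) + 3) ^ 2 + (S + 7 * N) ^ 2 - (13 * R + 98) * S - 49 * N := by
        have h3 : 0 ≤ ∑ i : Fin k, (g i - ((k : ℤ) + 3)) ^ 2 := sum_nonneg fun i _ => sq_nonneg _
        have h4 : ∑ i : Fin k, (g i - ((k : ℤ) + 3)) ^ 2 =
            ∑ i, g i ^ 2 - 2 * ((k : ℤ) + 3) * ∑ i, g i + k * ((k : ℤ) + 3) ^ 2 := by
          rw [sum_congr rfl (fun i _ => by ring : ∀ i ∈ (univ : Finset (Fin k)), (g i - ((k : ℤ) + 3)) ^ 2 =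
            g i ^ 2 - 2 * ((k : ℤ) + 3) * g i + ((k : ℤ) + 3) ^ 2), sum_add_distrib, sum_sub_distrib, ← mul_sum,
            sum_const, card_univ, Fintype.card_fin, nsmul_eq_mul]
        rw [h4, hg1'] at h3
        linarith
      exact ⟨by linarith, hSR, hS6, by linarith, hXR, hX6, h1, h2⟩
    · intro hN3 hS3
      have hzero : ∀ r, (r = 4 ∨ r = 5) → A.t r = 0 := by
        intro r hr
        unfold t
        rw [card_eq_zero, filter_eq_empty_iff]
        intro Q hQ hQr
        have hQM : Q ∉ M := fun h => by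
          have := (mem_filter.1 h).2
          omega
        have hU := A.union_bound (insert Q M) (insert_subset hQ hMs)
        rw [sum_insert hQM, card_insert_of_notMem hQM] at hU
        have hN3' : (M.card : ℤ) = 3 := hN3
        push_cast at hU
        rw [hN3'] at hU
        have hQ4 : (4 : ℤ) ≤ A.mul Q := by
          have : 4 ≤ A.mul Q := by omega
          exact_mod_cast this
        linarith
      rw [hzero 4 (Or.inl rfl), hzero 5 (Or.inr rfl)]
      exact ⟨rfl, rfl⟩

end Arrangement

end Pool.Agent.H875.PL
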