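import Pool.Agent.H875.PL.Local

/-!
# Linear inequalities for the numbers of the points of an arrangement of pseudolines
-/

set_option autoImplicit false
set_option linter.unusedSectionVars false

namespace Pool.Agent.H875.PL

open Finset Function

variable {k : ℕ} {Φ : Type} [Fintype Φ] [DecidableEq Φ] (A : Arrangement k Φ)

namespace Arrangement

theorem mult_e (x : Φ) : A.mult (A.e x) = A.mult x := A.mult_eq (A.vert_e x)

theorem mult_f (x : Φ) : A.mult (A.f x) = A.mult x := A.mult_eq (A.vert_f x)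

theorem len_v (x : Φ) : A.len (A.v x) = A.len x := by
  have h1 := A.card_face x
  have h2 := A.card_face (A.v x)
  unfold face at h1 h2
  rw [cell_left] at h2
  omega

theorem len_e (x : Φ) : A.len (A.e x) = A.len x := by
  have h1 := A.card_face x
  have h2 := A.card_face (A.e x)
  unfold face at h1 h2
  rw [cell_right] at h2
  omega

/-- The local inequality. -/
theorem local_ineq (hk : ∀ P ∈ A.points, A.mul P + 2 ≤ k) :
    2 * (univ.filter fun x => A.mult x = 2).card ≤
      (univ.filter fun x => A.mult x ≠ 2).card + 5 * (univ.filter fun x => A.len x ≠ 3).card := by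
  set P1 := univ.filter fun x => A.mult x = 2 ∧ A.mult (A.v x) = 2 with hP1
  set Q1 := univ.filter fun x => A.mult x = 2 ∧ A.mult (A.v x) ≠ 2 with hQ1
  set Q2 := univ.filter fun x => A.mult x ≠ 2 ∧ A.mult (A.v x) = 2 with hQ2
  set Q3 := univ.filter fun x => A.mult x ≠ 2 ∧ A.mult (A.v (A.e x)) = 2 with hQ3
  set P3 := univ.filter fun x => (A.mult x = 2 ∧ A.mult (A.v x) = 2) ∧ A.len x = 3 with hP3
  set P4 := univ.filter fun x => (A.mult x = 2 ∧ A.mult (A.v x) = 2) ∧ A.len x ≠ 3 with hP4
  set B3 := univ.filter fun x => (A.mult x ≠ 2 ∧ A.mult (A.v x) = 2 ∧ A.mult (A.v (A.e x)) = 2) ∧ A.len x = 3 with hB3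
  set B4 := univ.filter fun x => (A.mult x ≠ 2 ∧ A.mult (A.v x) = 2 ∧ A.mult (A.v (A.e x)) = 2) ∧ A.len x ≠ 3 with hB4
  have e1 : (univ.filter fun x => A.mult x = 2).card = P1.card + Q1.card := by
    have := card_filter_add_card_filter_not (s := univ.filter fun x => A.mult x = 2) (fun x => A.mult (A.v x) = 2)
    rw [filter_filter, filter_filter] at this
    exact this.symm
  have e2 : Q1.card ≤ Q2.card := by
    refine card_le_card_of_injOn A.v ?_ A.v.injective.injOn
    intro x hx
    simp only [hQ1, coe_filter, mem_univ, true_and, Set.mem_ofPred_eq] at hx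
    simp only [hQ2, coe_filter, mem_univ, true_and, Set.mem_ofPred_eq]
    rw [A.vv]
    exact ⟨hx.2, hx.1⟩
  have e3 : Q1.card ≤ Q3.card := by
    refine e2.trans (card_le_card_of_injOn A.e ?_ A.e.injective.injOn)
    intro x hx
    simp only [hQ2, coe_filter, mem_univ, true_and, Set.mem_ofPred_eq] at hx
    simp only [hQ3, coe_filter, mem_univ, true_and, Set.mem_ofPred_eq]
    rw [A.ee, A.mult_e]
    exact ⟨hx.1, hx.2⟩
  have e4 : P1.card = P3.card + P4.card := by
    have := card_filter_add_card_filter_not (s := P1) (fun x => A.len x = 3)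
    rw [hP1, filter_filter, filter_filter] at this
    exact this.symm
  have e5 : (Q2 ∩ Q3).card = B3.card + B4.card := by
    have := card_filter_add_card_filter_not (s := Q2 ∩ Q3) (fun x => A.len x = 3)
    rw [← this]
    congr 1
    · congr 1
      ext x
      simp only [hQ2, hQ3, hB3, mem_filter, mem_inter, mem_univ, true_and]
      tauto
    · congr 1
      ext x
      simp only [hQ2, hQ3, hB4, mem_filter, mem_inter, mem_univ, true_and]
      tauto
  have e6 : (Q2 ∪ Q3).card ≤ (univ.filter fun x => A.mult x ≠ 2).card := by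
    apply card_le_card
    intro x hx
    simp only [hQ2, hQ3, mem_filter, mem_union, mem_univ, true_and] at hx ⊢
    tauto
  have e7 := card_union_add_card_inter Q2 Q3
  have e8 : B3.card ≤ P3.card := by
    refine card_le_card_of_injOn (fun x => A.e (A.v x)) ?_ (A.e.injective.comp A.v.injective).injOn
    intro x hx
    simp only [hB3, coe_filter, mem_univ, true_and, Set.mem_ofPred_eq] at hx
    simp only [hP3, coe_filter, mem_univ, true_and, Set.mem_ofPred_eq]
    obtain ⟨⟨h1, h2, h3⟩, h4⟩ := hx
    refine ⟨⟨by rw [A.mult_e]; exact h2, ?_⟩, by rw [A.len_e, A.len_v]; exact h4⟩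
    rw [← A.tri_eq h4, A.mult_e]
    exact h3
  have e9 : P3.card ≤ P4.card := by
    refine card_le_card_of_injOn A.f ?_ A.f.injective.injOn
    intro x hx
    simp only [hP3, coe_filter, mem_univ, true_and, Set.mem_ofPred_eq] at hx
    simp only [hP4, coe_filter, mem_univ, true_and, Set.mem_ofPred_eq]
    obtain ⟨⟨h1, h2⟩, h4⟩ := hx
    refine ⟨⟨by rw [A.mult_f]; exact h1, by rw [A.comm, A.mult_f]; exact h2⟩, ?_⟩
    intro h5
    exact A.not_two_triangles hk h1 h2 h4 h5
  have e10 : P4.card + B4.card ≤ (univ.filter fun x => A.len x ≠ 3).card := by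
    rw [← card_union_of_disjoint]
    · apply card_le_card
      intro x hx
      simp only [hP4, hB4, mem_filter, mem_union, mem_univ, true_and] at hx ⊢
      tauto
    · rw [disjoint_left]
      intro x hx hx'
      simp only [hP4, mem_filter, mem_univ, true_and] at hx
      simp only [hB4, mem_filter, mem_univ, true_and] at hx'
      exact hx'.1.1 hx.1.1
  omega

theorem card_flags : Fintype.card Φ = 4 * (cells A.v A.f).card := by
  rw [card_univ_eq_sum A.v A.f]
  have h : ∀ P ∈ cells A.v A.f, P.card = 4 := by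
    intro P hP
    obtain ⟨x, -, rfl⟩ := mem_image.1 hP
    rw [card_cell A.vv A.ff A.v_ne A.f_ne]
    have h2 : ((A.v * A.f) ^ 2) x = x := by
      rw [pow_two]
      simp only [Equiv.Perm.mul_apply]
      rw [A.comm (A.v (A.f x)), A.vv, A.ff]
    have h1 : minimalPeriod (A.v * A.f) x ∣ 2 := by
      apply IsPeriodicPt.minimalPeriod_dvd
      change (⇑(A.v * A.f))^[2] x = x
      rw [← pow_eq_iterate]
      exact h2
    have h3 : minimalPeriod (A.v * A.f) x ≠ 1 := by
      intro h
      have h4 : ((A.v * A.f) ^ minimalPeriod (A.v * A.f) x) x = x := by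
        rw [pow_eq_iterate]
        exact iterate_minimalPeriod
      rw [h, pow_one] at h4
      exact A.vf_ne x h4
    have h4 := Nat.le_of_dvd two_pos h1
    have h5 := period_pos (a := A.v) (b := A.f) x
    omega
  rw [sum_congr rfl h, sum_const, smul_eq_mul, mul_comm]

theorem mult_eq_mul (x : Φ) : A.mult x = A.mul (cell A.e A.f x) := (A.mul_vert x).symm

theorem card_flags' : Fintype.card Φ = ∑ P ∈ A.points, 4 * A.mul P := by
  rw [card_univ_eq_sum A.e A.f]
  exact sum_congr rfl fun _ hP => A.card_point hP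

theorem card_double : (univ.filter fun x => A.mult x = 2).card = ∑ P ∈ A.points.filter (fun P => A.mul P = 2), 8 := by
  have h := card_filter_eq_sum A.e A.f (fun P => A.mul P = 2)
  simp only [← A.mult_eq_mul] at h
  rw [h]
  refine sum_congr rfl fun P hP => ?_
  rw [mem_filter] at hP
  rw [A.card_point hP.1, hP.2]

theorem card_not_double : (univ.filter fun x => A.mult x ≠ 2).card =
    ∑ P ∈ A.points.filter (fun P => A.mul P ≠ 2), 4 * A.mul P := by
  have h := card_filter_eq_sum A.e A.f (fun P => A.mul P ≠ 2)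
  simp only [← A.mult_eq_mul] at h
  rw [h]
  refine sum_congr rfl fun P hP => ?_
  rw [mem_filter] at hP
  rw [A.card_point hP.1]

theorem len_three (x : Φ) : A.len x = 3 ↔ (cell A.v A.e x).card = 6 := by
  have := A.card_face x
  unfold face at this
  omega

theorem faces (hk : ∀ P ∈ A.points, A.mul P + 2 ≤ k) : 6 * (cells A.v A.e).card ≤ Fintype.card Φ ∧
    (univ.filter fun x => A.len x ≠ 3).card + 24 * (cells A.v A.e).card ≤ 4 * Fintype.card Φ := by
  have h3 : ∀ P ∈ cells A.v A.e, ∃ l, 3 ≤ l ∧ P.card = 2 * l := by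
    intro P hP
    obtain ⟨x, -, rfl⟩ := mem_image.1 hP
    exact ⟨A.len x, A.three_le_len hk x, A.card_face x⟩
  constructor
  · rw [card_univ_eq_sum A.v A.e, mul_comm, ← smul_eq_mul, ← sum_const]
    refine sum_le_sum fun P hP => ?_
    obtain ⟨l, hl, h⟩ := h3 P hP
    omega
  · have h := card_filter_eq_sum A.v A.e (fun P => P.card ≠ 6)
    have h' : (univ.filter fun x => A.len x ≠ 3) = univ.filter fun x => (cell A.v A.e x).card ≠ 6 := by
      ext x
      simp only [mem_filter, mem_univ, true_and, ne_eq, A.len_three]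
    rw [h', h, card_univ_eq_sum A.v A.e, sum_filter, mul_comm 24, ← smul_eq_mul, ← sum_const, ← sum_add_distrib,
      mul_sum]
    refine sum_le_sum fun P hP => ?_
    obtain ⟨l, hl, h⟩ := h3 P hP
    split_ifs with h6 <;> omega

theorem sum_split (g : Finset Φ → ℤ) : ∑ P ∈ A.points, g P =
    ∑ P ∈ A.points.filter (fun P => A.mul P = 2), g P + ∑ P ∈ A.points.filter (fun P => A.mul P ≠ 2), g P :=
  (sum_filter_add_sum_filter_not _ _ _).symm

/-- **Melchior's inequality.** -/
theorem melchior (hk : ∀ P ∈ A.points, A.mul P + 2 ≤ k) : 3 ≤ ∑ P ∈ A.points, (3 - (A.mul P : ℤ)) := by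
  have h1 := (A.faces hk).1
  have h2 := A.card_flags
  have h3 := A.card_flags'
  have h4 := A.euler
  rw [← mul_sum] at h3
  have h5 : (∑ P ∈ A.points, (3 - (A.mul P : ℤ))) = 3 * A.points.card - ∑ P ∈ A.points, (A.mul P : ℤ) := by
    rw [sum_sub_distrib, sum_const, nsmul_eq_mul, mul_comm]
  have h6 : ((∑ P ∈ A.points, A.mul P : ℕ) : ℤ) = ∑ P ∈ A.points, (A.mul P : ℤ) := by push_cast; rfl
  rw [h5, ← h6]
  unfold points at h3 h5 ⊢
  omega

/-- **The inequality** `2 t_2 + t_3 ≥ 10 + ∑ (3 r - 10) t_r`, where the sum is over `r ≥ 4`. -/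
theorem short (hk : ∀ P ∈ A.points, A.mul P + 2 ≤ k) :
    10 ≤ ∑ P ∈ A.points, (if A.mul P = 2 then (2 : ℤ) else 10 - 3 * A.mul P) := by
  have h1 := (A.faces hk).2
  have h2 := A.card_flags
  have h3 := A.card_flags'
  have h4 := A.euler
  have h5 := A.local_ineq hk
  rw [A.card_double, A.card_not_double] at h5
  rw [← mul_sum] at h3
  set F2 := A.points.filter (fun P => A.mul P = 2) with hF2
  set F3 := A.points.filter (fun P => A.mul P ≠ 2) with hF3
  have e1 : A.points.card = F2.card + F3.card := (card_filter_add_card_filter_not _).symm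
  have e2 : ∑ P ∈ A.points, A.mul P = 2 * F2.card + ∑ P ∈ F3, A.mul P := by
    rw [← sum_filter_add_sum_filter_not A.points (fun P => A.mul P = 2)]
    congr 1
    rw [sum_congr rfl (fun P hP => (mem_filter.1 hP).2), sum_const, smul_eq_mul, mul_comm]
  have e3 : ∑ P ∈ A.points, (if A.mul P = 2 then (2 : ℤ) else 10 - 3 * A.mul P) =
      2 * F2.card + (10 * F3.card - 3 * ((∑ P ∈ F3, A.mul P : ℕ) : ℤ)) := by
    rw [A.sum_split]
    congr 1
    · rw [sum_congr rfl (fun P hP => if_pos (mem_filter.1 hP).2), sum_const, nsmul_eq_mul, mul_comm]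
    · rw [sum_congr rfl (fun P hP => if_neg (mem_filter.1 hP).2), sum_sub_distrib, sum_const, nsmul_eq_mul,
        ← mul_sum]
      push_cast
      ring
  rw [e3]
  rw [← mul_sum, sum_const, smul_eq_mul] at h5
  have e4 : A.points.card = (cells A.e A.f).card := rfl
  omega

/-- Two pseudolines meet in exactly one point: the pairs of pseudolines. -/
theorem pairs : ∑ P ∈ A.points, ((A.mul P : ℤ) * (A.mul P - 1)) = (k : ℤ) * (k - 1) := by
  have h1 : (univ : Finset (Fin k)).offDiag.card = ∑ P ∈ A.points, (P.image A.line).offDiag.card := by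
    rw [← card_biUnion]
    · congr 1
      ext ⟨i, j⟩
      simp only [mem_offDiag, mem_univ, true_and, mem_biUnion]
      constructor
      · intro hij
        obtain ⟨P, ⟨hP, h1, h2⟩, -⟩ := A.meet i j hij
        exact ⟨P, hP, h1, h2, hij⟩
      · rintro ⟨P, -, -, -, h⟩
        exact h
    · intro P hP Q hQ hPQ
      rw [Function.onFun, disjoint_left]
      rintro ⟨i, j⟩ h1 h2
      rw [mem_offDiag] at h1 h2
      exact hPQ (A.unique h1.2.2 hP hQ h1.1 h1.2.1 h2.1 h2.2.1)
  have h2 : ((univ : Finset (Fin k)).offDiag.card : ℤ) = (k : ℤ) * (k - 1) := by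
    rw [offDiag_card, card_univ, Fintype.card_fin, Nat.cast_sub (Nat.le_mul_self k)]
    push_cast
    ring
  have h3 : ∀ s : Finset (Fin k), (s.offDiag.card : ℤ) = (s.card : ℤ) * (s.card - 1) := by
    intro s
    rw [offDiag_card, Nat.cast_sub (Nat.le_mul_self _)]
    push_cast
    ring
  rw [← h2, h1]
  push_cast
  refine sum_congr rfl fun _ _ => ?_
  rw [h3]
  rfl

/-- The pairs of pseudolines which are not on the point `P`. -/
theorem off {P : Finset Φ} (hP : P ∈ A.points) :
    ∑ Q ∈ A.points.erase P, (((A.mul Q : ℤ) - 1) * (A.mul Q - 2)) ≤ ((k : ℤ) - A.mul P) * (k - A.mul P - 1) := by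
  have h3 : ∀ s : Finset (Fin k), (s.offDiag.card : ℤ) = (s.card : ℤ) * (s.card - 1) := by
    intro s
    rw [offDiag_card, Nat.cast_sub (Nat.le_mul_self _)]
    push_cast
    ring
  set L := P.image A.line with hL
  have hLc : (L.card : ℤ) = A.mul P := rfl
  have h1 : ∑ Q ∈ A.points.erase P, (Q.image A.line \ L).offDiag.card ≤ (univ \ L : Finset (Fin k)).offDiag.card := by
    rw [← card_biUnion]
    · apply card_le_card
      rintro ⟨i, j⟩ h
      simp only [mem_biUnion, mem_offDiag, mem_sdiff, mem_univ, true_and] at h ⊢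
      obtain ⟨Q, -, ⟨-, h1⟩, ⟨-, h2⟩, h3⟩ := h
      exact ⟨h1, h2, h3⟩
    · intro Q hQ R hR hQR
      rw [Function.onFun, disjoint_left]
      rintro ⟨i, j⟩ h1 h2
      simp only [mem_offDiag, mem_sdiff] at h1 h2
      exact hQR (A.unique h1.2.2 (mem_of_mem_erase hQ) (mem_of_mem_erase hR) h1.1.1 h1.2.1.1 h2.1.1 h2.2.1.1)
  have h2 : ((univ \ L : Finset (Fin k)).card : ℤ) = k - A.mul P := by
    rw [card_sdiff_of_subset (subset_univ _), card_univ, Fintype.card_fin, Nat.cast_sub]
    · rfl
    · have := card_le_univ L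
      rwa [Fintype.card_fin] at this
  have h4 : ∀ Q ∈ A.points.erase P, (((A.mul Q : ℤ) - 1) * (A.mul Q - 2)) ≤ ((Q.image A.line \ L).offDiag.card : ℤ) := by
    intro Q hQ
    rw [h3]
    have hQ' := mem_of_mem_erase hQ
    have hm := A.two_le_mul hQ'
    have hint : (Q.image A.line ∩ L).card ≤ 1 := by
      rw [card_le_one]
      intro i hi j hj
      by_contra hij
      rw [mem_inter] at hi hj
      exact (ne_of_mem_erase hQ) (A.unique hij hQ' hP hi.1 hj.1 hi.2 hj.2)
    have hs := card_sdiff_add_card_inter (Q.image A.line) L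
    have hs' : A.mul Q ≤ (Q.image A.line \ L).card + 1 := by
      unfold mul
      omega
    have hs2 : (A.mul Q : ℤ) - 1 ≤ ((Q.image A.line \ L).card : ℤ) := by
      have : (A.mul Q : ℤ) ≤ ((Q.image A.line \ L).card : ℤ) + 1 := by exact_mod_cast hs'
      linarith
    have hm' : (2 : ℤ) ≤ A.mul Q := by exact_mod_cast hm
    nlinarith
  calc ∑ Q ∈ A.points.erase P, (((A.mul Q : ℤ) - 1) * (A.mul Q - 2))
      ≤ ∑ Q ∈ A.points.erase P, ((Q.image A.line \ L).offDiag.card : ℤ) := sum_le_sum h4
    _ = ((∑ Q ∈ A.points.erase P, (Q.image A.line \ L).offDiag.card : ℕ) : ℤ) := by push_cast; rfl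
    _ ≤ ((univ \ L : Finset (Fin k)).offDiag.card : ℤ) := by exact_mod_cast h1
    _ = _ := by rw [h3, h2]

end Arrangement

end Pool.Agent.H875.PL
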