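import Pool.Agent.H875.PL.Vertex

/-!
# Edges and faces of an arrangement which is not a pencil and not a near-pencil
-/

set_option autoImplicit false
set_option linter.unusedSectionVars false

namespace Pool.Agent.H875.PL

open Finset Function

variable {k : ℕ} {Φ : Type} [Fintype Φ] [DecidableEq Φ] (A : Arrangement k Φ)

namespace Arrangement

theorem opp_f (x : Φ) : A.opp (A.f x) = A.f (A.opp x) := by
  have h := conj_pow A.ee A.ff x (A.mult x)
  have h1 : A.mult (A.f (((A.e * A.f) ^ A.mult x) x)) = A.mult x :=
    A.mult_eq (by rw [A.vert_f, A.vert_pow])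
  have h2 : A.opp (A.f (A.opp x)) = A.f x := by
    change ((A.e * A.f) ^ A.mult (A.f (((A.e * A.f) ^ A.mult x) x))) (A.f (((A.e * A.f) ^ A.mult x) x)) = _
    rw [h1, h]
  rw [← h2, A.opp_opp]

/-- A set of flags on a pseudoline which is closed under the moves contains all flags of the pseudoline. -/
theorem closed_set (S : Φ → Prop) (x : Φ) (hx : S x)
    (hv : ∀ y, A.line y = A.line x → S y → S (A.v y))
    (hf : ∀ y, A.line y = A.line x → S y → S (A.f y))
    (ho : ∀ y, A.line y = A.line x → S y → S (A.opp y)) (y : Φ) (hy : A.line y = A.line x) : S y := by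
  have h := A.closed x y hy.symm
  have : A.line y = A.line x ∧ S y := by
    clear hy
    induction h with
    | refl => exact ⟨rfl, hx⟩
    | tail _ hbc ih =>
      rcases hbc with rfl | rfl | rfl
      · exact ⟨by rw [A.line_v, ih.1], hv _ ih.1 ih.2⟩
      · exact ⟨by rw [A.line_f, ih.1], hf _ ih.1 ih.2⟩
      · exact ⟨(A.line_opp _).trans ih.1, ho _ ih.1 ih.2⟩
  exact this.2

/-- If all points of the pseudoline of `x`, but at most one, are on no other pseudolines but `c`, then the other
point is on all pseudolines except `c`. -/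
theorem edge_ne (hk : ∀ P ∈ A.points, A.mul P + 2 ≤ k) (x : Φ) : A.vert (A.v x) ≠ A.vert x := by
  intro h
  have h1 := A.four h (A.line_v x)
  have n1 : A.v x ≠ A.f x := by
    intro h2
    apply A.vf_ne x
    rw [← h2, A.vv]
  have h2 : A.vert (A.v (A.opp x)) = A.vert x := by
    rcases h1 with h2 | h2 | h2 | h2
    · exact absurd h2 (A.v_ne x)
    · exact absurd h2 n1
    · rw [← h2, A.vv]
    · have h3 : A.opp x = A.v (A.f x) := by rw [A.comm, h2, A.ff]
      rw [h3, A.vv, A.vert_f]
  have all : ∀ y, A.line y = A.line x → A.vert y = A.vert x := by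
    refine A.closed_set (fun y => A.vert y = A.vert x) x rfl ?_ ?_ ?_
    · intro y hl hy
      rcases A.four hy hl with rfl | rfl | rfl | rfl
      · exact h
      · rw [A.comm, A.vert_f]; exact h
      · exact h2
      · rw [A.comm, A.vert_f]; exact h2
    · intro y _ hy
      rw [A.vert_f]; exact hy
    · intro y _ hy
      rw [A.vert_opp]; exact hy
  have huniv : (A.vert x).image A.line = univ := by
    ext i
    simp only [mem_univ, iff_true]
    rcases eq_or_ne i (A.line x) with rfl | hi
    · exact A.line_mem x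
    · obtain ⟨Q, ⟨hQ, h3, h4⟩, -⟩ := A.meet i (A.line x) hi
      obtain ⟨z, rfl, -⟩ := A.mem_points hQ
      obtain ⟨y, hy, hyl⟩ := mem_image.1 h4
      have h5 := all y hyl
      have h6 : A.vert y = A.vert z := A.vert_eq_iff.2 hy
      rw [← h5, h6]
      exact h3
  have h3 := hk _ (A.vert_mem x)
  unfold mul at h3
  rw [huniv, card_univ, Fintype.card_fin] at h3
  omega

/-- The number of the sides of the face of `x`. -/
noncomputable def len (x : Φ) : ℕ := minimalPeriod (A.v * A.e) x

theorem card_face (x : Φ) : (A.face x).card = 2 * A.len x :=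
  card_cell A.vv A.ee A.v_ne A.e_ne x

theorem len_pos (x : Φ) : 0 < A.len x := period_pos x

theorem three_le_len (hk : ∀ P ∈ A.points, A.mul P + 2 ≤ k) (x : Φ) : 3 ≤ A.len x := by
  have h0 := A.len_pos x
  by_contra hcon
  have h12 : A.len x = 1 ∨ A.len x = 2 := by omega
  have hper : ((A.v * A.e) ^ A.len x) x = x := by
    rw [pow_eq_iterate]
    exact iterate_minimalPeriod
  rcases h12 with h1 | h1
  · rw [h1, pow_one, Equiv.Perm.mul_apply] at hper
    have h2 : A.e x = A.v x := by rw [← A.vv (A.e x), hper]
    apply A.line_e_ne x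
    rw [h2, A.line_v]
  · rw [h1, pow_two] at hper
    simp only [Equiv.Perm.mul_apply] at hper
    -- `v e v e x = x`
    have h2 : A.e (A.v (A.e x)) = A.v x := by rw [← A.vv (A.e (A.v (A.e x))), hper]
    have h3 : A.vert (A.v x) = A.vert (A.v (A.e x)) := by rw [← h2, A.vert_e]
    refine A.edge_ne hk x ?_
    refine A.unique (A.line_e_ne x) (A.vert_mem _) (A.vert_mem _) ?_ ?_ ?_ ?_
    · rw [h3, ← A.line_v (A.e x)]
      exact A.line_mem _
    · rw [← A.line_v x]
      exact A.line_mem _
    · rw [← A.vert_e]
      exact A.line_mem _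
    · exact A.line_mem _

theorem double_rot {z : Φ} (hz : A.mult z = 2) : A.opp (A.e (A.f z)) = A.f (A.e z) := by
  have h1 := A.pow_two_mult z
  rw [hz] at h1
  have h2 : A.mult (A.e (A.f z)) = 2 := by
    rw [← hz]; exact A.mult_eq (by rw [A.vert_e, A.vert_f])
  unfold opp
  rw [h2]
  have h3 : ((A.e * A.f) ^ (2 * 2)) z = A.e (A.f (((A.e * A.f) ^ 2) (A.e (A.f z)))) := by
    rw [show 2 * 2 = 1 + (2 + 1) from rfl, pow_add, pow_add, pow_one]
    rfl
  rw [h3] at h1
  have h4 : A.f (((A.e * A.f) ^ 2) (A.e (A.f z))) = A.e z := by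
    rw [← A.ee (A.f (((A.e * A.f) ^ 2) (A.e (A.f z)))), h1]
  rw [← A.ff (((A.e * A.f) ^ 2) (A.e (A.f z))), h4]

theorem double_line {z : Φ} (hz : A.mult z = 2) : A.line (A.e (A.f z)) = A.line (A.e z) := by
  rw [← A.line_opp, A.double_rot hz, A.line_f]

theorem tri_eq {z : Φ} (h : A.len z = 3) : A.e (A.v (A.e z)) = A.v (A.e (A.v z)) := by
  have hper : ((A.v * A.e) ^ A.len z) z = z := by
    rw [pow_eq_iterate]
    exact iterate_minimalPeriod
  rw [h] at hper
  have e3 : ((A.v * A.e) ^ 3) z = A.v (A.e (A.v (A.e (A.v (A.e z))))) := by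
    rw [pow_succ, pow_two]
    rfl
  rw [e3] at hper
  have h1 : A.e (A.v (A.e (A.v (A.e z)))) = A.v z := by rw [← A.vv (A.e (A.v (A.e (A.v (A.e z))))), hper]
  have h2 : A.v (A.e (A.v (A.e z))) = A.e (A.v z) := by rw [← A.ee (A.v (A.e (A.v (A.e z)))), h1]
  rw [← A.vv (A.e (A.v (A.e z))), h2]

/-- The edge between two double points is not a side of two triangles. -/
theorem not_two_triangles (hk : ∀ P ∈ A.points, A.mul P + 2 ≤ k) {z : Φ} (hz : A.mult z = 2)
    (hw : A.mult (A.v z) = 2) (h1 : A.len z = 3) (h2 : A.len (A.f z) = 3) : False := by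
  have t1 := A.tri_eq h1
  have t2 := A.tri_eq h2
  have hne : A.vert (A.v z) ≠ A.vert z := A.edge_ne hk z
  -- the three pseudolines
  have lac : A.line (A.e z) ≠ A.line z := A.line_e_ne z
  have lbc : A.line (A.e (A.v z)) ≠ A.line z := by
    have := A.line_e_ne (A.v z)
    rwa [A.line_v] at this
  have lab : A.line (A.e z) ≠ A.line (A.e (A.v z)) := by
    intro h
    refine hne (A.unique lac (A.vert_mem _) (A.vert_mem _) ?_ ?_ ?_ ?_)
    · rw [h, ← A.vert_e]; exact A.line_mem _
    · rw [← A.line_v z]; exact A.line_mem _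
    · rw [← A.vert_e]; exact A.line_mem _
    · exact A.line_mem _
  have hY1 : A.vert (A.v (A.e (A.v z))) = A.vert (A.v (A.e z)) := by rw [← t1, A.vert_e]
  have hY2 : A.vert (A.v (A.e (A.v (A.f z)))) = A.vert (A.v (A.e (A.f z))) := by rw [← t2, A.vert_e]
  have la' : A.line (A.e (A.f z)) = A.line (A.e z) := A.double_line hz
  have lb' : A.line (A.e (A.v (A.f z))) = A.line (A.e (A.v z)) := by
    rw [A.comm]; exact A.double_line hw
  have hY : A.vert (A.v (A.e (A.f z))) = A.vert (A.v (A.e z)) := by
    refine A.unique lab (A.vert_mem _) (A.vert_mem _) ?_ ?_ ?_ ?_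
    · rw [← la', ← A.line_v (A.e (A.f z))]; exact A.line_mem _
    · rw [← hY2, ← lb', ← A.line_v (A.e (A.v (A.f z)))]; exact A.line_mem _
    · rw [← A.line_v (A.e z)]; exact A.line_mem _
    · rw [← hY1, ← A.line_v (A.e (A.v z))]; exact A.line_mem _
  -- the flags of the first pseudoline
  have hrot := A.double_rot hz
  have hfo : A.f (A.opp (A.e z)) = A.e (A.f z) := by
    rw [← A.opp_f, ← hrot, A.opp_opp]
  have ho : A.opp (A.e z) = A.f (A.e (A.f z)) := by rw [← hfo, A.ff]
  have all : ∀ y, A.line y = A.line (A.e z) →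
      (A.vert y = A.vert z ∨ A.vert y = A.vert (A.v (A.e z))) := by
    refine A.closed_set (fun y => A.vert y = A.vert z ∨ A.vert y = A.vert (A.v (A.e z))) (A.e z)
      (Or.inl (A.vert_e z)) ?_ ?_ ?_
    · intro y hl hy
      rcases hy with hy | hy
      · right
        have hy' : A.vert y = A.vert (A.e z) := by rw [hy, A.vert_e]
        rcases A.four hy' hl with rfl | rfl | rfl | rfl
        · rfl
        · rw [A.comm, A.vert_f]
        · rw [ho, A.comm, A.vert_f]; exact hY
        · rw [hfo]; exact hY
      · left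
        have hl' : A.line y = A.line (A.v (A.e z)) := by rw [hl, A.line_v]
        have hα := A.four hY (by rw [A.line_v, A.line_v]; exact la' : A.line (A.v (A.e (A.f z))) = A.line (A.v (A.e z)))
        have hopp : A.vert (A.v (A.opp (A.v (A.e z)))) = A.vert z := by
          rcases hα with h | h | h | h
          · exfalso
            have h3 := A.e.injective (A.v.injective h)
            exact A.f_ne z h3
          · exfalso
            rw [← A.comm] at h
            have h3 := A.v.injective h
            -- `e f z = f e z`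
            have h4 : A.opp z = z := by
              unfold opp
              rw [hz, pow_two]
              simp only [Equiv.Perm.mul_apply]
              rw [h3, A.ff, A.ee]
            have h5 : minimalPeriod (A.e * A.f) z ≤ 2 := by
              apply IsPeriodicPt.minimalPeriod_le (by norm_num)
              change (⇑(A.e * A.f))^[2] z = z
              rw [← pow_eq_iterate]
              unfold opp at h4
              rwa [hz] at h4
            rw [A.period, hz] at h5
            omega
          · rw [← h, A.vv, A.vert_e, A.vert_f]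
          · have h3 : A.opp (A.v (A.e z)) = A.f (A.v (A.e (A.f z))) := by rw [h, A.ff]
            rw [h3, A.comm, A.vv, A.vert_f, A.vert_e, A.vert_f]
        rcases A.four hy hl' with rfl | rfl | rfl | rfl
        · rw [A.vv, A.vert_e]
        · rw [A.comm, A.vv, A.vert_f, A.vert_e]
        · exact hopp
        · rw [A.comm, A.vert_f]; exact hopp
    · intro y _ hy
      rw [A.vert_f]; exact hy
    · intro y _ hy
      rw [A.vert_opp]; exact hy
  -- the other pseudolines are concurrent
  have hu : (A.vert z).image A.line ⊆ {A.line z, A.line (A.e z)} := by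
    rw [A.image_line, hz]
    intro i hi
    rw [mem_image] at hi
    obtain ⟨j, hj, rfl⟩ := hi
    rw [mem_range] at hj
    have hj' : j = 0 ∨ j = 1 := by omega
    rcases hj' with rfl | rfl
    · simp
    · rw [pow_one, Equiv.Perm.mul_apply, la']
      simp
  have hsub : univ.erase (A.line z) ⊆ (A.vert (A.v (A.e z))).image A.line := by
    intro i hi
    rw [mem_erase] at hi
    rcases eq_or_ne i (A.line (A.e z)) with rfl | hia
    · rw [← A.line_v (A.e z)]; exact A.line_mem _
    · obtain ⟨Q, ⟨hQ, h3, h4⟩, -⟩ := A.meet i (A.line (A.e z)) hia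
      obtain ⟨x, rfl, -⟩ := A.mem_points hQ
      obtain ⟨y, hy, hyl⟩ := mem_image.1 h4
      have h6 : A.vert y = A.vert x := A.vert_eq_iff.2 hy
      rcases all y hyl with h5 | h5
      · exfalso
        rw [← h6, h5] at h3
        have := hu h3
        simp only [mem_insert, mem_singleton] at this
        rcases this with h7 | h7
        · exact hi.1 h7
        · exact hia h7
      · rw [← h5, h6]; exact h3
  have hcard := card_le_card hsub
  rw [card_erase_of_mem (mem_univ _), card_univ, Fintype.card_fin] at hcard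
  have h3 := hk _ (A.vert_mem (A.v (A.e z)))
  have h4 := A.two_le_mul (A.vert_mem (A.v (A.e z)))
  unfold mul at h3 h4
  omega

end Arrangement

end Pool.Agent.H875.PL
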