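import Mathlib

/-!
# The numerical part: linear combinations of the inequalities
-/

set_option autoImplicit false

namespace Pool.Agent.H875.PL

open Finset

/-- The relations between the multiplicities `r P` of the points of an arrangement of `k` pseudolines; `p` is a point of
the largest multiplicity. -/
structure Rel {ι : Type} [DecidableEq ι] (S : Finset ι) (r : ι → ℤ) (k : ℤ) (p : ι) : Prop where
  two_le : ∀ P ∈ S, 2 ≤ r P
  mem : p ∈ S
  max : ∀ P ∈ S, r P ≤ r p
  bound : r p + 2 ≤ k
  pairs : ∑ P ∈ S, r P * (r P - 1) = k * (k - 1)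
  melchior : 3 ≤ ∑ P ∈ S, (3 - r P)
  short : 10 ≤ ∑ P ∈ S, (if r P = 2 then 2 else 10 - 3 * r P)
  off : ∑ P ∈ S.erase p, (r P - 1) * (r P - 2) ≤ (k - r p) * (k - r p - 1)

variable {ι : Type} [DecidableEq ι] {S : Finset ι} {r : ι → ℤ} {k : ℤ} {p : ι}

theorem Rel.cert (H : Rel S r k p) (h : ι → ℤ) (X a b m : ℤ) (hb : 0 ≤ b) (hm : 0 ≤ m)
    (hp : ∀ P ∈ S, a * (r P * (r P - 1)) + b * (if r P = 2 then 2 else 10 - 3 * r P) + m * (3 - r P) ≤ X * h P) :
    a * (k * (k - 1)) + 10 * b + 3 * m ≤ X * ∑ P ∈ S, h P := by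
  have h1 := sum_le_sum hp
  rw [sum_add_distrib, sum_add_distrib, ← mul_sum, ← mul_sum, ← mul_sum, ← mul_sum, H.pairs] at h1
  have h2 := mul_le_mul_of_nonneg_left H.melchior hm
  have h3 := mul_le_mul_of_nonneg_left H.short hb
  linarith

theorem Rel.certII (H : Rel S r k p) (h : ι → ℤ) (a d : ℤ) (hd : 0 ≤ d)
    (hp : ∀ P ∈ S, a * (r P * (r P - 1)) - d * ((r P - 1) * (r P - 2)) ≤ 2 * h P) :
    2 * h p + a * (k * (k - 1) - r p * (r p - 1)) - d * ((k - r p) * (k - r p - 1)) ≤ 2 * ∑ P ∈ S, h P := by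
  have h1 := sum_le_sum (fun P (hP : P ∈ S.erase p) => hp P (mem_of_mem_erase hP))
  rw [sum_sub_distrib, ← mul_sum, ← mul_sum, ← mul_sum] at h1
  have h2 := add_sum_erase S (fun P => r P * (r P - 1)) H.mem
  have h3 := add_sum_erase S h H.mem
  have h4 := mul_le_mul_of_nonneg_left H.off hd
  rw [H.pairs] at h2
  rw [← h3]
  have h5 : ∑ P ∈ S.erase p, r P * (r P - 1) = k * (k - 1) - r p * (r p - 1) := by linarith
  rw [h5] at h1
  linarith

/-- If all points are double points. -/
theorem Rel.double (H : Rel S r k p) (hR : r p = 2) (h : ι → ℤ) (a : ℤ) (ha : 0 < a)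
    (hp : ∀ P ∈ S, r P = 2 → h P = a) : 0 < ∑ P ∈ S, h P - a * k := by
  have h2 : ∀ P ∈ S, r P = 2 := fun P hP => le_antisymm (hR ▸ H.max P hP) (H.two_le P hP)
  have h3 : ∑ P ∈ S, h P = S.card * a := by
    rw [sum_congr rfl (fun P hP => hp P hP (h2 P hP)), sum_const, nsmul_eq_mul]
  have h4 : (S.card : ℤ) * 2 = k * (k - 1) := by
    rw [← H.pairs, sum_congr rfl (fun P hP => by rw [h2 P hP] : ∀ P ∈ S, r P * (r P - 1) = 2 * (2 - 1)), sum_const,
      nsmul_eq_mul]
    ring
  have h5 := H.bound
  rw [hR] at h5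
  rw [h3]
  have h6 : 0 < (S.card : ℤ) - k := by nlinarith
  have h7 := mul_pos ha h6
  linarith

/-- The case `n = 3`. -/
theorem Rel.three (H : Rel S r k p) : 0 < ∑ P ∈ S, (if r P = 2 then 1 else 4 - r P) - k := by
  have h2 := H.two_le p H.mem
  have hb := H.bound
  rcases eq_or_lt_of_le h2 with h2 | h2
  · have := H.double h2.symm (fun P => if r P = 2 then 1 else 4 - r P) 1 one_pos (fun P _ h => by simp [h])
    linarith
  set R := r p with hR
  rcases le_or_gt (k + 3) (3 * R) with hc | hc
  · have h := H.certII (fun P => if r P = 2 then 1 else 4 - r P) 1 2 (by norm_num) (by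
      intro P hP
      have h3 := H.two_le P hP
      split_ifs with h4
      · rw [h4]; norm_num
      · have h5 : 3 ≤ r P := by omega
        rcases eq_or_lt_of_le h5 with h6 | h6
        · rw [← h6]; norm_num
        · have : 4 ≤ r P := h6
          nlinarith [mul_nonneg (sub_nonneg.2 h5) (sub_nonneg.2 this)])
    simp only [← hR] at h
    rw [if_neg (by omega : ¬ R = 2)] at h
    nlinarith [mul_nonneg (sub_nonneg.2 hc) (sub_nonneg.2 hb)]
  · have hW : 0 < R ^ 2 + 2 * R - 10 := by nlinarith
    have h := H.cert (fun P => if r P = 2 then 1 else 4 - r P) (2 * (R ^ 2 + 2 * R - 10)) (R - 2) (R ^ 2 + R - 8) 0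
      (by nlinarith) le_rfl (by
      intro P hP
      have h3 := H.two_le P hP
      have hm := H.max P hP
      rw [← hR] at hm
      split_ifs with h4
      · rw [h4]; nlinarith
      · have h5 : 3 ≤ r P := by omega
        have h6 : 0 ≤ (R - r P) * ((R - 2) * r P + 6 - 2 * R) :=
          mul_nonneg (by linarith) (by nlinarith)
        nlinarith)
    have hk : 3 * R - 2 ≤ k := by omega
    have key : 0 < (R - 2) * (k * (k - 1)) + 10 * (R ^ 2 + R - 8) - 2 * (R ^ 2 + 2 * R - 10) * k := by
      obtain ⟨j, hj⟩ : ∃ j, k = 3 * R - 2 + j := ⟨k - (3 * R - 2), by ring⟩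
      have hj0 : 0 ≤ j := by linarith
      obtain ⟨i, hi⟩ : ∃ i, R = 3 + i := ⟨R - 3, by ring⟩
      have hi0 : 0 ≤ i := by linarith
      have e : (R - 2) * (k * (k - 1)) + 10 * (R ^ 2 + R - 8) - 2 * (R ^ 2 + 2 * R - 10) * k =
          12 + 3 * j + j ^ 2 + i * (3 * i ^ 2 - 4 * i + 9) + 3 * (i * j) + i * j ^ 2 + 4 * (i ^ 2 * j) := by
        rw [hj, hi]; ring
      rw [e]
      have h8 : 0 ≤ i * (3 * i ^ 2 - 4 * i + 9) := mul_nonneg hi0 (by nlinarith [sq_nonneg (3 * i - 2)])
      positivity
    by_contra hcon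
    rw [not_lt] at hcon
    have h7 := mul_nonneg (le_of_lt hW) (sub_nonneg.2 hcon)
    nlinarith

/-- The case `n = 4`. -/
theorem Rel.four (H : Rel S r k p) : 0 < ∑ P ∈ S, (if r P = 2 then 9 else 25 - 6 * r P) - 9 * k := by
  have h2 := H.two_le p H.mem
  have hb := H.bound
  rcases eq_or_lt_of_le h2 with h2 | h2
  · exact H.double h2.symm (fun P => if r P = 2 then 9 else 25 - 6 * r P) 9 (by norm_num) (fun P _ h => by simp [h])
  set R := r p with hR
  rcases le_or_gt (11 * k + 26) (29 * R) with hc | hc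
  · have h := H.certII (fun P => if r P = 2 then 9 else 25 - 6 * r P) 9 20 (by norm_num) (by
      intro P hP
      have h3 := H.two_le P hP
      split_ifs with h4
      · rw [h4]; norm_num
      · have h5 : 3 ≤ r P := by omega
        nlinarith [mul_nonneg (sub_nonneg.2 h5) (by linarith : 0 ≤ 11 * r P - 30)])
    simp only [← hR] at h
    rw [if_neg (by omega : ¬ R = 2)] at h
    have h9 : 0 ≤ (3 * (k - R) - 5) * (3 * (29 * R - 11 * k) - 76) :=
      mul_nonneg (by linarith) (by linarith)
    nlinarith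
  · rcases le_or_gt R 10 with h10 | h10
    · have h := H.cert (fun P => if r P = 2 then 9 else 25 - 6 * r P) (R + 10) 10 (7 * R + 10) (50 - 5 * R)
        (by linarith) (by linarith) (by
        intro P hP
        have h3 := H.two_le P hP
        have hm := H.max P hP
        rw [← hR] at hm
        split_ifs with h4
        · rw [h4]; nlinarith
        · have h5 : 3 ≤ r P := by omega
          nlinarith [mul_nonneg (sub_nonneg.2 h5) (sub_nonneg.2 hm)])
      have key : 0 < 10 * (k * (k - 1)) + 10 * (7 * R + 10) + 3 * (50 - 5 * R) - 9 * k * (R + 10) := by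
        rcases le_or_gt 7 k with h7 | h7
        · have h8 : 0 ≤ (9 * k - 55) * (11 * k + 25 - 29 * R) := mul_nonneg (by linarith) (by omega)
          nlinarith [sq_nonneg (191 * k - 1260)]
        · have hk6 : k = 5 ∨ k = 6 := by omega
          rcases hk6 with rfl | rfl
          · omega
          · have : R = 3 := by omega
            rw [this]; norm_num
      by_contra hcon
      rw [not_lt] at hcon
      have h7 : 0 ≤ (R + 10) * (9 * k - ∑ P ∈ S, (if r P = 2 then 9 else 25 - 6 * r P)) :=
        mul_nonneg (by linarith) (by linarith)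
      nlinarith
    · have hW : 0 < R ^ 2 + 2 * R - 10 := by nlinarith
      have h := H.cert (fun P => if r P = 2 then 9 else 25 - 6 * r P) (2 * (R ^ 2 + 2 * R - 10)) (15 * R - 40)
        (9 * R ^ 2 + 3 * R - 50) 0 (by nlinarith) le_rfl (by
        intro P hP
        have h3 := H.two_le P hP
        have hm := H.max P hP
        rw [← hR] at hm
        split_ifs with h4
        · rw [h4]; nlinarith
        · have h5 : 3 ≤ r P := by omega
          have h6 : 0 ≤ (R - r P) * ((15 * R - 40) * r P + 70 - 40 * R) :=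
            mul_nonneg (by linarith) (by nlinarith)
          nlinarith)
      have key : 0 < (15 * R - 40) * (k * (k - 1)) + 10 * (9 * R ^ 2 + 3 * R - 50) -
          18 * (R ^ 2 + 2 * R - 10) * k := by
        obtain ⟨j, hj⟩ : ∃ j, 5 * k = 12 * R + j := ⟨5 * k - 12 * R, by ring⟩
        have hj0 : 0 ≤ j := by omega
        obtain ⟨i, hi⟩ : ∃ i, R = 11 + i := ⟨R - 11, by ring⟩
        have hi0 : 0 ≤ i := by omega
        have e : 25 * ((15 * R - 40) * (k * (k - 1)) + 10 * (9 * R ^ 2 + 3 * R - 50) -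
            18 * (R ^ 2 + 2 * R - 10) * k) = (15 * R - 40) * ((5 * k) * ((5 * k) - 5)) +
            250 * (9 * R ^ 2 + 3 * R - 50) - 90 * (R ^ 2 + 2 * R - 10) * (5 * k) := by ring
        have e2 : 0 < 25 * ((15 * R - 40) * (k * (k - 1)) + 10 * (9 * R ^ 2 + 3 * R - 50) -
            18 * (R ^ 2 + 2 * R - 10) * k) := by
          rw [e, hj, hi]
          ring_nf
          positivity
        linarith
      by_contra hcon
      rw [not_lt] at hcon
      have h7 : 0 ≤ (R ^ 2 + 2 * R - 10) * (9 * k - ∑ P ∈ S, (if r P = 2 then 9 else 25 - 6 * r P)) :=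
        mul_nonneg hW.le (by linarith)
      nlinarith

/-- The case `n = 5`. -/
theorem Rel.five (H : Rel S r k p) : 0 ≤ ∑ P ∈ S, (if r P = 2 then 4 else 9 - 2 * r P) - 4 * k ∧
    ((k ≠ 6 ∨ r p ≠ 3) → 0 < ∑ P ∈ S, (if r P = 2 then 4 else 9 - 2 * r P) - 4 * k) := by
  have h2 := H.two_le p H.mem
  have hb := H.bound
  rcases eq_or_lt_of_le h2 with h2 | h2
  · have := H.double h2.symm (fun P => if r P = 2 then 4 else 9 - 2 * r P) 4 (by norm_num) (fun P _ h => by simp [h])
    exact ⟨by linarith, fun _ => by linarith⟩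
  set R := r p with hR
  rcases le_or_gt R 15 with hc | hc
  · have h := H.cert (fun P => if r P = 2 then 4 else 9 - 2 * r P) (R + 10) 5 (3 * R) (30 - 2 * R)
      (by linarith) (by linarith) (by
      intro P hP
      have h3 := H.two_le P hP
      have hm := H.max P hP
      rw [← hR] at hm
      split_ifs with h4
      · rw [h4]; nlinarith
      · have h5 : 3 ≤ r P := by omega
        nlinarith [mul_nonneg (sub_nonneg.2 h5) (sub_nonneg.2 hm)])
    have h' : (k - 6) * (5 * k - 15 - 4 * R) ≤
        (R + 10) * (∑ P ∈ S, (if r P = 2 then 4 else 9 - 2 * r P) - 4 * k) := by nlinarith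
    have hII := H.certII (fun P => if r P = 2 then 4 else 9 - 2 * r P) 4 9 (by norm_num) (by
      intro P hP
      have h3 := H.two_le P hP
      split_ifs with h4
      · rw [h4]; norm_num
      · have h5 : 3 ≤ r P := by omega
        nlinarith [mul_nonneg (sub_nonneg.2 h5) (by linarith : 0 ≤ 5 * r P - 12)])
    simp only [← hR] at hII
    rw [if_neg (by omega : ¬ R = 2)] at hII
    have hpos : (k ≠ 6 ∨ R ≠ 3) → 0 < ∑ P ∈ S, (if r P = 2 then 4 else 9 - 2 * r P) - 4 * k := by
      intro hne
      rcases le_or_gt 8 k with h8 | h8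
      · by_contra hcon
        rw [not_lt] at hcon
        have h9 : 0 < (k - 6) * (5 * k - 15 - 4 * R) := mul_pos (by linarith) (by linarith)
        have h10 := mul_nonneg (by linarith : 0 ≤ R + 10) (sub_nonneg.2 hcon)
        nlinarith
      · have hk : k = 5 ∨ k = 6 ∨ k = 7 := by omega
        rcases hk with rfl | rfl | rfl
        · have : R = 3 := by omega
          rw [this] at hII; linarith
        · have : R = 4 := by omega
          rw [this] at hII; linarith
        · have : R = 3 ∨ R = 4 ∨ R = 5 := by omega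
          rcases this with h | h | h <;> rw [h] at hII h' <;> linarith
    refine ⟨?_, hpos⟩
    by_cases hne : k ≠ 6 ∨ R ≠ 3
    · exact (hpos hne).le
    · rw [not_or, not_not, not_not] at hne
      rw [hne.1, hne.2] at h'
      rw [hne.1]
      linarith
  · have hW : 0 < R ^ 2 + 2 * R - 10 := by nlinarith
    have h := H.cert (fun P => if r P = 2 then 4 else 9 - 2 * r P) (2 * (R ^ 2 + 2 * R - 10)) (8 * R - 22)
      (4 * R ^ 2 - 18) 0 (by nlinarith) le_rfl (by
      intro P hP
      have h3 := H.two_le P hP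
      have hm := H.max P hP
      rw [← hR] at hm
      split_ifs with h4
      · rw [h4]; nlinarith
      · have h5 : 3 ≤ r P := by omega
        have h6 : 0 ≤ (R - r P) * ((8 * R - 22) * r P + 36 - 22 * R) :=
          mul_nonneg (by linarith) (by nlinarith)
        nlinarith)
    have key : 0 < (8 * R - 22) * (k * (k - 1)) + 10 * (4 * R ^ 2 - 18) - 8 * (R ^ 2 + 2 * R - 10) * k := by
      obtain ⟨j, hj⟩ : ∃ j, k = R + 2 + j := ⟨k - (R + 2), by ring⟩
      have hj0 : 0 ≤ j := by linarith
      obtain ⟨i, hi⟩ : ∃ i, R = 16 + i := ⟨R - 16, by ring⟩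
      have hi0 : 0 ≤ i := by omega
      rw [hj, hi]
      ring_nf
      positivity
    have hpos : 0 < ∑ P ∈ S, (if r P = 2 then 4 else 9 - 2 * r P) - 4 * k := by
      by_contra hcon
      rw [not_lt] at hcon
      have h7 := mul_nonneg hW.le (sub_nonneg.2 hcon)
      nlinarith
    exact ⟨hpos.le, fun _ => hpos⟩

end Pool.Agent.H875.PL
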