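import Pool.Agent.H875.PL.Ineq
import Pool.Agent.H875.PL.Num

/-!
# The Bogomolov-Miyaoka-Yau inequality for coverings branched along pseudolines
-/

set_option autoImplicit false
set_option linter.unusedSectionVars false

namespace Pool.Agent.H875.PL

open Finset Function

variable {k : ℕ} {Φ : Type} [Fintype Φ] [DecidableEq Φ] (A : Arrangement k Φ)

namespace Arrangement

theorem points_nonempty : A.points.Nonempty := by
  rw [nonempty_iff_ne_empty]
  intro h
  have h1 := A.card_flags'
  rw [h, sum_empty] at h1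
  have h2 := A.euler
  have h3 : (cells A.v A.e).card = 0 := by
    rw [card_eq_zero]
    unfold cells
    rw [image_eq_empty, univ_eq_empty_iff, ← Fintype.card_eq_zero_iff]
    exact h1
  have h4 : (cells A.e A.f).card = 0 := by
    change A.points.card = 0
    rw [h, card_empty]
  omega

theorem exists_rel (hk : ∀ P ∈ A.points, A.mul P + 2 ≤ k) :
    ∃ p, Rel A.points (fun P => (A.mul P : ℤ)) (k : ℤ) p := by
  obtain ⟨p, hp, hmax⟩ := exists_max_image A.points A.mul A.points_nonempty
  refine ⟨p, ⟨?_, hp, ?_, ?_, A.pairs, A.melchior hk, ?_, A.off hp⟩⟩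
  · intro P hP
    exact_mod_cast A.two_le_mul hP
  · intro P hP
    exact_mod_cast hmax P hP
  · exact_mod_cast hk p hp
  · have h := A.short hk
    refine h.trans (le_of_eq (sum_congr rfl fun P _ => ?_))
    norm_cast

/-- The weight of a point in `3 c_2 - c_1 ^ 2`. -/
def wt (n r : ℤ) : ℤ := if r = 2 then (n - 1) ^ 2 else (n + 1) ^ 2 - 2 * (n - 1) * r

theorem formula (n : ℕ) : 3 * A.c2 n - A.c1sq n =
    ∑ P ∈ A.points, wt n (A.mul P) - ((n : ℤ) - 1) ^ 2 * k := by
  have hp := A.pairs
  have key : ∑ P ∈ A.points, (3 * (n : ℤ) ^ 2 * ((A.mul P : ℤ) - 1) -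
      3 * n * (if A.mul P = 2 then (2 : ℤ) else 2 * A.mul P - 2) +
      3 * (if A.mul P = 2 then (1 : ℤ) else A.mul P) +
      (if A.mul P = 2 then (0 : ℤ) else (((n : ℤ) - 1) * (A.mul P - 1) - n) ^ 2)) =
      ∑ P ∈ A.points, (wt n (A.mul P) + ((n : ℤ) - 1) ^ 2 * ((A.mul P : ℤ) * (A.mul P - 1))) := by
    refine sum_congr rfl fun P _ => ?_
    unfold wt
    by_cases h : A.mul P = 2
    · have h' : (A.mul P : ℤ) = 2 := by exact_mod_cast h
      rw [if_pos h, if_pos h, if_pos h, if_pos h', h']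
      ring
    · have h' : ¬ (A.mul P : ℤ) = 2 := by exact_mod_cast h
      rw [if_neg h, if_neg h, if_neg h, if_neg h']
      ring
  rw [sum_add_distrib, sum_add_distrib, sum_sub_distrib, sum_add_distrib, ← mul_sum, ← mul_sum, ← mul_sum,
    ← mul_sum, hp] at key
  unfold c2 c1sq
  linear_combination key

theorem wt_sum_pos (hk : ∀ P ∈ A.points, A.mul P + 2 ≤ k) {n : ℕ} (hn : 3 ≤ n)
    (hne : ¬ (n = 5 ∧ k = 6 ∧ A.t 3 = 4)) :
    0 < ∑ P ∈ A.points, wt n (A.mul P) - ((n : ℤ) - 1) ^ 2 * k := by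
  obtain ⟨p, H⟩ := A.exists_rel hk
  have hcases : n = 3 ∨ n = 4 ∨ n = 5 ∨ 6 ≤ n := by omega
  rcases hcases with rfl | rfl | rfl | hn6
  · have h := H.three
    have e : ∑ P ∈ A.points, wt ((3 : ℕ) : ℤ) (A.mul P) =
        4 * ∑ P ∈ A.points, (if (A.mul P : ℤ) = 2 then (1 : ℤ) else 4 - A.mul P) := by
      rw [mul_sum]
      refine sum_congr rfl fun P _ => ?_
      unfold wt
      split_ifs <;> push_cast <;> ring
    rw [e]
    push_cast
    linarith
  · have h := H.four
    have e : ∑ P ∈ A.points, wt ((4 : ℕ) : ℤ) (A.mul P) =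
        ∑ P ∈ A.points, (if (A.mul P : ℤ) = 2 then (9 : ℤ) else 25 - 6 * A.mul P) := by
      refine sum_congr rfl fun P _ => ?_
      unfold wt
      split_ifs <;> push_cast <;> ring
    rw [e]
    push_cast
    linarith
  · have h := H.five
    have e : ∑ P ∈ A.points, wt ((5 : ℕ) : ℤ) (A.mul P) =
        4 * ∑ P ∈ A.points, (if (A.mul P : ℤ) = 2 then (4 : ℤ) else 9 - 2 * A.mul P) := by
      rw [mul_sum]
      refine sum_congr rfl fun P _ => ?_
      unfold wt
      split_ifs <;> push_cast <;> ring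
    have hpos : 0 < ∑ P ∈ A.points, (if (A.mul P : ℤ) = 2 then (4 : ℤ) else 9 - 2 * A.mul P) - 4 * (k : ℤ) := by
      by_cases h36 : (k : ℤ) = 6 ∧ ((A.mul p : ℕ) : ℤ) = 3
      · obtain ⟨h6, hp3⟩ := h36
        have hk6 : k = 6 := by exact_mod_cast h6
        by_contra hcon
        have hzero : ∑ P ∈ A.points, (if (A.mul P : ℤ) = 2 then (4 : ℤ) else 9 - 2 * A.mul P) - 4 * (k : ℤ) = 0 :=
          le_antisymm (not_lt.1 hcon) h.1
        apply hne
        refine ⟨rfl, hk6, ?_⟩
        -- count the points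
        have hr : ∀ P ∈ A.points, A.mul P = 2 ∨ A.mul P = 3 := by
          intro P hP
          have h1 := H.two_le P hP
          have h2 := H.max P hP
          rw [hp3] at h2
          have h1' : 2 ≤ A.mul P := by exact_mod_cast h1
          have h2' : A.mul P ≤ 3 := by exact_mod_cast h2
          omega
        have hpairs := A.pairs
        have e1 : ∑ P ∈ A.points, ((A.mul P : ℤ) * (A.mul P - 1)) = 2 * A.points.card + 4 * A.t 3 := by
          have : ∑ P ∈ A.points, ((A.mul P : ℤ) * (A.mul P - 1)) =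
              ∑ P ∈ A.points, (2 + if A.mul P = 3 then (4 : ℤ) else 0) := by
            refine sum_congr rfl fun P hP => ?_
            rcases hr P hP with h | h <;> rw [h] <;> norm_num
          rw [this, sum_add_distrib, sum_const, ← sum_filter, sum_const, nsmul_eq_mul, nsmul_eq_mul]
          unfold t
          ring
        have e2 : ∑ P ∈ A.points, (if (A.mul P : ℤ) = 2 then (4 : ℤ) else 9 - 2 * A.mul P) =
            4 * A.points.card - A.t 3 := by
          have : ∑ P ∈ A.points, (if (A.mul P : ℤ) = 2 then (4 : ℤ) else 9 - 2 * A.mul P) =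
              ∑ P ∈ A.points, (4 - if A.mul P = 3 then (1 : ℤ) else 0) := by
            refine sum_congr rfl fun P hP => ?_
            rcases hr P hP with h | h <;> rw [h] <;> norm_num
          rw [this, sum_sub_distrib, sum_const, ← sum_filter, sum_const, nsmul_eq_mul, nsmul_eq_mul]
          unfold t
          ring
        rw [e1, h6] at hpairs
        rw [e2, h6] at hzero
        have : (A.t 3 : ℤ) = 4 := by linarith
        exact_mod_cast this
      · apply h.2
        rw [not_and_or] at h36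
        exact h36
    rw [e]
    push_cast
    linarith
  · have hn6' : (6 : ℤ) ≤ n := by exact_mod_cast hn6
    have h2 := H.two_le p H.mem
    rcases eq_or_lt_of_le h2 with h2 | h2
    · have := H.double h2.symm (fun P => wt n (A.mul P)) (((n : ℤ) - 1) ^ 2) (by nlinarith)
        (fun P _ h => by unfold wt; rw [if_pos h])
      exact this
    · have h := H.five.1
      have e : 4 * ∑ P ∈ A.points, wt n (A.mul P) =
          ((n : ℤ) - 1) ^ 2 * ∑ P ∈ A.points, (if (A.mul P : ℤ) = 2 then (4 : ℤ) else 9 - 2 * A.mul P) +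
          ∑ P ∈ A.points, (if (A.mul P : ℤ) = 2 then (0 : ℤ) else
            ((n : ℤ) - 5) * (2 * (n - 1) * A.mul P - (5 * n - 1))) := by
        rw [mul_sum, mul_sum, ← sum_add_distrib]
        refine sum_congr rfl fun P _ => ?_
        unfold wt
        split_ifs <;> ring
      have hterm : ∀ P ∈ A.points, 0 ≤ (if (A.mul P : ℤ) = 2 then (0 : ℤ) else
            ((n : ℤ) - 5) * (2 * (n - 1) * A.mul P - (5 * n - 1))) := by
        intro P hP
        have h1 := H.two_le P hP
        split_ifs with h5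
        · exact le_rfl
        · have h3 : (3 : ℤ) ≤ A.mul P := by omega
          exact mul_nonneg (by linarith) (by nlinarith)
      have hsum := single_le_sum hterm H.mem
      have hp : 0 < (if (A.mul p : ℤ) = 2 then (0 : ℤ) else
            ((n : ℤ) - 5) * (2 * (n - 1) * A.mul p - (5 * n - 1))) := by
        rw [if_neg (by omega)]
        have h3 : (3 : ℤ) ≤ A.mul p := by omega
        exact mul_pos (by linarith) (by nlinarith)
      have h7 := mul_nonneg (sq_nonneg ((n : ℤ) - 1)) h
      nlinarith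

theorem wt_sum_zero (hk : ∀ P ∈ A.points, A.mul P + 2 ≤ k) (h6 : k = 6) (h4 : A.t 3 = 4) :
    ∑ P ∈ A.points, wt ((5 : ℕ) : ℤ) (A.mul P) - (((5 : ℕ) : ℤ) - 1) ^ 2 * k = 0 := by
  have hpairs := A.pairs
  have h6' : (k : ℤ) = 6 := by exact_mod_cast h6
  have hr : ∀ P ∈ A.points, A.mul P = 2 ∨ A.mul P = 3 := by
    intro P hP
    by_contra hcon
    rw [not_or] at hcon
    have h1 := A.two_le_mul hP
    have h2 := hk P hP
    have h3 : A.mul P = 4 := by omega
    have h5 : ∑ Q ∈ insert P (A.points.filter fun Q => A.mul Q = 3), ((A.mul Q : ℤ) * (A.mul Q - 1)) ≤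
        ∑ Q ∈ A.points, ((A.mul Q : ℤ) * (A.mul Q - 1)) := by
      apply sum_le_sum_of_subset_of_nonneg
      · intro Q hQ
        rw [mem_insert, mem_filter] at hQ
        rcases hQ with rfl | hQ
        · exact hP
        · exact hQ.1
      · intro Q hQ _
        have h7 := A.two_le_mul hQ
        have h8 : (2 : ℤ) ≤ A.mul Q := by exact_mod_cast h7
        nlinarith
    rw [sum_insert (by rw [mem_filter]; omega), hpairs, h3,
      sum_congr rfl (fun Q hQ => by rw [(mem_filter.1 hQ).2] :
        ∀ Q ∈ A.points.filter (fun Q => A.mul Q = 3), ((A.mul Q : ℤ) * (A.mul Q - 1)) = ((3 : ℕ) : ℤ) * ((3 : ℕ) - 1)),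
      sum_const, nsmul_eq_mul, h6'] at h5
    change _ + (A.t 3 : ℤ) * _ ≤ _ at h5
    rw [h4] at h5
    norm_num at h5
  have e1 : ∑ P ∈ A.points, ((A.mul P : ℤ) * (A.mul P - 1)) = 2 * A.points.card + 4 * A.t 3 := by
    have : ∑ P ∈ A.points, ((A.mul P : ℤ) * (A.mul P - 1)) =
        ∑ P ∈ A.points, (2 + if A.mul P = 3 then (4 : ℤ) else 0) := by
      refine sum_congr rfl fun P hP => ?_
      rcases hr P hP with h | h <;> rw [h] <;> norm_num
    rw [this, sum_add_distrib, sum_const, ← sum_filter, sum_const, nsmul_eq_mul, nsmul_eq_mul]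
    unfold t
    ring
  have e2 : ∑ P ∈ A.points, wt ((5 : ℕ) : ℤ) (A.mul P) = 16 * A.points.card - 4 * A.t 3 := by
    have : ∑ P ∈ A.points, wt ((5 : ℕ) : ℤ) (A.mul P) =
        ∑ P ∈ A.points, (16 - if A.mul P = 3 then (4 : ℤ) else 0) := by
      refine sum_congr rfl fun P hP => ?_
      unfold wt
      rcases hr P hP with h | h <;> rw [h] <;> norm_num
    rw [this, sum_sub_distrib, sum_const, ← sum_filter, sum_const, nsmul_eq_mul, nsmul_eq_mul]
    unfold t
    ring
  rw [e1, h6', h4] at hpairs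
  rw [e2, h6', h4]
  push_cast at hpairs ⊢
  linarith

theorem bmy (hk : ∀ P ∈ A.points, A.mul P + 2 ≤ k) {n : ℕ} (hn : 3 ≤ n) {e σ : ℤ} (h : A.Covering n e σ) :
    3 * σ ≤ e ∧ (3 * σ = e ↔ n = 5 ∧ k = 6 ∧ A.t 3 = 4) := by
  obtain ⟨N, hN, he, hs⟩ := h
  have hN' : (0 : ℤ) < N := by exact_mod_cast hN
  have hf := A.formula n
  have hes : e - 3 * σ = N * (∑ P ∈ A.points, wt n (A.mul P) - ((n : ℤ) - 1) ^ 2 * k) := by
    rw [← hf]
    linear_combination 3 * he - hs
  by_cases hc : n = 5 ∧ k = 6 ∧ A.t 3 = 4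
  · have h0 : e - 3 * σ = 0 := by
      rw [hes]
      obtain ⟨rfl, h6, h4⟩ := hc
      rw [A.wt_sum_zero hk h6 h4, mul_zero]
    exact ⟨by linarith, fun _ => hc, fun _ => by linarith⟩
  · have h0 : 0 < e - 3 * σ := by
      rw [hes]
      exact mul_pos hN' (A.wt_sum_pos hk hn hc)
    exact ⟨by linarith, fun h => by linarith, fun h => absurd h hc⟩

end Arrangement

end Pool.Agent.H875.PL
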