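import Mathlib

/-!
# The numerical part for arbitrary orders over the exceptional curves
-/

set_option autoImplicit false

namespace Pool.Agent.H875.PL

open Finset

/-- The relations between the multiplicities `r P` of the points of an arrangement of `k` pseudolines in which no point
is on more than `k - 3` pseudolines; `p` is a point of the largest multiplicity. -/
structure Rel3 {ι : Type} [DecidableEq ι] (S : Finset ι) (r : ι → ℤ) (k : ℤ) (p : ι) : Prop where
  two_le : ∀ P ∈ S, 2 ≤ r P
  mem : p ∈ S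
  max : ∀ P ∈ S, r P ≤ r p
  bound : r p + 3 ≤ k
  pairs : ∑ P ∈ S, r P * (r P - 1) = k * (k - 1)
  melchior : 3 ≤ ∑ P ∈ S, (3 - r P)
  star : 7 ≤ ∑ P ∈ S, (if r P = 2 then 1 else 7 - 2 * r P)
  off : ∑ P ∈ S.erase p, (r P - 1) * (r P - 2) ≤ (k - r p) * (k - r p - 1)
  union : ∀ V ⊆ S, 2 * ∑ P ∈ V, r P ≤ 2 * k + V.card * (V.card - 1)

/-- Sixteen times the least weight of a point of multiplicity `r`. -/
def wW (r : ℤ) : ℤ := if r = 2 then 16 else if r = 3 then 12 else if r = 4 then 0 else 81 - 20 * r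

theorem wW_two : wW 2 = 16 := rfl
theorem wW_three : wW 3 = 12 := rfl
theorem wW_four : wW 4 = 0 := rfl
theorem wW_five {r : ℤ} (h : 5 ≤ r) : wW r = 81 - 20 * r := by
  unfold wW
  rw [if_neg (by omega), if_neg (by omega), if_neg (by omega)]

variable {ι : Type} [DecidableEq ι] {S : Finset ι} {r : ι → ℤ} {k : ℤ} {p : ι}

/-- The weight of a point in the inequality `star`. -/
def sS (r : ℤ) : ℤ := if r = 2 then 1 else 7 - 2 * r

theorem Rel3.cert (H : Rel3 S r k p) (h : ι → ℤ) (a b m d : ℤ) (hb : 0 ≤ b) (hm : 0 ≤ m) (hd : 0 ≤ d)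
    (hp : ∀ P ∈ S, a * (r P * (r P - 1)) + b * sS (r P) + m * (3 - r P) - d * ((r P - 1) * (r P - 2)) ≤ h P) :
    h p + a * (k * (k - 1) - r p * (r p - 1)) + b * (7 - sS (r p)) + m * r p -
      d * ((k - r p) * (k - r p - 1)) ≤ ∑ P ∈ S, h P := by
  have h1 := sum_le_sum (fun P (hP : P ∈ S.erase p) => hp P (mem_of_mem_erase hP))
  rw [sum_sub_distrib, sum_add_distrib, sum_add_distrib, ← mul_sum, ← mul_sum, ← mul_sum, ← mul_sum] at h1
  have e1 := add_sum_erase S (fun P => r P * (r P - 1)) H.mem
  have e2 := add_sum_erase S (fun P => sS (r P)) H.mem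
  have e3 := add_sum_erase S (fun P => 3 - r P) H.mem
  have e4 := add_sum_erase S h H.mem
  have h2 := mul_le_mul_of_nonneg_left H.melchior hm
  have h3 := mul_le_mul_of_nonneg_left H.star hb
  have h4 := mul_le_mul_of_nonneg_left H.off hd
  have e5 : ∑ P ∈ S, (if r P = 2 then (1 : ℤ) else 7 - 2 * r P) = ∑ P ∈ S, sS (r P) := rfl
  rw [e5] at h3
  rw [H.pairs] at e1
  have f1 : ∑ P ∈ S.erase p, r P * (r P - 1) = k * (k - 1) - r p * (r p - 1) := by linarith
  rw [f1] at h1
  rw [← e4]
  rw [← e2, mul_add] at h3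
  rw [← e3, mul_add] at h2
  nlinarith

theorem sS_two : sS 2 = 1 := rfl
theorem sS_ge {r : ℤ} (h : 3 ≤ r) : sS r = 7 - 2 * r := by
  unfold sS
  rw [if_neg (by omega)]

/-- A certificate which is good for all multiplicities. -/
theorem good_of {X a b m d : ℤ} (h2 : 2 * a + b + m ≤ X * 16) (h3 : 6 * a + b - 2 * d ≤ X * 12)
    (h4 : 12 * a - b - m - 6 * d ≤ 0)
    (h5 : ∀ r : ℤ, 5 ≤ r → a * (r * (r - 1)) + b * (7 - 2 * r) + m * (3 - r) - d * ((r - 1) * (r - 2)) ≤
      X * (81 - 20 * r)) {r : ℤ} (hr : 2 ≤ r) :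
    a * (r * (r - 1)) + b * sS r + m * (3 - r) - d * ((r - 1) * (r - 2)) ≤ X * wW r := by
  have hc : r = 2 ∨ r = 3 ∨ r = 4 ∨ 5 ≤ r := by omega
  rcases hc with rfl | rfl | rfl | hc
  · rw [sS_two, wW_two]; linarith
  · rw [sS_ge (by norm_num), wW_three]; linarith
  · rw [sS_ge (by norm_num), wW_four]; linarith
  · rw [sS_ge (by linarith), wW_five hc]; exact h5 r hc

/-- The margin of a certificate. -/
def margin (X a b m d R j : ℤ) : ℤ :=
  X * (81 - 20 * R) + a * (j * (2 * R + j - 1)) + 2 * b * R + m * R - d * (j * (j - 1)) - 16 * X * (R + j)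

theorem Rel3.margin_pos (H : Rel3 S r k p) (hR : 5 ≤ r p) {X a b m d : ℤ} (hX : 0 < X) (hb : 0 ≤ b) (hm : 0 ≤ m)
    (hd : 0 ≤ d)
    (hp : ∀ r : ℤ, 2 ≤ r → a * (r * (r - 1)) + b * sS r + m * (3 - r) - d * ((r - 1) * (r - 2)) ≤ X * wW r)
    (hpos : 0 < margin X a b m d (r p) (k - r p)) : 0 < ∑ P ∈ S, wW (r P) - 16 * k := by
  have h := H.cert (fun P => X * wW (r P)) a b m d hb hm hd (fun P hP => hp _ (H.two_le P hP))
  rw [← mul_sum, wW_five hR, sS_ge (by linarith)] at h
  unfold margin at hpos
  by_contra hcon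
  rw [not_lt] at hcon
  have h1 := mul_nonneg hX.le (sub_nonneg.2 hcon)
  nlinarith

/-- The certificates in the case that the largest multiplicity is at least five. -/
theorem Rel3.c0 (H : Rel3 S r k p) (hR : 5 ≤ r p) (hpos : 0 < margin 1 8 0 0 18 (r p) (k - r p)) :
    0 < ∑ P ∈ S, wW (r P) - 16 * k :=
  H.margin_pos hR (by norm_num) (by norm_num) (by norm_num) (by norm_num)
    (fun r hr => good_of (by norm_num) (by norm_num) (by norm_num) (fun r hr => by nlinarith) hr) hpos

theorem Rel3.c1 (H : Rel3 S r k p) (hR : 5 ≤ r p) (hpos : 0 < margin 8 37 4 50 65 (r p) (k - r p)) :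
    0 < ∑ P ∈ S, wW (r P) - 16 * k :=
  H.margin_pos hR (by norm_num) (by norm_num) (by norm_num) (by norm_num)
    (fun r hr => good_of (by norm_num) (by norm_num) (by norm_num)
      (fun r hr => by nlinarith [mul_nonneg (sub_nonneg.2 hr) (by linarith : 0 ≤ 7 * r - 30)]) hr) hpos

theorem Rel3.c2 (H : Rel3 S r k p) (hR : 5 ≤ r p) (hpos : 0 < margin 8 17 40 54 23 (r p) (k - r p)) :
    0 < ∑ P ∈ S, wW (r P) - 16 * k :=
  H.margin_pos hR (by norm_num) (by norm_num) (by norm_num) (by norm_num)
    (fun r hr => good_of (by norm_num) (by norm_num) (by norm_num)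
      (fun r hr => by
        have h : 0 ≤ (r - 6) * (r - 7) := by
          rcases le_or_gt r 6 with h | h
          · exact mul_nonneg_of_nonpos_of_nonpos (by linarith) (by linarith)
          · exact mul_nonneg (by linarith) (by linarith [Int.add_one_le_iff.2 h])
        nlinarith) hr) hpos

theorem Rel3.c3 (H : Rel3 S r k p) (hR : 5 ≤ r p) (hpos : 0 < margin 8 23 28 54 35 (r p) (k - r p)) :
    0 < ∑ P ∈ S, wW (r P) - 16 * k :=
  H.margin_pos hR (by norm_num) (by norm_num) (by norm_num) (by norm_num)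
    (fun r hr => good_of (by norm_num) (by norm_num) (by norm_num)
      (fun r hr => by
        have h : 0 ≤ (r - 5) * (r - 6) := by
          rcases le_or_gt r 5 with h | h
          · exact mul_nonneg_of_nonpos_of_nonpos (by linarith) (by linarith)
          · exact mul_nonneg (by linarith) (by linarith [Int.add_one_le_iff.2 h])
        nlinarith) hr) hpos

/-- The certificate for large `k`. -/
theorem Rel3.large (H : Rel3 S r k p) (hR : 5 ≤ r p)
    (hpos : 0 < (8 * r p - 15) * k - (16 * r p ^ 2 + 72 * r p - 405)) :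
    0 < ∑ P ∈ S, wW (r P) - 16 * k := by
  set R := r p with hRdef
  have hX : 0 < (R + 10) * (R - 3) := mul_pos (by linarith) (by linarith)
  have h := H.cert (fun P => ((R + 10) * (R - 3)) * wW (r P)) (8 * R - 15) (12 * R ^ 2 + 36 * R - 270)
    (4 * (R ^ 2 + 15 * R - 45)) 0 (by nlinarith) (by nlinarith) le_rfl (by
      intro P hP
      have h1 := H.two_le P hP
      have h2 := H.max P hP
      rw [← hRdef] at h2
      have hc : r P = 2 ∨ r P = 3 ∨ r P = 4 ∨ 5 ≤ r P := by omega
      rcases hc with hc | hc | hc | hc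
      · rw [hc, sS_two, wW_two]; nlinarith
      · rw [hc, sS_ge (by norm_num), wW_three]; nlinarith
      · rw [hc, sS_ge (by norm_num), wW_four]; nlinarith
      · rw [sS_ge (by linarith), wW_five hc]
        have h3 : 0 ≤ (R - r P) * ((8 * R - 15) * r P - 15 * R + 135) :=
          mul_nonneg (by linarith) (by nlinarith)
        nlinarith)
  rw [← mul_sum, ← hRdef, wW_five hR, sS_ge (by linarith)] at h
  have hb := H.bound
  rw [← hRdef] at hb
  have h2 : 0 < (k - 6) * ((8 * R - 15) * k - (16 * R ^ 2 + 72 * R - 405)) := mul_pos (by linarith) hpos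
  by_contra hcon
  rw [not_lt] at hcon
  have h1 := mul_nonneg hX.le (sub_nonneg.2 hcon)
  nlinarith

/-- The finite check. -/
def chk (R j : ℕ) : Bool :=
  (decide (R < 5) || decide (j < 3) || decide (0 < margin 1 8 0 0 18 R j) || decide (0 < margin 8 37 4 50 65 R j) ||
    decide (0 < margin 8 17 40 54 23 R j) || decide (0 < margin 8 23 28 54 35 R j) ||
    decide (0 < (8 * (R : ℤ) - 15) * (R + j) - (16 * (R : ℤ) ^ 2 + 72 * R - 405)) ||
    (decide (R = 5) && (decide (j = 8) || decide (j = 9))) ||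
    (decide (R = 6) && (decide (j = 10) || decide (j = 11) || decide (j = 12))))

set_option maxRecDepth 100000 in
theorem chk_all : ∀ R < 31, ∀ j < 60, chk R j = true := by decide

theorem Rel3.few (H : Rel3 S r k p) {N : ℕ} {R c : ℤ} (hN : N ≤ (S.filter fun P => r P = R).card)
    (hc : c = 2 * k + N * (N - 1)) (hlt : c < 2 * (N * R)) : False := by
  obtain ⟨V, hV, hVc⟩ := exists_subset_card_eq hN
  have h := H.union V (hV.trans (filter_subset _ _))
  rw [sum_congr rfl (fun P hP => (mem_filter.1 (hV hP)).2), sum_const, hVc, nsmul_eq_mul] at h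
  linarith

omit [DecidableEq ι] in
theorem sum_ite_card (c : ℤ) (R : ℤ) : ∑ P ∈ S, (c * if r P = R then (1 : ℤ) else 0) =
    c * (S.filter fun P => r P = R).card := by
  rw [← mul_sum, ← sum_filter, sum_const, nsmul_eq_mul, mul_one]

theorem Rel3.special5 (H : Rel3 S r k p) (hR : r p = 5) (hk : k = 13 ∨ k = 14) :
    0 < ∑ P ∈ S, wW (r P) - 16 * k := by
  have h := H.cert (fun P => 7 * wW (r P) + 65 * if r P = 5 then (1 : ℤ) else 0) 8 36 60 0 (by norm_num) (by norm_num)
    le_rfl (by
      intro P hP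
      have h1 := H.two_le P hP
      have h2 := H.max P hP
      rw [hR] at h2
      have hc : r P = 2 ∨ r P = 3 ∨ r P = 4 ∨ r P = 5 := by omega
      rcases hc with hc | hc | hc | hc <;> rw [hc] <;> decide)
  rw [sum_add_distrib, ← mul_sum, sum_ite_card, hR, if_pos rfl, wW_five le_rfl, sS_ge (by norm_num)] at h
  rcases hk with rfl | rfl
  · have hN : (S.filter fun P => r P = 5).card ≤ 3 := by
      by_contra hcon
      exact H.few (N := 4) (R := 5) (c := 38) (by omega) (by norm_num) (by norm_num)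
    have hN' : (((S.filter fun P => r P = 5).card : ℕ) : ℤ) ≤ 3 := by exact_mod_cast hN
    linarith
  · have hN : (S.filter fun P => r P = 5).card ≤ 4 := by
      by_contra hcon
      exact H.few (N := 5) (R := 5) (c := 48) (by omega) (by norm_num) (by norm_num)
    have hN' : (((S.filter fun P => r P = 5).card : ℕ) : ℤ) ≤ 4 := by exact_mod_cast hN
    linarith

theorem Rel3.special6 (H : Rel3 S r k p) (hR : r p = 6) (hk : k = 16 ∨ k = 17 ∨ k = 18) :
    0 < ∑ P ∈ S, wW (r P) - 16 * k := by
  have h := H.cert (fun P => 6 * wW (r P) + 42 * if r P = 6 then (1 : ℤ) else 0) 5 42 44 0 (by norm_num) (by norm_num)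
    le_rfl (by
      intro P hP
      have h1 := H.two_le P hP
      have h2 := H.max P hP
      rw [hR] at h2
      have hc : r P = 2 ∨ r P = 3 ∨ r P = 4 ∨ r P = 5 ∨ r P = 6 := by omega
      rcases hc with hc | hc | hc | hc | hc <;> rw [hc] <;> decide)
  rw [sum_add_distrib, ← mul_sum, sum_ite_card, hR, if_pos rfl, wW_five (by norm_num), sS_ge (by norm_num)] at h
  rcases hk with rfl | rfl | rfl
  · rcases le_or_gt (S.filter fun P => r P = 6).card 2 with hN | hN
    · have hN' : (((S.filter fun P => r P = 6).card : ℕ) : ℤ) ≤ 2 := by exact_mod_cast hN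
      linarith
    · have hN' : 3 ≤ (((S.filter fun P => r P = 6).card : ℕ) : ℤ) := by exact_mod_cast hN
      have h' := H.cert (fun P => 8 * wW (r P) + (-48) * if r P = 6 then (1 : ℤ) else 0) 37 4 50 65 (by norm_num)
        (by norm_num) (by norm_num) (by
          intro P hP
          have h1 := H.two_le P hP
          have h2 := H.max P hP
          rw [hR] at h2
          have hc : r P = 2 ∨ r P = 3 ∨ r P = 4 ∨ r P = 5 ∨ r P = 6 := by omega
          rcases hc with hc | hc | hc | hc | hc <;> rw [hc] <;> decide)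
      rw [sum_add_distrib, ← mul_sum, sum_ite_card, hR, if_pos rfl, wW_five (by norm_num), sS_ge (by norm_num)] at h'
      linarith
  · have hN : (S.filter fun P => r P = 6).card ≤ 3 := by
      by_contra hcon
      exact H.few (N := 4) (R := 6) (c := 46) (by omega) (by norm_num) (by norm_num)
    have hN' : (((S.filter fun P => r P = 6).card : ℕ) : ℤ) ≤ 3 := by exact_mod_cast hN
    linarith
  · have hN : (S.filter fun P => r P = 6).card ≤ 4 := by
      by_contra hcon
      exact H.few (N := 5) (R := 6) (c := 56) (by omega) (by norm_num) (by norm_num)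
    have hN' : (((S.filter fun P => r P = 6).card : ℕ) : ℤ) ≤ 4 := by exact_mod_cast hN
    linarith

theorem Rel3.five_le (H : Rel3 S r k p) (hR : 5 ≤ r p) : 0 < ∑ P ∈ S, wW (r P) - 16 * k := by
  have hb := H.bound
  obtain ⟨R, hRd⟩ : ∃ R, R = r p := ⟨_, rfl⟩
  obtain ⟨j, hj⟩ : ∃ j, j = k - r p := ⟨_, rfl⟩
  have hk : k = R + j := by rw [hj, hRd]; ring
  have hj3 : 3 ≤ j := by rw [hj]; linarith
  rw [← hRd] at hR
  rcases le_or_gt 31 R with h31 | h31
  · rcases le_or_gt (5 * j) (7 * R) with h57 | h57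
    · apply H.c0 (by rw [← hRd]; exact hR)
      rw [← hj, ← hRd]
      unfold margin
      nlinarith [mul_nonneg (sub_nonneg.2 hj3) (sub_nonneg.2 h57)]
    · apply H.large (by rw [← hRd]; exact hR)
      rw [← hRd, hk]
      nlinarith
  · rcases le_or_gt 60 j with h60 | h60
    · apply H.large (by rw [← hRd]; exact hR)
      rw [← hRd, hk]
      nlinarith
    · obtain ⟨R', rfl⟩ := Int.eq_ofNat_of_zero_le (by linarith : 0 ≤ R)
      obtain ⟨j', rfl⟩ := Int.eq_ofNat_of_zero_le (by linarith : 0 ≤ j)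
      have hc := chk_all R' (by omega) j' (by omega)
      unfold chk at hc
      simp only [Bool.or_eq_true, decide_eq_true_eq, Bool.and_eq_true] at hc
      rcases hc with (((((((((h | h) | h) | h) | h) | h) | h) | ⟨h, h'⟩) | ⟨h, h'⟩))
      · omega
      · omega
      · apply H.c0 (by rw [← hRd]; exact hR)
        rw [← hj, ← hRd]; exact h
      · apply H.c1 (by rw [← hRd]; exact hR)
        rw [← hj, ← hRd]; exact h
      · apply H.c2 (by rw [← hRd]; exact hR)
        rw [← hj, ← hRd]; exact h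
      · apply H.c3 (by rw [← hRd]; exact hR)
        rw [← hj, ← hRd]; exact h
      · apply H.large (by rw [← hRd]; exact hR)
        rw [← hRd, hk]; exact h
      · exact H.special5 (by omega) (by omega)
      · exact H.special6 (by omega) (by omega)

/-- **The numerical inequality** `16 t_2 + 12 t_3 + ∑ (81 - 20 r) t_r ≥ 16 k`, where the sum is over `r ≥ 5`. -/
theorem Rel3.main (H : Rel3 S r k p) : 0 ≤ ∑ P ∈ S, wW (r P) - 16 * k ∧
    (∑ P ∈ S, wW (r P) - 16 * k = 0 → (k = 6 ∧ r p = 3) ∨ (k = 9 ∧ r p = 4)) := by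
  have h2 := H.two_le p H.mem
  have hb := H.bound
  have hc : r p = 2 ∨ r p = 3 ∨ r p = 4 ∨ 5 ≤ r p := by omega
  rcases hc with hc | hc | hc | hc
  · have h := H.cert (fun P => wW (r P)) 8 0 0 0 le_rfl le_rfl le_rfl (by
      intro P hP
      have h1 := H.two_le P hP
      have h2 := H.max P hP
      rw [hc] at h2
      have : r P = 2 := by omega
      rw [this]; decide)
    rw [hc, wW_two] at h
    have : 0 < ∑ P ∈ S, wW (r P) - 16 * k := by nlinarith
    exact ⟨this.le, fun h => absurd h this.ne'⟩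
  · have h := H.cert (fun P => wW (r P)) 2 0 12 0 le_rfl (by norm_num) le_rfl (by
      intro P hP
      have h1 := H.two_le P hP
      have h2 := H.max P hP
      rw [hc] at h2
      have : r P = 2 ∨ r P = 3 := by omega
      rcases this with h | h <;> rw [h] <;> decide)
    rw [hc, wW_three] at h
    have h' : 2 * ((k - 3) * (k - 6)) ≤ ∑ P ∈ S, wW (r P) - 16 * k := by nlinarith
    have h6 : 6 ≤ k := by linarith
    refine ⟨le_trans (by nlinarith) h', fun h0 => Or.inl ⟨?_, hc⟩⟩
    by_contra hne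
    have : 7 ≤ k := by omega
    nlinarith
  · rcases le_or_gt k 8 with h8 | h8
    · have h := H.cert (fun P => wW (r P)) 8 0 0 18 le_rfl le_rfl (by norm_num) (by
        intro P hP
        have h1 := H.two_le P hP
        have h2 := H.max P hP
        rw [hc] at h2
        have : r P = 2 ∨ r P = 3 ∨ r P = 4 := by omega
        rcases this with h | h | h <;> rw [h] <;> decide)
      rw [hc, wW_four] at h
      have hk : k = 7 ∨ k = 8 := by omega
      have : 0 < ∑ P ∈ S, wW (r P) - 16 * k := by
        rcases hk with rfl | rfl <;> linarith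
      exact ⟨this.le, fun h => absurd h this.ne'⟩
    · have h := H.cert (fun P => 7 * wW (r P)) 8 36 60 0 (by norm_num) (by norm_num) le_rfl (by
        intro P hP
        have h1 := H.two_le P hP
        have h2 := H.max P hP
        rw [hc] at h2
        have : r P = 2 ∨ r P = 3 ∨ r P = 4 := by omega
        rcases this with h | h | h <;> rw [h] <;> decide)
      rw [← mul_sum, hc, wW_four, sS_ge (by norm_num)] at h
      have h' : 8 * ((k - 6) * (k - 9)) ≤ 7 * (∑ P ∈ S, wW (r P) - 16 * k) := by nlinarith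
      have h9 : 0 ≤ (k - 6) * (k - 9) := mul_nonneg (by linarith) (by linarith [Int.add_one_le_iff.2 h8])
      refine ⟨by linarith, fun h0 => Or.inr ⟨?_, hc⟩⟩
      rw [h0] at h'
      by_contra hne
      have : 10 ≤ k := by omega
      nlinarith
  · have := H.five_le hc
    exact ⟨this.le, fun h => absurd h this.ne'⟩

end Pool.Agent.H875.PL
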