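import Pool.Agent.H875.PL.Ineq

/-!
# A sharper inequality for arrangements of pseudolines in which no point is on all but two of the pseudolines
-/

set_option autoImplicit false
set_option linter.unusedSectionVars false

namespace Pool.Agent.H875.PL

open Finset Function

variable {k : ℕ} {Φ : Type} [Fintype Φ] [DecidableEq Φ] (A : Arrangement k Φ)

namespace Arrangement

theorem quad_eq {z : Φ} (h : A.len z = 4) : A.v (A.e (A.v (A.e z))) = A.e (A.v (A.e (A.v z))) := by
  have hper : ((A.v * A.e) ^ A.len z) z = z := by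
    rw [pow_eq_iterate]
    exact iterate_minimalPeriod
  rw [h] at hper
  have e4 : ((A.v * A.e) ^ 4) z = A.v (A.e (A.v (A.e (A.v (A.e (A.v (A.e z))))))) := rfl
  rw [e4] at hper
  have h1 : A.e (A.v (A.e (A.v (A.e (A.v (A.e z)))))) = A.v z := by
    rw [← A.vv (A.e (A.v (A.e (A.v (A.e (A.v (A.e z))))))), hper]
  have h2 : A.v (A.e (A.v (A.e (A.v (A.e z))))) = A.e (A.v z) := by
    rw [← A.ee (A.v (A.e (A.v (A.e (A.v (A.e z)))))), h1]
  have h3 : A.e (A.v (A.e (A.v (A.e z)))) = A.v (A.e (A.v z)) := by
    rw [← A.vv (A.e (A.v (A.e (A.v (A.e z))))), h2]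
  rw [← A.ee (A.v (A.e (A.v (A.e z)))), h3]

theorem double_lines {z : Φ} (hz : A.mult z = 2) : (A.vert z).image A.line ⊆ {A.line z, A.line (A.e z)} := by
  rw [A.image_line, hz]
  intro i hi
  rw [mem_image] at hi
  obtain ⟨j, hj, rfl⟩ := hi
  rw [mem_range] at hj
  have hj' : j = 0 ∨ j = 1 := by omega
  rcases hj' with rfl | rfl
  · simp
  · rw [pow_one, Equiv.Perm.mul_apply, A.double_line hz]
    simp

/-- In a quadrilateral all whose vertices are double points there are no triangles at two opposite sides. -/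
theorem not_opposite (hk : ∀ P ∈ A.points, A.mul P + 3 ≤ k) {z : Φ} (h4 : A.len z = 4)
    (hA : A.mult z = 2) (hB : A.mult (A.v z) = 2) (hA' : A.mult (A.v (A.e z)) = 2)
    (hB' : A.mult (A.v (A.e (A.v z))) = 2)
    (h1 : A.len (A.f (A.e z)) = 3) (h3 : A.len (A.f (A.e (A.v z))) = 3) : False := by
  have hk2 : ∀ P ∈ A.points, A.mul P + 2 ≤ k := fun P hP => by have := hk P hP; omega
  have hAe : A.mult (A.e z) = 2 := by rw [A.mult_e]; exact hA
  have hBe : A.mult (A.e (A.v z)) = 2 := by rw [A.mult_e]; exact hB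
  have hne : A.vert (A.v z) ≠ A.vert z := A.edge_ne hk2 z
  -- the pseudoline of `z` beyond its double points
  obtain ⟨u1, hu1⟩ : ∃ u, u = A.e (A.f (A.e z)) := ⟨_, rfl⟩
  obtain ⟨u3, hu3⟩ : ∃ u, u = A.e (A.f (A.e (A.v z))) := ⟨_, rfl⟩
  have o1 : A.opp z = A.f u1 := by
    have h := A.double_rot hAe
    rw [A.ee, ← hu1] at h
    -- `opp u1 = f z`
    have h' : A.opp (A.f z) = u1 := by rw [← h, A.opp_opp]
    rw [A.opp_f] at h'
    rw [← h', A.ff]
  have o3 : A.opp (A.v z) = A.f u3 := by
    have h := A.double_rot hBe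
    rw [A.ee, ← hu3] at h
    have h' : A.opp (A.f (A.v z)) = u3 := by rw [← h, A.opp_opp]
    rw [A.opp_f] at h'
    rw [← h', A.ff]
  have l1 : A.line u1 = A.line z := by
    have h := A.double_line hAe
    rwa [A.ee, ← hu1] at h
  have l3 : A.line u3 = A.line z := by
    have h := A.double_line hBe
    rw [A.ee, ← hu3, A.line_v] at h
    exact h
  have w1 : A.vert u1 = A.vert z := by rw [hu1, A.vert_e, A.vert_f, A.vert_e]
  have w3 : A.vert u3 = A.vert (A.v z) := by rw [hu3, A.vert_e, A.vert_f, A.vert_e]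
  -- the fourth pseudoline
  have t1 := A.tri_eq h1
  have t3 := A.tri_eq h3
  rw [← hu1] at t1
  rw [← hu3] at t3
  have m1 : A.line (A.e (A.v (A.e z))) ∈ (A.vert (A.v u1)).image A.line := by
    rw [← A.vert_e (A.v u1), t1, A.comm, ← A.double_line hA', ← A.line_v (A.e (A.f (A.v (A.e z))))]
    exact A.line_mem _
  have m3 : A.line (A.e (A.v (A.e z))) ∈ (A.vert (A.v u3)).image A.line := by
    have hq : A.line (A.e (A.v (A.e z))) = A.line (A.e (A.v (A.e (A.v z)))) := by
      rw [← A.quad_eq h4, A.line_v]
    rw [hq, ← A.vert_e (A.v u3), t3, A.comm, ← A.double_line hB', ← A.line_v (A.e (A.f (A.v (A.e (A.v z)))))]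
    exact A.line_mem _
  have m1' : A.line z ∈ (A.vert (A.v u1)).image A.line := by
    rw [← l1, ← A.line_v u1]; exact A.line_mem _
  have m3' : A.line z ∈ (A.vert (A.v u3)).image A.line := by
    rw [← l3, ← A.line_v u3]; exact A.line_mem _
  have l24 : A.line z ≠ A.line (A.e (A.v (A.e z))) := by
    intro h
    refine A.edge_ne hk2 (A.e z) (A.unique (A.line_e_ne z) (A.vert_mem _) (A.vert_mem _) ?_ ?_ ?_ ?_)
    · rw [← A.line_v (A.e z)]; exact A.line_mem _
    · rw [h, ← A.vert_e (A.v (A.e z))]; exact A.line_mem _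
    · exact A.line_mem _
    · rw [A.vert_e]; exact A.line_mem _
  have hX : A.vert (A.v u3) = A.vert (A.v u1) :=
    A.unique l24 (A.vert_mem _) (A.vert_mem _) m3' m3 m1' m1
  have hlast : A.vert (A.v (A.opp (A.v u1))) = A.vert (A.v z) := by
    rcases A.four hX (by rw [A.line_v, A.line_v, l1, l3]) with h | h | h | h
    · exfalso
      have h5 := A.v.injective h
      rw [← w1, ← h5, w3] at hne
      exact hne rfl
    · exfalso
      rw [← A.comm] at h
      have h5 := A.v.injective h
      rw [← w1, ← A.vert_f u1, ← h5, w3] at hne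
      exact hne rfl
    · rw [← h, A.vv, w3]
    · have h5 : A.opp (A.v u1) = A.f (A.v u3) := by rw [h, A.ff]
      rw [h5, A.comm, A.vv, A.vert_f, w3]
  have all : ∀ y, A.line y = A.line z →
      (A.vert y = A.vert z ∨ A.vert y = A.vert (A.v z) ∨ A.vert y = A.vert (A.v u1)) := by
    refine A.closed_set (fun y => A.vert y = A.vert z ∨ A.vert y = A.vert (A.v z) ∨ A.vert y = A.vert (A.v u1)) z
      (Or.inl rfl) ?_ ?_ ?_
    · intro y hl hy
      rcases hy with hy | hy | hy
      · rcases A.four hy hl with rfl | rfl | rfl | rfl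
        · right; left; rfl
        · right; left; rw [A.comm, A.vert_f]
        · right; right; rw [o1, A.comm, A.vert_f]
        · right; right; rw [o1, A.ff]
      · have hl' : A.line y = A.line (A.v z) := by rw [hl, A.line_v]
        rcases A.four hy hl' with rfl | rfl | rfl | rfl
        · left; rw [A.vv]
        · left; rw [A.comm, A.vv, A.vert_f]
        · right; right; rw [o3, A.comm, A.vert_f, hX]
        · right; right; rw [o3, A.ff, hX]
      · have hl' : A.line y = A.line (A.v u1) := by rw [hl, A.line_v, l1]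
        rcases A.four hy hl' with rfl | rfl | rfl | rfl
        · left; rw [A.vv, w1]
        · left; rw [A.comm, A.vv, A.vert_f, w1]
        · right; left; exact hlast
        · right; left; rw [A.comm, A.vert_f]; exact hlast
    · intro y _ hy
      rw [A.vert_f]; exact hy
    · intro y _ hy
      rw [A.vert_opp]; exact hy
  have hsub : (univ.erase (A.line (A.e z))).erase (A.line (A.e (A.v z))) ⊆ (A.vert (A.v u1)).image A.line := by
    intro i hi
    rw [mem_erase, mem_erase] at hi
    rcases eq_or_ne i (A.line z) with rfl | hiz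
    · exact m1'
    · obtain ⟨Q, ⟨hQ, h5, h6⟩, -⟩ := A.meet i (A.line z) hiz
      obtain ⟨x, rfl, -⟩ := A.mem_points hQ
      obtain ⟨y, hy, hyl⟩ := mem_image.1 h6
      have h7 : A.vert y = A.vert x := A.vert_eq_iff.2 hy
      rcases all y hyl with h8 | h8 | h8
      · exfalso
        rw [← h7, h8] at h5
        have := A.double_lines hA h5
        simp only [mem_insert, mem_singleton] at this
        rcases this with h9 | h9
        · exact hiz h9
        · exact hi.2.1 h9
      · exfalso
        rw [← h7, h8] at h5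
        have := A.double_lines hB h5
        simp only [mem_insert, mem_singleton, A.line_v] at this
        rcases this with h9 | h9
        · exact hiz h9
        · exact hi.1 h9
      · rw [← h8, h7]; exact h5
  have hcard := card_le_card hsub
  have hc1 : k ≤ ((univ.erase (A.line (A.e z))).erase (A.line (A.e (A.v z)))).card + 2 := by
    have e1 := card_erase_add_one (mem_univ (A.line (A.e z)))
    rw [card_univ, Fintype.card_fin] at e1
    have e2 := pred_card_le_card_erase (s := univ.erase (A.line (A.e z))) (a := A.line (A.e (A.v z)))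
    omega
  have h5 := hk _ (A.vert_mem (A.v u1))
  unfold mul at h5
  omega

/-- The local inequality. -/
theorem local_star (hk : ∀ P ∈ A.points, A.mul P + 3 ≤ k) :
    4 * (univ.filter fun x => A.mult x = 2).card ≤ 2 * (univ.filter fun x => A.mult x ≠ 2).card +
      7 * (univ.filter fun x => A.len x = 4).card + 10 * (univ.filter fun x => A.len x ≠ 3 ∧ A.len x ≠ 4).card := by
  have hk2 : ∀ P ∈ A.points, A.mul P + 2 ≤ k := fun P hP => by have := hk P hP; omega
  set P1 := univ.filter fun x => A.mult x = 2 ∧ A.mult (A.v x) = 2 with hP1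
  set Q1 := univ.filter fun x => A.mult x = 2 ∧ A.mult (A.v x) ≠ 2 with hQ1
  set Q2 := univ.filter fun x => A.mult x ≠ 2 ∧ A.mult (A.v x) = 2 with hQ2
  set Q3 := univ.filter fun x => A.mult x ≠ 2 ∧ A.mult (A.v (A.e x)) = 2 with hQ3
  set P3 := univ.filter fun x => (A.mult x = 2 ∧ A.mult (A.v x) = 2) ∧ A.len x = 3 with hP3
  set P4 := univ.filter fun x => (A.mult x = 2 ∧ A.mult (A.v x) = 2) ∧ A.len x = 4 with hP4
  set P5 := univ.filter fun x => (A.mult x = 2 ∧ A.mult (A.v x) = 2) ∧ A.len x ≠ 3 ∧ A.len x ≠ 4 with hP5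
  set Z := univ.filter fun x => ((A.mult x = 2 ∧ A.mult (A.v x) = 2) ∧ A.len x = 4) ∧ A.len (A.f x) = 3 with hZ
  set B3 := univ.filter fun x => (A.mult x ≠ 2 ∧ A.mult (A.v x) = 2 ∧ A.mult (A.v (A.e x)) = 2) ∧ A.len x = 3 with hB3
  set B4 := univ.filter fun x => (A.mult x ≠ 2 ∧ A.mult (A.v x) = 2 ∧ A.mult (A.v (A.e x)) = 2) ∧ A.len x = 4 with hB4
  set B5 := univ.filter fun x => (A.mult x ≠ 2 ∧ A.mult (A.v x) = 2 ∧ A.mult (A.v (A.e x)) = 2) ∧
    A.len x ≠ 3 ∧ A.len x ≠ 4 with hB5
  set L4 := univ.filter fun x => A.len x = 4 with hL4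
  set L5 := univ.filter fun x => A.len x ≠ 3 ∧ A.len x ≠ 4 with hL5
  have split3 : ∀ (p : Φ → Prop) [DecidablePred p], (univ.filter p).card =
      (univ.filter fun x => p x ∧ A.len x = 3).card + (univ.filter fun x => p x ∧ A.len x = 4).card +
        (univ.filter fun x => p x ∧ A.len x ≠ 3 ∧ A.len x ≠ 4).card := by
    intro p _
    have h1 := card_filter_add_card_filter_not (s := univ.filter p) (fun x => A.len x = 3)
    have h2 := card_filter_add_card_filter_not (s := univ.filter fun x => p x ∧ A.len x ≠ 3) (fun x => A.len x = 4)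
    rw [filter_filter, filter_filter] at h1 h2
    rw [← h1, ← h2, ← add_assoc]
    congr 1
    · congr 1
      congr 1
      ext x
      simp only [mem_filter, mem_univ, true_and]
      constructor
      · rintro ⟨⟨h, -⟩, h'⟩
        exact ⟨h, h'⟩
      · rintro ⟨h, h'⟩
        exact ⟨⟨h, by omega⟩, h'⟩
    · congr 1
      ext x
      simp only [mem_filter, mem_univ, true_and]
      tauto
  have e1 : (univ.filter fun x => A.mult x = 2).card = P1.card + Q1.card := by
    have := card_filter_add_card_filter_not (s := univ.filter fun x => A.mult x = 2) (fun x => A.mult (A.v x) = 2)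
    rw [filter_filter, filter_filter] at this
    exact this.symm
  have e2 : Q1.card ≤ Q2.card := by
    refine card_le_card_of_injOn A.v ?_ A.v.injective.injOn
    intro x hx
    simp only [hQ1, coe_filter, mem_univ, true_and, Set.mem_ofPred_eq] at hx
    simp only [hQ2, coe_filter, mem_univ, true_and, Set.mem_ofPred_eq]
    rw [A.vv]
    exact ⟨hx.2, hx.1⟩
  have e3 : Q1.card ≤ Q3.card := by
    refine e2.trans (card_le_card_of_injOn A.e ?_ A.e.injective.injOn)
    intro x hx
    simp only [hQ2, coe_filter, mem_univ, true_and, Set.mem_ofPred_eq] at hx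
    simp only [hQ3, coe_filter, mem_univ, true_and, Set.mem_ofPred_eq]
    rw [A.ee, A.mult_e]
    exact ⟨hx.1, hx.2⟩
  have e4 : P1.card = P3.card + P4.card + P5.card := split3 _
  have e5 : (Q2 ∩ Q3).card = B3.card + B4.card + B5.card := by
    rw [← split3 (fun x => A.mult x ≠ 2 ∧ A.mult (A.v x) = 2 ∧ A.mult (A.v (A.e x)) = 2)]
    congr 1
    ext x
    simp only [hQ2, hQ3, mem_filter, mem_inter, mem_univ, true_and]
    tauto
  have e6 : (Q2 ∪ Q3).card ≤ (univ.filter fun x => A.mult x ≠ 2).card := by
    apply card_le_card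
    intro x hx
    simp only [hQ2, hQ3, mem_filter, mem_union, mem_univ, true_and] at hx ⊢
    tauto
  have e7 := card_union_add_card_inter Q2 Q3
  have e8 : B3.card ≤ P3.card := by
    refine card_le_card_of_injOn (fun x => A.e (A.v x)) ?_ (A.e.injective.comp A.v.injective).injOn
    intro x hx
    simp only [hB3, coe_filter, mem_univ, true_and, Set.mem_ofPred_eq] at hx
    simp only [hP3, coe_filter, mem_univ, true_and, Set.mem_ofPred_eq]
    obtain ⟨⟨h1, h2, h3⟩, h4⟩ := hx
    refine ⟨⟨by rw [A.mult_e]; exact h2, ?_⟩, by rw [A.len_e, A.len_v]; exact h4⟩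
    rw [← A.tri_eq h4, A.mult_e]
    exact h3
  have e9 : P3.card ≤ Z.card + P5.card := by
    rw [← card_union_of_disjoint]
    · refine card_le_card_of_injOn A.f ?_ A.f.injective.injOn
      intro x hx
      simp only [hP3, coe_filter, mem_univ, true_and, Set.mem_ofPred_eq] at hx
      obtain ⟨⟨h1, h2⟩, h4⟩ := hx
      have h5 : A.len (A.f x) ≠ 3 := fun h5 => A.not_two_triangles hk2 h1 h2 h4 h5
      have h6 : A.mult (A.f x) = 2 ∧ A.mult (A.v (A.f x)) = 2 :=
        ⟨by rw [A.mult_f]; exact h1, by rw [A.comm, A.mult_f]; exact h2⟩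
      rw [coe_union, Set.mem_union]
      rcases eq_or_ne (A.len (A.f x)) 4 with h7 | h7
      · left
        simp only [hZ, coe_filter, mem_univ, true_and, Set.mem_ofPred_eq]
        exact ⟨⟨h6, h7⟩, by rw [A.ff]; exact h4⟩
      · right
        simp only [hP5, coe_filter, mem_univ, true_and, Set.mem_ofPred_eq]
        exact ⟨h6, h5, h7⟩
    · rw [disjoint_left]
      intro x hx hx'
      simp only [hZ, mem_filter, mem_univ, true_and] at hx
      simp only [hP5, mem_filter, mem_univ, true_and] at hx'
      exact hx'.2.2 hx.1.2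
  have e10 : P4.card + B4.card ≤ L4.card := by
    rw [← card_union_of_disjoint]
    · apply card_le_card
      intro x hx
      simp only [hP4, hB4, hL4, mem_filter, mem_union, mem_univ, true_and] at hx ⊢
      tauto
    · rw [disjoint_left]
      intro x hx hx'
      simp only [hP4, mem_filter, mem_univ, true_and] at hx
      simp only [hB4, mem_filter, mem_univ, true_and] at hx'
      exact hx'.1.1 hx.1.1
  have e11 : P5.card + B5.card ≤ L5.card := by
    rw [← card_union_of_disjoint]
    · apply card_le_card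
      intro x hx
      simp only [hP5, hB5, hL5, mem_filter, mem_union, mem_univ, true_and] at hx ⊢
      tauto
    · rw [disjoint_left]
      intro x hx hx'
      simp only [hP5, mem_filter, mem_univ, true_and] at hx
      simp only [hB5, mem_filter, mem_univ, true_and] at hx'
      exact hx'.1.1 hx.1.1
  have e12 : Z.card + Z.card ≤ L4.card := by
    have hZL : Z ⊆ L4 := by
      intro x hx
      simp only [hZ, hL4, mem_filter, mem_univ, true_and] at hx ⊢
      exact hx.1.2
    have h1 : Z.card ≤ (L4 \ Z).card := by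
      refine card_le_card_of_injOn (fun x => A.v (A.e (A.v (A.e x)))) ?_
        (A.v.injective.comp (A.e.injective.comp (A.v.injective.comp A.e.injective))).injOn
      intro x hx
      simp only [hZ, coe_filter, mem_univ, true_and, Set.mem_ofPred_eq] at hx
      obtain ⟨⟨⟨h1, h2⟩, h4⟩, h3⟩ := hx
      rw [coe_sdiff, Set.mem_diff]
      refine ⟨?_, ?_⟩
      · simp only [hL4, coe_filter, mem_univ, true_and, Set.mem_ofPred_eq]
        rw [A.len_v, A.len_e, A.len_v, A.len_e]
        exact h4
      · intro hx'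
        simp only [hZ, coe_filter, mem_univ, true_and, Set.mem_ofPred_eq] at hx'
        obtain ⟨⟨⟨h5, h6⟩, -⟩, h7⟩ := hx'
        rw [A.vv, A.mult_e] at h6
        rw [← A.comm, A.len_v] at h7
        refine A.not_opposite hk (z := A.e x) (by rw [A.len_e]; exact h4) (by rw [A.mult_e]; exact h1) h6
          (by rw [A.ee]; exact h2) h5 (by rw [A.ee]; exact h3) h7
    have h2 := card_sdiff_add_card_eq_card hZL
    omega
  have e13 : Z.card ≤ P4.card := by
    apply card_le_card
    intro x hx
    simp only [hZ, hP4, mem_filter, mem_univ, true_and] at hx ⊢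
    exact hx.1
  omega

theorem faces_star (hk : ∀ P ∈ A.points, A.mul P + 2 ≤ k) :
    7 * (univ.filter fun x => A.len x = 4).card + 10 * (univ.filter fun x => A.len x ≠ 3 ∧ A.len x ≠ 4).card +
      168 * (cells A.v A.e).card ≤ 28 * Fintype.card Φ := by
  have h3 : ∀ P ∈ cells A.v A.e, ∃ l, 3 ≤ l ∧ P.card = 2 * l := by
    intro P hP
    obtain ⟨x, -, rfl⟩ := mem_image.1 hP
    exact ⟨A.len x, A.three_le_len hk x, A.card_face x⟩
  have h := card_filter_eq_sum A.v A.e (fun P => P.card = 8)
  have h' : (univ.filter fun x => A.len x = 4) = univ.filter fun x => (cell A.v A.e x).card = 8 := by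
    ext x
    have := A.card_face x
    unfold face at this
    simp only [mem_filter, mem_univ, true_and]
    omega
  have g := card_filter_eq_sum A.v A.e (fun P => P.card ≠ 6 ∧ P.card ≠ 8)
  have g' : (univ.filter fun x => A.len x ≠ 3 ∧ A.len x ≠ 4) =
      univ.filter fun x => (cell A.v A.e x).card ≠ 6 ∧ (cell A.v A.e x).card ≠ 8 := by
    ext x
    have := A.card_face x
    unfold face at this
    simp only [mem_filter, mem_univ, true_and]
    omega
  rw [h', h, g', g, card_univ_eq_sum A.v A.e, sum_filter, sum_filter, mul_comm 168, ← smul_eq_mul (cells A.v A.e).card,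
    ← sum_const, mul_sum, mul_sum, ← sum_add_distrib, ← sum_add_distrib, mul_sum]
  refine sum_le_sum fun P hP => ?_
  obtain ⟨l, hl, h⟩ := h3 P hP
  split_ifs <;> omega

/-- **The inequality** `t_2 + t_3 ≥ 7 + ∑ (2 r - 7) t_r`, where the sum is over `r ≥ 4`, if no point is on more than
`k - 3` of the `k` pseudolines. -/
theorem star (hk : ∀ P ∈ A.points, A.mul P + 3 ≤ k) :
    7 ≤ ∑ P ∈ A.points, (if A.mul P = 2 then (1 : ℤ) else 7 - 2 * A.mul P) := by
  have hk2 : ∀ P ∈ A.points, A.mul P + 2 ≤ k := fun P hP => by have := hk P hP; omega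
  have h1 := A.faces_star hk2
  have h2 := A.card_flags
  have h3 := A.card_flags'
  have h4 := A.euler
  have h5 := A.local_star hk
  rw [A.card_double, A.card_not_double] at h5
  rw [← mul_sum] at h3
  set F2 := A.points.filter (fun P => A.mul P = 2) with hF2
  set F3 := A.points.filter (fun P => A.mul P ≠ 2) with hF3
  have e1 : A.points.card = F2.card + F3.card := (card_filter_add_card_filter_not _).symm
  have e2 : ∑ P ∈ A.points, A.mul P = 2 * F2.card + ∑ P ∈ F3, A.mul P := by
    rw [← sum_filter_add_sum_filter_not A.points (fun P => A.mul P = 2)]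
    congr 1
    rw [sum_congr rfl (fun P hP => (mem_filter.1 hP).2), sum_const, smul_eq_mul, mul_comm]
  have e3 : ∑ P ∈ A.points, (if A.mul P = 2 then (1 : ℤ) else 7 - 2 * A.mul P) =
      1 * F2.card + (7 * F3.card - 2 * ((∑ P ∈ F3, A.mul P : ℕ) : ℤ)) := by
    rw [A.sum_split]
    congr 1
    · rw [sum_congr rfl (fun P hP => if_pos (mem_filter.1 hP).2), sum_const, nsmul_eq_mul, mul_comm]
    · rw [sum_congr rfl (fun P hP => if_neg (mem_filter.1 hP).2), sum_sub_distrib, sum_const, nsmul_eq_mul,
        ← mul_sum]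
      push_cast
      ring
  rw [e3]
  rw [← mul_sum, sum_const, smul_eq_mul] at h5
  have e4 : A.points.card = (cells A.e A.f).card := rfl
  omega

end Arrangement

end Pool.Agent.H875.PL
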