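import Pool.Agent.H875.PL.OrbDefs
import Pool.Agent.H875.PL.Star
import Pool.Agent.H875.PL.Num2
import Pool.Agent.H875.PL.Main

/-!
# Galois coverings of the plane branched along pseudolines, with arbitrary orders over the exceptional curves
-/

set_option autoImplicit false
set_option linter.unusedSectionVars false

namespace Pool.Agent.H875.PL

open Finset Function

variable {k : ℕ} {Φ : Type} [Fintype Φ] [DecidableEq Φ] (A : Arrangement k Φ)

/-- The weight of a point in `3 c_2 - c_1 ^ 2`. -/
def cw (a y r : ℚ) : ℚ := 1 - a * (1 - a) * r + (2 - a * r) * y + y ^ 2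

theorem cw_three (a y : ℚ) : 16 * cw a y 3 = a ^ 2 * 12 + 4 * (2 * y - (3 * a - 2)) ^ 2 := by
  unfold cw; ring

theorem cw_four (a y : ℚ) : cw a y 4 = (y - (2 * a - 1)) ^ 2 := by
  unfold cw; ring

theorem cw_five {a y r : ℚ} (ha : 2 / 3 ≤ a) (hy : y ≤ 1 / 2) (hr : 5 ≤ r) :
    a ^ 2 * (81 - 20 * r) ≤ 16 * cw a y r := by
  have har : 10 / 3 ≤ a * r := by nlinarith
  have e : 16 * cw a y r - a ^ 2 * (81 - 20 * r) =
      (3 * a - 2) * (12 * (a * r) - 27 * a - 18) + 4 * ((1 - 2 * y) * (2 * (a * r) - 5 - 2 * y)) := by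
    unfold cw; ring
  have h1 : 0 ≤ (3 * a - 2) * (12 * (a * r) - 27 * a - 18) := by
    apply mul_nonneg (by linarith)
    nlinarith
  have h2 : 0 ≤ (1 - 2 * y) * (2 * (a * r) - 5 - 2 * y) := mul_nonneg (by linarith) (by linarith)
  linarith

/-- The weight of a point of the arrangement. -/
noncomputable def Arrangement.pw (n : ℕ) (m : Finset Φ → ℕ) (P : Finset Φ) : ℚ :=
  if A.mul P = 2 then (1 - 1 / (n : ℚ)) ^ 2 else cw (1 - 1 / (n : ℚ)) (1 / (m P : ℚ)) (A.mul P)

namespace Arrangement

theorem pairsQ : ∑ P ∈ A.points, ((A.mul P : ℚ) * (A.mul P - 1)) = (k : ℚ) * (k - 1) := by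
  have h := A.pairs
  have h' : ((∑ P ∈ A.points, ((A.mul P : ℤ) * (A.mul P - 1)) : ℤ) : ℚ) = ((k : ℤ) * (k - 1) : ℤ) := by rw [h]
  push_cast at h'
  exact h'

theorem orb_formula {n : ℕ} (hn : 0 < n) (m : Finset Φ → ℕ) (hm : ∀ P ∈ A.points, A.mul P ≠ 2 → 0 < m P) :
    3 * A.orbE n m - A.orbK n m = ∑ P ∈ A.points, A.pw n m P - (1 - 1 / (n : ℚ)) ^ 2 * k := by
  have hp := A.pairsQ
  have hn' : (n : ℚ) ≠ 0 := by exact_mod_cast hn.ne'
  set a : ℚ := 1 - 1 / (n : ℚ) with ha
  have hx : (1 : ℚ) / n = 1 - a := by rw [ha]; ring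
  have key : ∑ P ∈ A.points, (3 * ((A.mul P : ℚ) - 1) - 3 * (1 - a) * A.mul P +
      3 * (if A.mul P = 2 then 1 / (n : ℚ) ^ 2 else (2 - (A.mul P : ℚ)) / m P + (A.mul P : ℚ) / (n * m P)) +
      (if A.mul P = 2 then (0 : ℚ) else (2 - 1 / (m P : ℚ) - a * A.mul P) ^ 2)) =
      ∑ P ∈ A.points, (A.pw n m P + a ^ 2 * ((A.mul P : ℚ) * (A.mul P - 1))) := by
    refine sum_congr rfl fun P hP => ?_
    unfold pw
    rw [← ha]
    by_cases h : A.mul P = 2
    · have h' : (A.mul P : ℚ) = 2 := by exact_mod_cast h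
      rw [if_pos h, if_pos h, if_pos h, h']
      have e : 1 / (n : ℚ) ^ 2 = (1 - a) ^ 2 := by rw [← hx, one_div, one_div, inv_pow]
      rw [e]
      ring
    · rw [if_neg h, if_neg h, if_neg h]
      have hm' : (m P : ℚ) ≠ 0 := by exact_mod_cast (hm P hP h).ne'
      have e1 : (2 - (A.mul P : ℚ)) / m P = (2 - (A.mul P : ℚ)) * (1 / m P) := by rw [mul_one_div]
      have e2 : (A.mul P : ℚ) / (n * m P) = A.mul P * ((1 - a) * (1 / m P)) := by
        rw [← hx]; field_simp
      rw [e1, e2]
      unfold cw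
      ring
  rw [sum_add_distrib, sum_add_distrib, sum_sub_distrib, sum_add_distrib, ← mul_sum, ← mul_sum, ← mul_sum,
    ← mul_sum, hp] at key
  unfold orbE orbK
  rw [← ha, div_eq_mul_one_div (2 * (k : ℚ) - _) (n : ℚ), hx]
  linear_combination key

/-- The sets of the pseudolines through some of the points. -/
theorem union_bound (V : Finset (Finset Φ)) (hV : V ⊆ A.points) :
    2 * ∑ P ∈ V, (A.mul P : ℤ) ≤ 2 * k + V.card * (V.card - 1) := by
  have key : 2 * ∑ P ∈ V, (A.mul P : ℤ) ≤ 2 * ((V.biUnion fun P => P.image A.line).card : ℤ) +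
      V.card * (V.card - 1) := by
    induction V using Finset.induction_on with
    | empty => simp
    | insert Q V hQ ih =>
      have ih' := ih (fun P hP => hV (mem_insert_of_mem hP))
      rw [sum_insert hQ, biUnion_insert, card_insert_of_notMem hQ]
      have h1 := card_union_add_card_inter (Q.image A.line) (V.biUnion fun P => P.image A.line)
      have h2 : (Q.image A.line ∩ V.biUnion fun P => P.image A.line).card ≤ V.card := by
        rw [inter_biUnion]
        refine card_biUnion_le.trans ?_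
        calc ∑ P ∈ V, (Q.image A.line ∩ P.image A.line).card ≤ ∑ P ∈ V, 1 := by
              refine sum_le_sum fun P hP => ?_
              rw [card_le_one]
              intro i hi j hj
              by_contra hij
              rw [mem_inter] at hi hj
              have := A.unique hij (hV (mem_insert_self _ _)) (hV (mem_insert_of_mem hP)) hi.1 hj.1 hi.2 hj.2
              exact hQ (this ▸ hP)
          _ = V.card := by rw [sum_const, smul_eq_mul, mul_one]
      have h3 : (Q.image A.line).card = A.mul Q := rfl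
      rw [h3] at h1
      push_cast
      have h1' : (((Q.image A.line) ∪ V.biUnion fun P => P.image A.line).card : ℤ) +
          ((Q.image A.line ∩ V.biUnion fun P => P.image A.line).card : ℤ) =
          A.mul Q + ((V.biUnion fun P => P.image A.line).card : ℤ) := by exact_mod_cast h1
      have h2' : ((Q.image A.line ∩ V.biUnion fun P => P.image A.line).card : ℤ) ≤ V.card := by exact_mod_cast h2
      nlinarith
  have h : (V.biUnion fun P => P.image A.line).card ≤ k := by
    have := card_le_univ (V.biUnion fun P => P.image A.line)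
    rwa [Fintype.card_fin] at this
  have h' : ((V.biUnion fun P => P.image A.line).card : ℤ) ≤ k := by exact_mod_cast h
  linarith

theorem exists_rel3 (hk : ∀ P ∈ A.points, A.mul P + 3 ≤ k) :
    ∃ p, Rel3 A.points (fun P => (A.mul P : ℤ)) (k : ℤ) p := by
  have hk2 : ∀ P ∈ A.points, A.mul P + 2 ≤ k := fun P hP => by have := hk P hP; omega
  obtain ⟨p, hp, hmax⟩ := exists_max_image A.points A.mul A.points_nonempty
  refine ⟨p, ⟨?_, hp, ?_, ?_, A.pairs, A.melchior hk2, ?_, A.off hp, A.union_bound⟩⟩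
  · intro P hP
    exact_mod_cast A.two_le_mul hP
  · intro P hP
    exact_mod_cast hmax P hP
  · exact_mod_cast hk p hp
  · have h := A.star hk
    refine h.trans (le_of_eq (sum_congr rfl fun P _ => ?_))
    norm_cast

end Arrangement

end Pool.Agent.H875.PL
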