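import Pool.Agent.H875.PL.Orb

/-!
# The Bogomolov-Miyaoka-Yau inequality for Galois coverings branched along pseudolines
-/

set_option autoImplicit false
set_option linter.unusedSectionVars false

namespace Pool.Agent.H875.PL

open Finset Function

variable {k : ℕ} {Φ : Type} [Fintype Φ] [DecidableEq Φ] (A : Arrangement k Φ)

namespace Arrangement

theorem sum_small {α : Type} [CommRing α] (h : ∀ P ∈ A.points, A.mul P = 2 ∨ A.mul P = 3 ∨ A.mul P = 4)
    (g : Finset Φ → α) {g2 g3 g4 : α} (h2 : ∀ P ∈ A.points, A.mul P = 2 → g P = g2)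
    (h3 : ∀ P ∈ A.points, A.mul P = 3 → g P = g3) (h4 : ∀ P ∈ A.points, A.mul P = 4 → g P = g4) :
    ∑ P ∈ A.points, g P = A.points.card * g2 + A.t 3 * (g3 - g2) + A.t 4 * (g4 - g2) := by
  have e : ∑ P ∈ A.points, g P = ∑ P ∈ A.points, (g2 + (if A.mul P = 3 then g3 - g2 else 0) +
      if A.mul P = 4 then g4 - g2 else 0) := by
    refine sum_congr rfl fun P hP => ?_
    rcases h P hP with h | h | h
    · rw [if_neg (by omega), if_neg (by omega), h2 P hP h]; ring
    · rw [if_pos h, if_neg (by omega), h3 P hP h]; ring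
    · rw [if_neg (by omega), if_pos h, h4 P hP h]; ring
  rw [e, sum_add_distrib, sum_add_distrib, sum_const, ← sum_filter, ← sum_filter, sum_const, sum_const,
    nsmul_eq_mul, nsmul_eq_mul, nsmul_eq_mul]
  rfl

theorem sum_three {α : Type} [CommRing α] (h : ∀ P ∈ A.points, A.mul P = 2 ∨ A.mul P = 3)
    (g : Finset Φ → α) {g2 g3 : α} (h2 : ∀ P ∈ A.points, A.mul P = 2 → g P = g2)
    (h3 : ∀ P ∈ A.points, A.mul P = 3 → g P = g3) :
    ∑ P ∈ A.points, g P = A.points.card * g2 + A.t 3 * (g3 - g2) := by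
  have h0 := A.sum_small (fun P hP => by rcases h P hP with h | h <;> omega) g h2 h3 (g4 := g2)
    (fun P hP h4 => by rcases h P hP with h | h <;> omega)
  rw [h0]; ring

theorem t_cast_sum (c : ℤ) (r : ℕ) : ∑ P ∈ A.points, (if A.mul P = r then c else 0) = A.t r * c := by
  rw [← sum_filter, sum_const, nsmul_eq_mul]
  rfl

theorem pw_two {n : ℕ} {m : Finset Φ → ℕ} {P : Finset Φ} (h : A.mul P = 2) : A.pw n m P = (1 - 1 / (n : ℚ)) ^ 2 := by
  unfold pw; rw [if_pos h]

theorem pw_of {n : ℕ} {m : Finset Φ → ℕ} {P : Finset Φ} (h : A.mul P ≠ 2) :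
    A.pw n m P = cw (1 - 1 / (n : ℚ)) (1 / (m P : ℚ)) (A.mul P) := by
  unfold pw; rw [if_neg h]

theorem quad_zero {n : ℕ} {m : Finset Φ → ℕ} (hn : 3 ≤ n) (hm : ∀ P ∈ A.points, 3 ≤ A.mul P → 2 ≤ m P)
    (h : A.Quad n m) : ∑ P ∈ A.points, A.pw n m P - (1 - 1 / (n : ℚ)) ^ 2 * k = 0 := by
  obtain ⟨hk0, ht, hq⟩ := h
  have hk : (k : ℤ) = 6 := by exact_mod_cast hk0
  have hkQ : (k : ℚ) = 6 := by exact_mod_cast hk0
  have hn' : (n : ℚ) ≠ 0 := by positivity
  have hpairs := A.pairs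
  have hle : ∀ P ∈ A.points, A.mul P = 2 ∨ A.mul P = 3 := by
    intro P hP
    by_contra hcon
    have h2 := A.two_le_mul hP
    have hnn : ∀ Q ∈ A.points, 0 ≤ (A.mul Q : ℤ) * (A.mul Q - 1) - if A.mul Q = 3 then 6 else 0 := by
      intro Q hQ
      have hQ2 := A.two_le_mul hQ
      have hQ2' : (2 : ℤ) ≤ A.mul Q := by exact_mod_cast hQ2
      split_ifs with h3
      · rw [h3]; norm_num
      · nlinarith
    have h5 := single_le_sum hnn hP
    rw [sum_sub_distrib, hpairs, A.t_cast_sum, ht, hk, if_neg (by omega)] at h5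
    have h4 : (4 : ℤ) ≤ A.mul P := by
      have : 4 ≤ A.mul P := by omega
      exact_mod_cast this
    push_cast at h5
    nlinarith
  have e1 := A.sum_three hle (fun P => (A.mul P : ℤ) * (A.mul P - 1)) (g2 := 2) (g3 := 6)
    (fun P _ h => by rw [h]; norm_num) (fun P _ h => by rw [h]; norm_num)
  rw [hpairs, ht, hk] at e1
  have hc : A.points.card = 7 := by push_cast at e1; omega
  have e2 := A.sum_three hle (A.pw n m) (g2 := (1 - 1 / (n : ℚ)) ^ 2) (g3 := 3 / 4 * (1 - 1 / (n : ℚ)) ^ 2)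
    (fun P _ h => A.pw_two h) (fun P hP h => by
      rw [A.pw_of (by omega), h]
      have h3 := cw_three (1 - 1 / (n : ℚ)) (1 / (m P : ℚ))
      have hmp : (m P : ℚ) ≠ 0 := by
        have := hm P hP (by omega)
        positivity
      have hq' : (n : ℚ) * m P = 2 * n + 3 * m P := by exact_mod_cast hq P hP h
      have h0 : 2 * (1 / (m P : ℚ)) - (3 * (1 - 1 / (n : ℚ)) - 2) = 0 := by
        field_simp
        linear_combination -hq'
      rw [h0] at h3
      push_cast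
      linarith)
  rw [e2, hc, ht, hkQ]
  push_cast
  ring

theorem bthree_zero {n : ℕ} {m : Finset Φ → ℕ} (h : A.BThree n m) :
    ∑ P ∈ A.points, A.pw n m P - (1 - 1 / (n : ℚ)) ^ 2 * k = 0 := by
  obtain ⟨hk0, ht3, ht4, hn, hm3, hm4⟩ := h
  have hk : (k : ℤ) = 9 := by exact_mod_cast hk0
  have hkQ : (k : ℚ) = 9 := by exact_mod_cast hk0
  have hpairs := A.pairs
  have hle : ∀ P ∈ A.points, A.mul P = 2 ∨ A.mul P = 3 ∨ A.mul P = 4 := by
    intro P hP
    by_contra hcon
    have h2 := A.two_le_mul hP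
    have hnn : ∀ Q ∈ A.points, 0 ≤ (A.mul Q : ℤ) * (A.mul Q - 1) - (if A.mul Q = 3 then 6 else 0) -
        if A.mul Q = 4 then 12 else 0 := by
      intro Q hQ
      have hQ2 := A.two_le_mul hQ
      have hQ2' : (2 : ℤ) ≤ A.mul Q := by exact_mod_cast hQ2
      split_ifs with h3 h4
      · omega
      · rw [h3]; norm_num
      · rename_i h4; rw [h4]; norm_num
      · nlinarith
    have h5 := single_le_sum hnn hP
    rw [sum_sub_distrib, sum_sub_distrib, hpairs, A.t_cast_sum, A.t_cast_sum, ht3, ht4, hk, if_neg (by omega),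
      if_neg (by omega)] at h5
    have h4 : (5 : ℤ) ≤ A.mul P := by
      have : 5 ≤ A.mul P := by omega
      exact_mod_cast this
    push_cast at h5
    nlinarith
  have e1 := A.sum_small hle (fun P => (A.mul P : ℤ) * (A.mul P - 1)) (g2 := 2) (g3 := 6) (g4 := 12)
    (fun P _ h => by rw [h]; norm_num) (fun P _ h => by rw [h]; norm_num) (fun P _ h => by rw [h]; norm_num)
  rw [hpairs, ht3, ht4, hk] at e1
  have hc : A.points.card = 13 := by push_cast at e1; omega
  have e2 := A.sum_small hle (A.pw n m) (g2 := 9 / 16) (g3 := 27 / 64) (g4 := 0)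
    (fun P _ h => by rw [A.pw_two h, hn]; norm_num)
    (fun P hP h => by rw [A.pw_of (by omega), h, hm3 P hP h, hn]; unfold cw; norm_num)
    (fun P hP h => by rw [A.pw_of (by omega), h, hm4 P hP h, hn]; unfold cw; norm_num)
  rw [e2, hc, ht3, ht4, hkQ, hn]
  norm_num

/-- The lower bound for the weight of a point. -/
theorem pw_ge {n : ℕ} {m : Finset Φ → ℕ} (hn : 3 ≤ n) (hm : ∀ P ∈ A.points, 3 ≤ A.mul P → 2 ≤ m P)
    {P : Finset Φ} (hP : P ∈ A.points) :
    (1 - 1 / (n : ℚ)) ^ 2 * (wW (A.mul P) : ℤ) ≤ 16 * A.pw n m P := by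
  have h2 := A.two_le_mul hP
  have hn' : (3 : ℚ) ≤ n := by exact_mod_cast hn
  have ha : (2 : ℚ) / 3 ≤ 1 - 1 / n := by
    have : 1 / (n : ℚ) ≤ 1 / 3 := one_div_le_one_div_of_le (by norm_num) hn'
    linarith
  have hc : A.mul P = 2 ∨ A.mul P = 3 ∨ A.mul P = 4 ∨ 5 ≤ A.mul P := by omega
  rcases hc with hc | hc | hc | hc
  · rw [A.pw_two hc, hc]
    push_cast
    rw [wW_two]
    push_cast
    linarith
  · rw [A.pw_of (by omega), hc]
    push_cast
    rw [wW_three]
    push_cast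
    have := cw_three (1 - 1 / (n : ℚ)) (1 / (m P : ℚ))
    rw [this]
    have := sq_nonneg (2 * (1 / (m P : ℚ)) - (3 * (1 - 1 / (n : ℚ)) - 2))
    linarith
  · rw [A.pw_of (by omega), hc]
    push_cast
    rw [wW_four]
    push_cast
    have := cw_four (1 - 1 / (n : ℚ)) (1 / (m P : ℚ))
    rw [this]
    have := sq_nonneg ((1 / (m P : ℚ)) - (2 * (1 - 1 / (n : ℚ)) - 1))
    linarith
  · rw [A.pw_of (by omega), wW_five (by exact_mod_cast hc)]
    push_cast
    have hy : 1 / (m P : ℚ) ≤ 1 / 2 := by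
      have h3 : (2 : ℚ) ≤ m P := by exact_mod_cast hm P hP (by omega)
      exact one_div_le_one_div_of_le (by norm_num) h3
    exact cw_five ha hy (by exact_mod_cast hc)

/-- If no point is on more than `k - 3` pseudolines. -/
theorem main3 (hk : ∀ P ∈ A.points, A.mul P + 3 ≤ k) {n : ℕ} {m : Finset Φ → ℕ} (hn : 3 ≤ n)
    (hm : ∀ P ∈ A.points, 3 ≤ A.mul P → 2 ≤ m P) :
    0 ≤ ∑ P ∈ A.points, A.pw n m P - (1 - 1 / (n : ℚ)) ^ 2 * k ∧
    (∑ P ∈ A.points, A.pw n m P - (1 - 1 / (n : ℚ)) ^ 2 * k = 0 → A.Quad n m ∨ A.BThree n m) := by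
  obtain ⟨p, H⟩ := A.exists_rel3 hk
  have hM := H.main
  have hn' : (3 : ℚ) ≤ n := by exact_mod_cast hn
  have hn0 : (n : ℚ) ≠ 0 := by positivity
  have ha : (2 : ℚ) / 3 ≤ 1 - 1 / n := by
    have : 1 / (n : ℚ) ≤ 1 / 3 := one_div_le_one_div_of_le (by norm_num) hn'
    linarith
  set a : ℚ := 1 - 1 / (n : ℚ) with had
  have hsum : a ^ 2 * ((∑ P ∈ A.points, wW (A.mul P) : ℤ) : ℚ) ≤ 16 * ∑ P ∈ A.points, A.pw n m P := by
    push_cast
    rw [mul_sum, mul_sum]
    exact sum_le_sum fun P hP => A.pw_ge hn hm hP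
  have hM1 : (0 : ℚ) ≤ ((∑ P ∈ A.points, wW (A.mul P) : ℤ) : ℚ) - 16 * k := by
    have := hM.1
    exact_mod_cast this
  have ha2 : 0 < a ^ 2 := by positivity
  have hF : 0 ≤ ∑ P ∈ A.points, A.pw n m P - a ^ 2 * k := by
    have := mul_nonneg ha2.le hM1
    nlinarith
  refine ⟨hF, fun h0 => ?_⟩
  have hz : ((∑ P ∈ A.points, wW (A.mul P) : ℤ) : ℚ) - 16 * k = 0 := by
    have h1 : a ^ 2 * (((∑ P ∈ A.points, wW (A.mul P) : ℤ) : ℚ) - 16 * k) ≤ 0 := by nlinarith
    by_contra hne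
    have h2 : 0 < ((∑ P ∈ A.points, wW (A.mul P) : ℤ) : ℚ) - 16 * k := lt_of_le_of_ne hM1 (Ne.symm hne)
    have := mul_pos ha2 h2
    linarith
  have hzZ : ∑ P ∈ A.points, wW (A.mul P) - 16 * (k : ℤ) = 0 := by exact_mod_cast hz
  have hterm : ∀ P ∈ A.points, 16 * A.pw n m P - a ^ 2 * (wW (A.mul P) : ℤ) = 0 := by
    have hnn : ∀ P ∈ A.points, 0 ≤ 16 * A.pw n m P - a ^ 2 * (wW (A.mul P) : ℤ) := fun P hP => by
      have := A.pw_ge hn hm hP
      rw [← had] at this
      linarith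
    rw [← sum_eq_zero_iff_of_nonneg hnn, sum_sub_distrib, ← mul_sum, ← mul_sum]
    push_cast at hz
    have h1 : ∑ P ∈ A.points, ((wW (A.mul P) : ℤ) : ℚ) = 16 * k := by linarith
    rw [h1]
    linarith
  have eq3 : ∀ P ∈ A.points, A.mul P = 3 → n * m P = 2 * n + 3 * m P := by
    intro P hP h3
    have h := hterm P hP
    have hmp : (m P : ℚ) ≠ 0 := by
      have := hm P hP (by omega)
      positivity
    rw [A.pw_of (by omega), h3, ← had] at h
    push_cast at h
    rw [wW_three, cw_three] at h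
    push_cast at h
    have h4 : (2 * (1 / (m P : ℚ)) - (3 * a - 2)) ^ 2 = 0 := by linarith
    have h5 : 2 * (1 / (m P : ℚ)) - (3 * a - 2) = 0 := pow_eq_zero_iff (two_ne_zero) |>.1 h4
    rw [had] at h5
    field_simp at h5
    have h6 : (n : ℚ) * m P = 2 * n + 3 * m P := by linarith
    exact_mod_cast h6
  have eq4 : ∀ P ∈ A.points, A.mul P = 4 → n * m P = n + 2 * m P := by
    intro P hP h3
    have h := hterm P hP
    have hmp : (m P : ℚ) ≠ 0 := by
      have := hm P hP (by omega)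
      positivity
    rw [A.pw_of (by omega), h3, ← had] at h
    push_cast at h
    rw [wW_four, cw_four] at h
    push_cast at h
    have h4 : ((1 / (m P : ℚ)) - (2 * a - 1)) ^ 2 = 0 := by linarith
    have h5 : (1 / (m P : ℚ)) - (2 * a - 1) = 0 := pow_eq_zero_iff (two_ne_zero) |>.1 h4
    rw [had] at h5
    field_simp at h5
    have h6 : (n : ℚ) * m P = n + 2 * m P := by linarith
    exact_mod_cast h6
  have hpairs := A.pairs
  rcases hM.2 hzZ with ⟨hk6, hp3⟩ | ⟨hk9, hp4⟩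
  · left
    have hk6' : k = 6 := by exact_mod_cast hk6
    have hle : ∀ P ∈ A.points, A.mul P = 2 ∨ A.mul P = 3 := by
      intro P hP
      have h1 := A.two_le_mul hP
      have h2 := H.max P hP
      rw [hp3] at h2
      have h2' : A.mul P ≤ 3 := by exact_mod_cast h2
      omega
    have e1 := A.sum_three hle (fun P => (A.mul P : ℤ) * (A.mul P - 1)) (g2 := 2) (g3 := 6)
      (fun P _ h => by rw [h]; norm_num) (fun P _ h => by rw [h]; norm_num)
    have e2 := A.sum_three hle (fun P => wW (A.mul P)) (g2 := 16) (g3 := 12)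
      (fun P _ h => by rw [h]; rfl) (fun P _ h => by rw [h]; rfl)
    rw [hpairs, hk6] at e1
    rw [e2, hk6] at hzZ
    exact ⟨hk6', by omega, eq3⟩
  · right
    have hk9' : k = 9 := by exact_mod_cast hk9
    have hle : ∀ P ∈ A.points, A.mul P = 2 ∨ A.mul P = 3 ∨ A.mul P = 4 := by
      intro P hP
      have h1 := A.two_le_mul hP
      have h2 := H.max P hP
      rw [hp4] at h2
      have h2' : A.mul P ≤ 4 := by exact_mod_cast h2
      omega
    have e1 := A.sum_small hle (fun P => (A.mul P : ℤ) * (A.mul P - 1)) (g2 := 2) (g3 := 6) (g4 := 12)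
      (fun P _ h => by rw [h]; norm_num) (fun P _ h => by rw [h]; norm_num) (fun P _ h => by rw [h]; norm_num)
    have e2 := A.sum_small hle (fun P => wW (A.mul P)) (g2 := 16) (g3 := 12) (g4 := 0)
      (fun P _ h => by rw [h]; rfl) (fun P _ h => by rw [h]; rfl) (fun P _ h => by rw [h]; rfl)
    have e3 := A.sum_small hle (fun P => 3 - (A.mul P : ℤ)) (g2 := 1) (g3 := 0) (g4 := -1)
      (fun P _ h => by rw [h]; rfl) (fun P _ h => by rw [h]; rfl) (fun P _ h => by rw [h]; rfl)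
    have h3 := H.melchior
    rw [hpairs, hk9] at e1
    rw [e2, hk9] at hzZ
    rw [e3] at h3
    have ht : A.t 3 = 4 ∧ A.t 4 = 3 := by omega
    obtain ⟨P3, hP3⟩ : ∃ P, P ∈ A.points.filter fun P => A.mul P = 3 := by
      apply card_pos.1
      change 0 < A.t 3
      omega
    obtain ⟨P4, hP4⟩ : ∃ P, P ∈ A.points.filter fun P => A.mul P = 4 := by
      apply card_pos.1
      change 0 < A.t 4
      omega
    rw [mem_filter] at hP3 hP4
    have q3 := eq3 P3 hP3.1 hP3.2
    have q4 := eq4 P4 hP4.1 hP4.2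
    have hm4 := hm P4 hP4.1 (by omega)
    have hn4 : n = 4 := by
      have h5 : n ≤ 4 := by nlinarith
      have h6 : n = 3 ∨ n = 4 := by omega
      rcases h6 with h6 | h6
      · rw [h6] at q3; omega
      · exact h6
    refine ⟨hk9', ht.1, ht.2, hn4, ?_, ?_⟩
    · intro P hP h
      have := eq3 P hP h
      rw [hn4] at this
      omega
    · intro P hP h
      have := eq4 P hP h
      rw [hn4] at this
      omega

/-- If there is a point on all but two of the pseudolines. -/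
theorem main2 (hk2 : ∀ P ∈ A.points, A.mul P + 2 ≤ k) {P0 : Finset Φ} (hP0 : P0 ∈ A.points) (h0 : A.mul P0 + 2 = k)
    {n : ℕ} {m : Finset Φ → ℕ} (hn : 3 ≤ n) (hr : 3 ≤ A.mul P0 → 1 + 1 / (m P0 : ℚ) ≤
      (1 - 1 / (n : ℚ)) * ((k : ℚ) - A.mul P0)) :
    0 < ∑ P ∈ A.points, A.pw n m P - (1 - 1 / (n : ℚ)) ^ 2 * k := by
  have hn' : (3 : ℚ) ≤ n := by exact_mod_cast hn
  have ha : (2 : ℚ) / 3 ≤ 1 - 1 / n := by
    have : 1 / (n : ℚ) ≤ 1 / 3 := one_div_le_one_div_of_le (by norm_num) hn'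
    linarith
  set a : ℚ := 1 - 1 / (n : ℚ) with had
  have ha2 : 0 < a ^ 2 := by positivity
  set R : ℕ := A.mul P0 with hR
  have hkR : (k : ℚ) = R + 2 := by rw [← h0]; push_cast; ring
  have hkR' : (k : ℤ) = R + 2 := by rw [← h0]; push_cast; ring
  have h2 := A.two_le_mul hP0
  rw [← hR] at h2
  have hoff := A.off hP0
  rw [← hR, hkR'] at hoff
  have hpairsQ := A.pairsQ
  have hle : ∀ P ∈ A.points.erase P0, A.mul P = 2 ∨ A.mul P = 3 := by
    intro P hP
    have h1 := A.two_le_mul (mem_of_mem_erase hP)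
    have hnn : ∀ Q ∈ A.points.erase P0, 0 ≤ ((A.mul Q : ℤ) - 1) * (A.mul Q - 2) := by
      intro Q hQ
      have h1 := A.two_le_mul (mem_of_mem_erase hQ)
      have h1' : (2 : ℤ) ≤ A.mul Q := by exact_mod_cast h1
      exact mul_nonneg (by linarith) (by linarith)
    have h3 := single_le_sum hnn hP
    by_contra hcon
    have h4 : (4 : ℤ) ≤ A.mul P := by
      have : 4 ≤ A.mul P := by omega
      exact_mod_cast this
    nlinarith
  have hoffQ : ∑ Q ∈ A.points.erase P0, (((A.mul Q : ℚ) - 1) * (A.mul Q - 2)) ≤ 2 := by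
    have h3 : ((∑ Q ∈ A.points.erase P0, (((A.mul Q : ℤ) - 1) * (A.mul Q - 2)) : ℤ) : ℚ) ≤
        ((((R : ℤ) + 2 - R) * (R + 2 - R - 1) : ℤ) : ℚ) := by exact_mod_cast hoff
    push_cast at h3
    linarith
  have hsum : a ^ 2 * (8 * ((k : ℚ) * (k - 1) - R * (R - 1)) - 18 * 2) ≤
      16 * ∑ P ∈ A.points.erase P0, A.pw n m P := by
    have h3 : ∀ P ∈ A.points.erase P0, a ^ 2 * (8 * ((A.mul P : ℚ) * (A.mul P - 1)) -
        18 * (((A.mul P : ℚ) - 1) * (A.mul P - 2))) ≤ 16 * A.pw n m P := by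
      intro P hP
      rcases hle P hP with h | h
      · rw [A.pw_two h, h, ← had]
        push_cast
        linarith
      · rw [A.pw_of (by omega), h, ← had]
        push_cast
        have h4 := cw_three a (1 / (m P : ℚ))
        rw [h4]
        have := sq_nonneg (2 * (1 / (m P : ℚ)) - (3 * a - 2))
        linarith
    have h4 := sum_le_sum h3
    rw [← mul_sum, ← mul_sum, sum_sub_distrib, ← mul_sum, ← mul_sum] at h4
    have h5 := add_sum_erase A.points (fun P => (A.mul P : ℚ) * (A.mul P - 1)) hP0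
    rw [hpairsQ] at h5
    simp only [← hR] at h5
    have h6 : ∑ P ∈ A.points.erase P0, (A.mul P : ℚ) * (A.mul P - 1) = (k : ℚ) * (k - 1) - R * (R - 1) := by linarith
    rw [h6] at h4
    have h7 := mul_nonneg ha2.le (sub_nonneg.2 hoffQ)
    linarith
  have htot := add_sum_erase A.points (A.pw n m) hP0
  rw [← htot]
  have hc : R = 2 ∨ R = 3 ∨ 4 ≤ R := by omega
  rcases hc with hc | hc | hc
  · have hall : ∀ P ∈ A.points, A.mul P = 2 := by
      intro P hP
      have h3 := A.two_le_mul hP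
      have h4 := hk2 P hP
      omega
    have hcard : (A.points.card : ℚ) = 6 := by
      have h3 := hpairsQ
      rw [sum_congr rfl (fun P hP => by rw [hall P hP] : ∀ P ∈ A.points,
        ((A.mul P : ℚ) * (A.mul P - 1)) = ((2 : ℕ) : ℚ) * ((2 : ℕ) - 1)), sum_const, nsmul_eq_mul, hkR, hc] at h3
      push_cast at h3
      linarith
    rw [htot, sum_congr rfl (fun P hP => A.pw_two (hall P hP)), sum_const, nsmul_eq_mul, hcard, ← had, hkR, hc]
    push_cast
    linarith
  · rw [A.pw_of (by rw [← hR]; omega), ← had, ← hR, hc]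
    have h3 := cw_three a (1 / (m P0 : ℚ))
    have h4 := sq_nonneg (2 * (1 / (m P0 : ℚ)) - (3 * a - 2))
    rw [hkR, hc] at hsum ⊢
    push_cast at hsum ⊢
    linarith
  · rw [A.pw_of (by rw [← hR]; omega), ← had, ← hR]
    have hr' := hr (by omega)
    rw [hkR] at hr'
    have h3 : cw a (1 / (m P0 : ℚ)) R - (4 - R) * a ^ 2 =
        (2 * a - (1 + 1 / (m P0 : ℚ))) * ((R - 2) * a - (1 + 1 / (m P0 : ℚ))) := by
      unfold cw; ring
    have hR4 : (4 : ℚ) ≤ R := by exact_mod_cast hc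
    have h4 : 0 ≤ (2 * a - (1 + 1 / (m P0 : ℚ))) * ((R - 2) * a - (1 + 1 / (m P0 : ℚ))) := by
      apply mul_nonneg
      · linarith
      · nlinarith
    rw [hkR] at hsum ⊢
    nlinarith

/-- **The inequality and the case of equality.** -/
theorem orb_main (hk : 3 ≤ k) {n : ℕ} {m : Finset Φ → ℕ} (hn : 3 ≤ n)
    (hm : ∀ P ∈ A.points, 3 ≤ A.mul P → 2 ≤ m P)
    (hr : ∀ P ∈ A.points, 3 ≤ A.mul P → 1 + 1 / (m P : ℚ) ≤ (1 - 1 / (n : ℚ)) * ((k : ℚ) - A.mul P)) :
    0 ≤ ∑ P ∈ A.points, A.pw n m P - (1 - 1 / (n : ℚ)) ^ 2 * k ∧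
    (∑ P ∈ A.points, A.pw n m P - (1 - 1 / (n : ℚ)) ^ 2 * k = 0 ↔ k = 3 ∨ A.Quad n m ∨ A.BThree n m) := by
  have hn' : (3 : ℚ) ≤ n := by exact_mod_cast hn
  have ha1 : 1 - 1 / (n : ℚ) < 1 := by
    have : 0 < 1 / (n : ℚ) := by positivity
    linarith
  have ha0 : 0 < 1 - 1 / (n : ℚ) := by
    have : 1 / (n : ℚ) ≤ 1 / 3 := one_div_le_one_div_of_le (by norm_num) hn'
    linarith
  have hbig : ∀ P ∈ A.points, 3 ≤ A.mul P → A.mul P + 2 ≤ k := by
    intro P hP h3
    have h := hr P hP h3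
    have hy : 0 ≤ 1 / (m P : ℚ) := by positivity
    by_contra hcon
    have h4 : (k : ℚ) - A.mul P ≤ 1 := by
      have : k ≤ A.mul P + 1 := by omega
      have : (k : ℚ) ≤ A.mul P + 1 := by exact_mod_cast this
      linarith
    nlinarith
  rcases eq_or_lt_of_le hk with hk3 | hk3
  · have hle : ∀ P ∈ A.points, A.mul P = 2 := by
      intro P hP
      have h2 := A.two_le_mul hP
      by_contra hne
      have := hbig P hP (by omega)
      omega
    have hpairs := A.pairs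
    have hkZ : (k : ℤ) = 3 := by exact_mod_cast hk3.symm
    have hkQ : (k : ℚ) = 3 := by exact_mod_cast hk3.symm
    rw [sum_congr rfl (fun P hP => by rw [hle P hP] : ∀ P ∈ A.points,
      ((A.mul P : ℤ) * (A.mul P - 1)) = ((2 : ℕ) : ℤ) * ((2 : ℕ) - 1)), sum_const, nsmul_eq_mul, hkZ] at hpairs
    have hc : A.points.card = 3 := by push_cast at hpairs; omega
    have hF : ∑ P ∈ A.points, A.pw n m P - (1 - 1 / (n : ℚ)) ^ 2 * k = 0 := by
      rw [sum_congr rfl (fun P hP => A.pw_two (hle P hP)), sum_const, nsmul_eq_mul, hc, hkQ]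
      push_cast
      ring
    exact ⟨hF.ge, fun _ => Or.inl hk3.symm, fun _ => hF⟩
  · have hk2 : ∀ P ∈ A.points, A.mul P + 2 ≤ k := by
      intro P hP
      rcases lt_or_ge (A.mul P) 3 with h | h
      · omega
      · exact hbig P hP h
    by_cases h3 : ∀ P ∈ A.points, A.mul P + 3 ≤ k
    · have h := A.main3 h3 (n := n) (m := m) hn hm
      refine ⟨h.1, fun h0 => Or.inr (h.2 h0), ?_⟩
      rintro (h0 | h0 | h0)
      · omega
      · exact A.quad_zero hn hm h0
      · exact A.bthree_zero h0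
    · rw [not_forall] at h3
      obtain ⟨P0, h3⟩ := h3
      rw [Classical.not_imp] at h3
      obtain ⟨hP0, h3⟩ := h3
      have h2 := hk2 P0 hP0
      have hpos := A.main2 hk2 hP0 (by omega) (n := n) (m := m) hn (hr P0 hP0)
      refine ⟨hpos.le, fun h0 => absurd h0 hpos.ne', ?_⟩
      rintro (h0 | h0 | h0)
      · omega
      · exact A.quad_zero hn hm h0
      · exact A.bthree_zero h0

theorem orb_bmy (hk : 3 ≤ k) {n : ℕ} {m : Finset Φ → ℕ} (hn : 3 ≤ n) (hmr : A.NotRuled n m)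
    {e σ : ℤ} (h : A.OrbCovering n m e σ) :
    3 * σ ≤ e ∧ (3 * σ = e ↔ k = 3 ∨ A.Quad n m ∨ A.BThree n m) := by
  have hm : ∀ P ∈ A.points, 3 ≤ A.mul P → 2 ≤ m P := fun P hP h3 => (hmr P hP h3).1
  have hr : ∀ P ∈ A.points, 3 ≤ A.mul P → 1 + 1 / (m P : ℚ) ≤ (1 - 1 / (n : ℚ)) * ((k : ℚ) - A.mul P) :=
    fun P hP h3 => (hmr P hP h3).2
  obtain ⟨d, hd, he, hs⟩ := h
  have hM := A.orb_main hk hn hm hr
  have hf := A.orb_formula (n := n) (by omega) m (fun P hP h2 => by
    have h1 := A.two_le_mul hP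
    have := hm P hP (by omega)
    omega)
  have hd' : (0 : ℚ) < d := by exact_mod_cast hd
  have hes : (e : ℚ) - 3 * σ = d * (∑ P ∈ A.points, A.pw n m P - (1 - 1 / (n : ℚ)) ^ 2 * k) := by
    rw [← hf]
    linear_combination 3 * he - hs
  have h1 : (0 : ℚ) ≤ (e : ℚ) - 3 * σ := by
    rw [hes]; exact mul_nonneg hd'.le hM.1
  refine ⟨?_, ?_⟩
  · have h2 : (3 * σ : ℚ) ≤ e := by linarith
    exact_mod_cast h2
  · rw [← hM.2]
    constructor
    · intro h0
      have h2 : (3 * σ : ℚ) = e := by exact_mod_cast h0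
      have h3 : (d : ℚ) * (∑ P ∈ A.points, A.pw n m P - (1 - 1 / (n : ℚ)) ^ 2 * k) = 0 := by
        rw [← hes]; linarith
      rcases mul_eq_zero.1 h3 with h4 | h4
      · exact absurd h4 hd'.ne'
      · exact h4
    · intro h0
      rw [h0, mul_zero] at hes
      have h2 : (3 * σ : ℚ) = e := by linarith
      exact_mod_cast h2

end Arrangement

end Pool.Agent.H875.PL
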