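import Pool.Agent.H875.PL.Orb2
import Pool.Agent.H875.PL.Full

/-!
# Coverings branched along pseudolines: the order two
-/

set_option autoImplicit false
set_option linter.unusedSectionVars false

namespace Pool.Agent.H875.PL

open Finset Function

theorem half_three {y : ℚ} (h0 : 0 ≤ y) : 1 / 4 ≤ cw (1 / 2) y 3 := by
  have : cw (1 / 2) y 3 = 1 / 4 + (y / 2 + y ^ 2) := by unfold cw; ring
  rw [this]
  have : 0 ≤ y / 2 + y ^ 2 := by positivity
  linarith

theorem half_four {y : ℚ} : 0 ≤ cw (1 / 2) y 4 := by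
  have : cw (1 / 2) y 4 = y ^ 2 := by unfold cw; ring
  rw [this]
  positivity

theorem half_five {y : ℚ} : -5 / 16 ≤ cw (1 / 2) y 5 := by
  have : cw (1 / 2) y 5 = (y - 1 / 4) ^ 2 - 5 / 16 := by unfold cw; ring
  rw [this]
  have := sq_nonneg (y - 1 / 4)
  linarith

theorem half_six {y r : ℚ} (h : y ≤ 1 / 2) (hr : 6 ≤ r) : (9 - 2 * r) / 4 ≤ cw (1 / 2) y r := by
  have : cw (1 / 2) y r = (9 - 2 * r) / 4 + (1 / 2 - y) * (r / 2 - 5 / 2 - y) := by unfold cw; ring
  rw [this]
  have : 0 ≤ (1 / 2 - y) * (r / 2 - 5 / 2 - y) := mul_nonneg (by linarith) (by linarith)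
  linarith

variable {k : ℕ} {Φ : Type} [Fintype Φ] [DecidableEq Φ] (A : Arrangement k Φ)

namespace Arrangement

theorem not_quad_two {m : Finset Φ → ℕ} : ¬ A.Quad 2 m := by
  rintro ⟨-, h4, h⟩
  have hc : 0 < (A.points.filter fun P => A.mul P = 3).card := by
    change 0 < A.t 3
    omega
  obtain ⟨P, hP⟩ := card_pos.1 hc
  rw [mem_filter] at hP
  have := h P hP.1 hP.2
  omega

theorem not_bthree_two {m : Finset Φ → ℕ} : ¬ A.BThree 2 m := by
  rintro ⟨-, -, -, h, -⟩
  omega

theorem hH_le_pw {m : Finset Φ → ℕ} (hm : ∀ P ∈ A.points, 3 ≤ A.mul P → 2 ≤ m P) {P : Finset Φ}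
    (hP : P ∈ A.points) : (hH (A.mul P) : ℚ) / 16 ≤ A.pw 2 m P := by
  have h2 := A.two_le_mul hP
  by_cases h : A.mul P = 2
  · rw [A.pw_two h, h]
    unfold hH
    norm_num
  · rw [A.pw_of h]
    have hm2 : (2 : ℚ) ≤ m P := by exact_mod_cast hm P hP (by omega)
    have ha : 1 - 1 / ((2 : ℕ) : ℚ) = 1 / 2 := by norm_num
    have hy : 1 / (m P : ℚ) ≤ 1 / 2 := one_div_le_one_div_of_le (by norm_num) hm2
    have hy0 : 0 ≤ 1 / (m P : ℚ) := by positivity
    rw [ha]
    rcases lt_or_ge (A.mul P) 6 with h6 | h6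
    · have h' : A.mul P = 3 ∨ A.mul P = 4 ∨ A.mul P = 5 := by omega
      rcases h' with h' | h' | h' <;> rw [h']
      · have := half_three hy0
        have g : hH 3 = 4 := rfl
        rw [g]
        push_cast
        linarith
      · have := half_four (y := 1 / (m P : ℚ))
        have g : hH 4 = 0 := rfl
        rw [g]
        push_cast
        linarith
      · have := half_five (y := 1 / (m P : ℚ))
        have g : hH 5 = -5 := rfl
        rw [g]
        push_cast
        linarith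
    · have h6' : (6 : ℚ) ≤ A.mul P := by exact_mod_cast h6
      have := half_six hy h6'
      rw [hH_six h6]
      push_cast
      linarith

theorem orb_two_main (hk : 3 ≤ k) {m : Finset Φ → ℕ}
    (hm : ∀ P ∈ A.points, 3 ≤ A.mul P → 2 ≤ m P)
    (hr : ∀ P ∈ A.points, 3 ≤ A.mul P → A.mul P + 3 ≤ k) :
    0 ≤ ∑ P ∈ A.points, A.pw 2 m P - (1 - 1 / ((2 : ℕ) : ℚ)) ^ 2 * k ∧
    (∑ P ∈ A.points, A.pw 2 m P - (1 - 1 / ((2 : ℕ) : ℚ)) ^ 2 * k = 0 ↔
      k = 3 ∨ A.Quad 2 m ∨ A.BThree 2 m) := by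
  have hq : ¬ (A.Quad 2 m ∨ A.BThree 2 m) := by
    rintro (h | h)
    · exact A.not_quad_two h
    · exact A.not_bthree_two h
  rcases lt_or_ge k 5 with h5 | h5
  · have hle : ∀ P ∈ A.points, A.mul P = 2 := by
      intro P hP
      have h2 := A.two_le_mul hP
      by_contra hne
      have := hr P hP (by omega)
      omega
    have hpairs := A.pairs
    rw [sum_congr rfl (fun P hP => by rw [hle P hP] : ∀ P ∈ A.points,
      ((A.mul P : ℤ) * (A.mul P - 1)) = ((2 : ℕ) : ℤ) * ((2 : ℕ) - 1)), sum_const, nsmul_eq_mul] at hpairs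
    rw [sum_congr rfl (fun P hP => A.pw_two (hle P hP)), sum_const, nsmul_eq_mul]
    have h34 : k = 3 ∨ k = 4 := by omega
    rcases h34 with rfl | rfl
    · have hc : A.points.card = 3 := by push_cast at hpairs; omega
      rw [hc]
      norm_num
    · have hc : A.points.card = 6 := by push_cast at hpairs; omega
      rw [hc]
      refine ⟨by norm_num, fun h => ?_, fun h => ?_⟩
      · norm_num at h
      · rcases h with h | h
        · omega
        · exact absurd h hq
  · have hpos := A.full_pos (fun P hP => by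
      rcases lt_or_ge (A.mul P) 3 with h | h
      · omega
      · exact hr P hP h)
    have hle := sum_le_sum (fun P (hP : P ∈ A.points) => A.hH_le_pw hm hP)
    rw [← sum_div] at hle
    have hpos' : (4 : ℚ) * k < ((∑ P ∈ A.points, hH (A.mul P) : ℤ) : ℚ) := by exact_mod_cast hpos
    push_cast at hpos'
    have hF : 0 < ∑ P ∈ A.points, A.pw 2 m P - (1 - 1 / ((2 : ℕ) : ℚ)) ^ 2 * k := by
      push_cast
      linarith
    refine ⟨hF.le, fun h => absurd h hF.ne', fun h => ?_⟩
    rcases h with h | h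
    · omega
    · exact absurd h hq

/-- **The inequality and the case of equality for all orders** `n ≥ 2` and `m P ≥ 2`. -/
theorem orb_bmy_all (hk : 3 ≤ k) {n : ℕ} {m : Finset Φ → ℕ} (hn : 2 ≤ n) (hmr : A.NotRuled n m)
    {e σ : ℤ} (h : A.OrbCovering n m e σ) :
    3 * σ ≤ e ∧ (3 * σ = e ↔ k = 3 ∨ A.Quad n m ∨ A.BThree n m) := by
  rcases eq_or_lt_of_le hn with rfl | hn
  swap
  · exact A.orb_bmy hk hn hmr h
  have hm : ∀ P ∈ A.points, 3 ≤ A.mul P → 2 ≤ m P := fun P hP h3 => (hmr P hP h3).1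
  have hr : ∀ P ∈ A.points, 3 ≤ A.mul P → A.mul P + 3 ≤ k := by
    intro P hP h3
    have h1 := (hmr P hP h3).2
    have hm2 : (2 : ℚ) ≤ m P := by exact_mod_cast hm P hP h3
    have hy0 : 0 < 1 / (m P : ℚ) := by positivity
    push_cast at h1
    have h2 : (A.mul P : ℚ) + 2 < k := by linarith
    have h3 : A.mul P + 2 < k := by exact_mod_cast h2
    omega
  obtain ⟨d, hd, he, hs⟩ := h
  have hM := A.orb_two_main hk hm hr
  have hf := A.orb_formula (n := 2) (by omega) m (fun P hP h2 => by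
    have h1 := A.two_le_mul hP
    have := hm P hP (by omega)
    omega)
  have hd' : (0 : ℚ) < d := by exact_mod_cast hd
  have hes : (e : ℚ) - 3 * σ = d * (∑ P ∈ A.points, A.pw 2 m P - (1 - 1 / ((2 : ℕ) : ℚ)) ^ 2 * k) := by
    rw [← hf]
    linear_combination 3 * he - hs
  have h1 : (0 : ℚ) ≤ (e : ℚ) - 3 * σ := by
    rw [hes]; exact mul_nonneg hd'.le hM.1
  refine ⟨?_, ?_⟩
  · have h2 : (3 * σ : ℚ) ≤ e := by linarith
    exact_mod_cast h2
  · rw [← hM.2]
    constructor
    · intro h0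
      have h2 : (3 * σ : ℚ) = e := by exact_mod_cast h0
      have h3 : (d : ℚ) * (∑ P ∈ A.points, A.pw 2 m P - (1 - 1 / ((2 : ℕ) : ℚ)) ^ 2 * k) = 0 := by
        rw [← hes]; linarith
      rcases mul_eq_zero.1 h3 with h4 | h4
      · exact absurd h4 hd'.ne'
      · exact h4
    · intro h0
      rw [h0, mul_zero] at hes
      have h2 : (3 * σ : ℚ) = e := by linarith
      exact_mod_cast h2

end Arrangement

end Pool.Agent.H875.PL
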