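import Pool.Agent.H875.PL.Defs

/-!
# Galois coverings of the plane branched along pseudolines: definitions
-/

set_option autoImplicit false
set_option linter.unusedSectionVars false

namespace Pool.Agent.H875.PL

open Finset Function

variable {k : ℕ} {Φ : Type} [Fintype Φ] [DecidableEq Φ] (A : Arrangement k Φ)

/-- The Euler characteristic of the covering divided by its degree: the Euler characteristic of the complement of the
curve, plus the one of its smooth points, divided by the ramification orders, plus the number of its double
points, divided by the products of the two orders. The curve is the total transform of the union of the symplectic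
lines on the blow-up of the points of multiplicity at least three of the complex projective plane; the order is `n`
over the lines and `m P` over the exceptional curve of the point `P`. -/
noncomputable def Arrangement.orbE (n : ℕ) (m : Finset Φ → ℕ) : ℚ :=
  (3 - 2 * k + ∑ P ∈ A.points, ((A.mul P : ℚ) - 1)) + (2 * k - ∑ P ∈ A.points, (A.mul P : ℚ)) / n +
    ∑ P ∈ A.points, if A.mul P = 2 then 1 / (n : ℚ) ^ 2 else
      (2 - (A.mul P : ℚ)) / m P + (A.mul P : ℚ) / (n * m P)

/-- The number `c_1 ^ 2` of the covering divided by its degree: the square of
`K + ∑ (1 - 1 / n) L + ∑ (1 - 1 / m P) E` on the blow-up of the points of multiplicity at least three. -/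
noncomputable def Arrangement.orbK (n : ℕ) (m : Finset Φ → ℕ) : ℚ :=
  ((1 - 1 / (n : ℚ)) * k - 3) ^ 2 -
    ∑ P ∈ A.points, if A.mul P = 2 then (0 : ℚ) else (2 - 1 / (m P : ℚ) - (1 - 1 / (n : ℚ)) * A.mul P) ^ 2

/-- `e` and `σ` are the Euler characteristic and the signature of a closed symplectic four-manifold which is a Galois
covering of the complex projective plane, branched along the symplectic lines of the arrangement, ramified of order
`n` over each of them and of order `m P` over the exceptional curve of the blow-up of each point `P` of
multiplicity at least three; `d` is the degree. -/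
def Arrangement.OrbCovering (n : ℕ) (m : Finset Φ → ℕ) (e σ : ℤ) : Prop :=
  ∃ d : ℕ, 0 < d ∧ (e : ℚ) = d * A.orbE n m ∧ 2 * (e : ℚ) + 3 * σ = d * A.orbK n m

/-- The covering is ramified over all exceptional curves, and the orbifold Euler characteristics
`1 + 1 / m P - (1 - 1 / n) * (k - mul P)` of the lines through the points `P` of multiplicity at least three are not
positive. (If one of them is positive then the covering is ruled. None is positive if `mul P ≤ k - 3`.) -/
def Arrangement.NotRuled (n : ℕ) (m : Finset Φ → ℕ) : Prop :=
  ∀ P ∈ A.points, 3 ≤ A.mul P → 2 ≤ m P ∧ 1 + 1 / (m P : ℚ) ≤ (1 - 1 / (n : ℚ)) * ((k : ℚ) - A.mul P)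

/-- The arrangement is combinatorially the complete quadrilateral, and `1 / m = (1 - 3 / n) / 2`. -/
def Arrangement.Quad (n : ℕ) (m : Finset Φ → ℕ) : Prop :=
  k = 6 ∧ A.t 3 = 4 ∧ ∀ P ∈ A.points, A.mul P = 3 → n * m P = 2 * n + 3 * m P

/-- The arrangement has the numbers of points of the reflection arrangement `B_3`, and the orders are `4`, `8`, `2`. -/
def Arrangement.BThree (n : ℕ) (m : Finset Φ → ℕ) : Prop :=
  k = 9 ∧ A.t 3 = 4 ∧ A.t 4 = 3 ∧ n = 4 ∧ (∀ P ∈ A.points, A.mul P = 3 → m P = 8) ∧
    ∀ P ∈ A.points, A.mul P = 4 → m P = 2

end Pool.Agent.H875.PL
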