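import Mathlib

/-!
# Two configurations of lines

The complete quadrilateral and the reflection arrangement `B_3` are determined by the numbers of their multiple
points, and they are realized by lines with integral coordinates.
-/

set_option autoImplicit false

namespace Pool.Agent.H875.PL

open Finset

/-- The determinant of three vectors. -/
def det3 (u v w : Fin 3 → ℤ) : ℤ :=
  u 0 * (v 1 * w 2 - v 2 * w 1) - u 1 * (v 0 * w 2 - v 2 * w 0) + u 2 * (v 0 * w 1 - v 1 * w 0)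

/-- The two vectors are not proportional. -/
def indep (u v : Fin 3 → ℤ) : Prop :=
  u 0 * v 1 ≠ u 1 * v 0 ∨ u 0 * v 2 ≠ u 2 * v 0 ∨ u 1 * v 2 ≠ u 2 * v 1

instance (u v : Fin 3 → ℤ) : Decidable (indep u v) := by unfold indep; infer_instance

/-! ### The complete quadrilateral -/

def p6 : Fin 6 → Fin 4 := ![0, 0, 0, 1, 1, 2]
def q6 : Fin 6 → Fin 4 := ![1, 2, 3, 2, 3, 3]

/-- The lines through two of the points `(1,0,0)`, `(0,1,0)`, `(0,0,1)`, `(1,1,1)`. -/
def l6 : Fin 6 → Fin 3 → ℤ := ![![0, 0, 1], ![0, 1, 0], ![0, 1, -1], ![1, 0, 0], ![1, 0, -1], ![1, -1, 0]]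

theorem l6_indep : ∀ i j : Fin 6, i ≠ j → indep (l6 i) (l6 j) := by decide

theorem l6_det : ∀ i j l : Fin 6, i ≠ j → j ≠ l → i ≠ l →
    ((∃ a : Fin 4, (p6 i = a ∨ q6 i = a) ∧ (p6 j = a ∨ q6 j = a) ∧ (p6 l = a ∨ q6 l = a)) ↔
      det3 (l6 i) (l6 j) (l6 l) = 0) := by decide

theorem pq6 : ∀ i j : Fin 6, i ≠ j → ∃ c : Fin 4, (c = p6 j ∨ c = q6 j) ∧ c ≠ p6 i ∧ c ≠ q6 i := by decide

theorem pq6_ne : ∀ i : Fin 6, p6 i ≠ q6 i := by decide

theorem card6 : ∀ a : Fin 4, (univ.filter fun i : Fin 6 => p6 i = a ∨ q6 i = a).card = 3 := by decide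

theorem six (T : Fin 4 → Finset (Fin 6)) (h3 : ∀ a, (T a).card = 3)
    (h1 : ∀ a b, a ≠ b → (T a ∩ T b).card ≤ 1) :
    ∃ L : Fin 6 → Fin 3 → ℤ, (∀ i j, i ≠ j → indep (L i) (L j)) ∧ ∀ i j l, i ≠ j → j ≠ l → i ≠ l →
      ((∃ a, i ∈ T a ∧ j ∈ T a ∧ l ∈ T a) ↔ det3 (L i) (L j) (L l) = 0) := by
  have hthree : ∀ a b c, a ≠ b → a ≠ c → b ≠ c → (T a ∩ T b).card = 1 ∧
      ∀ x, x ∈ T a → x ∈ T b → x ∈ T c → False := by
    intro a b c hab hac hbc
    have e1 := card_union_add_card_inter (T a) (T b)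
    have e2 := card_union_add_card_inter (T a ∪ T b) (T c)
    have e3 : ((T a ∪ T b) ∩ T c).card ≤ (T a ∩ T c).card + (T b ∩ T c).card := by
      rw [union_inter_distrib_right]
      exact card_union_le _ _
    have e4 := card_le_univ ((T a ∪ T b) ∪ T c)
    rw [Fintype.card_fin] at e4
    have f1 := h1 a b hab
    have f2 := h1 a c hac
    have f3 := h1 b c hbc
    rw [h3, h3] at e1
    rw [h3] at e2
    refine ⟨by omega, fun x ha hb hc => ?_⟩
    have e5 : ((T a ∪ T b) ∩ T c).card ≤ 1 := by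
      rw [card_le_one]
      intro y hy z hz
      have key : ∀ y, y ∈ (T a ∪ T b) ∩ T c → y = x := by
        intro y hy
        rw [mem_inter, mem_union] at hy
        rcases hy.1 with h | h
        · exact card_le_one.1 f2 y (mem_inter.2 ⟨h, hy.2⟩) x (mem_inter.2 ⟨ha, hc⟩)
        · exact card_le_one.1 f3 y (mem_inter.2 ⟨h, hy.2⟩) x (mem_inter.2 ⟨hb, hc⟩)
      rw [key y hy, key z hz]
    omega
  have hex : ∀ i : Fin 6, ∃ x, x ∈ T (p6 i) ∧ x ∈ T (q6 i) := by
    intro i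
    obtain ⟨c, hc1, hc2⟩ : ∃ c : Fin 4, p6 i ≠ c ∧ q6 i ≠ c := by
      revert i; decide
    have h := (hthree (p6 i) (q6 i) c (pq6_ne i) hc1 hc2).1
    obtain ⟨x, hx⟩ := card_pos.1 (by omega : 0 < (T (p6 i) ∩ T (q6 i)).card)
    exact ⟨x, (mem_inter.1 hx).1, (mem_inter.1 hx).2⟩
  choose f hf1 hf2 using hex
  have hinj : Function.Injective f := by
    intro i j hij
    by_contra hne
    obtain ⟨c, hc, hc1, hc2⟩ := pq6 i j hne
    have hfc : f i ∈ T c := by
      rw [hij]
      rcases hc with rfl | rfl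
      · exact hf1 j
      · exact hf2 j
    exact (hthree (p6 i) (q6 i) c (pq6_ne i) hc1.symm hc2.symm).2 (f i) (hf1 i) (hf2 i) hfc
  have hbij : Function.Bijective f := Finite.injective_iff_bijective.1 hinj
  have hT : ∀ a, (univ.filter fun i : Fin 6 => p6 i = a ∨ q6 i = a).image f = T a := by
    intro a
    apply eq_of_subset_of_card_le
    · intro x hx
      rw [mem_image] at hx
      obtain ⟨i, hi, rfl⟩ := hx
      rw [mem_filter] at hi
      rcases hi.2 with h | h
      · rw [← h]; exact hf1 i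
      · rw [← h]; exact hf2 i
    · rw [h3, card_image_of_injective _ hinj, card6]
  have hmem : ∀ i a, f i ∈ T a ↔ (p6 i = a ∨ q6 i = a) := by
    intro i a
    rw [← hT a, mem_image]
    constructor
    · rintro ⟨j, hj, hji⟩
      rw [← hinj hji]
      exact (mem_filter.1 hj).2
    · intro h
      exact ⟨i, mem_filter.2 ⟨mem_univ _, h⟩, rfl⟩
  let g := (Equiv.ofBijective f hbij).symm
  have hg : ∀ x, f (g x) = x := fun x => (Equiv.ofBijective f hbij).apply_symm_apply x
  refine ⟨fun x => l6 (g x), fun i j hij => l6_indep _ _ (fun h => hij (g.injective h)), fun i j l hij hjl hil => ?_⟩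
  rw [← l6_det (g i) (g j) (g l) (fun h => hij (g.injective h)) (fun h => hjl (g.injective h))
    (fun h => hil (g.injective h))]
  refine exists_congr fun a => ?_
  rw [← hmem, ← hmem, ← hmem, hg, hg, hg]

end Pool.Agent.H875.PL
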