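import Pool.Agent.H875.PL.Real

/-!
# The reflection arrangement `B_3`
-/

set_option autoImplicit false

namespace Pool.Agent.H875.PL

open Finset

/-- The three quadruple points: the sides of the triangle are `0`, `1`, `2`. -/
def Q9 : Fin 3 → Finset (Fin 9) := ![{0, 1, 3, 4}, {0, 2, 5, 6}, {1, 2, 7, 8}]

/-- The two possibilities for the four triple points. -/
def C9 : Bool → Finset (Finset (Fin 9))
  | true => {{3, 5, 7}, {3, 6, 8}, {4, 5, 8}, {4, 6, 7}}
  | false => {{3, 5, 8}, {3, 6, 7}, {4, 5, 7}, {4, 6, 8}}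

/-- The lines `x = 0`, `y = 0`, `z = 0`, `x = y`, `x = -y`, ... -/
def l9 : Bool → Fin 9 → Fin 3 → ℤ
  | true => ![![1, 0, 0], ![0, 1, 0], ![0, 0, 1], ![1, -1, 0], ![1, 1, 0], ![1, 0, -1], ![1, 0, 1], ![0, 1, -1],
      ![0, 1, 1]]
  | false => ![![1, 0, 0], ![0, 1, 0], ![0, 0, 1], ![1, -1, 0], ![1, 1, 0], ![1, 0, -1], ![1, 0, 1], ![0, 1, 1],
      ![0, 1, -1]]

theorem l9_indep : ∀ c : Bool, ∀ i j : Fin 9, i ≠ j → indep (l9 c i) (l9 c j) := by decide

set_option maxRecDepth 100000 in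
theorem l9_det : ∀ c : Bool, ∀ i j l : Fin 9, i ≠ j → j ≠ l → i ≠ l →
    (((∃ a : Fin 3, i ∈ Q9 a ∧ j ∈ Q9 a ∧ l ∈ Q9 a) ∨ ∃ S ∈ C9 c, i ∈ S ∧ j ∈ S ∧ l ∈ S) ↔
      det3 (l9 c i) (l9 c j) (l9 c l) = 0) := by decide +kernel

set_option maxRecDepth 100000 in
theorem eight : ∀ x y z : Fin 9, x ≠ y → x ≠ z → y ≠ z →
    (∀ b : Fin 3, (({x, y, z} : Finset (Fin 9)) ∩ Q9 b).card ≤ 1) →
    ∃ c : Bool, ({x, y, z} : Finset (Fin 9)) ∈ C9 c := by decide +kernel

set_option maxRecDepth 100000 in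
theorem same9 : ∀ c d : Bool, ∀ S ∈ C9 c, ∀ S' ∈ C9 (!c), ∀ S'' ∈ C9 d, (S ∩ S').card ≤ 1 →
    1 < (S ∩ S'').card ∨ 1 < (S' ∩ S'').card := by decide +kernel

theorem fourth : ∀ a : Fin 4, ∃ b : Fin 4, (0 : Fin 4) ≠ b ∧ a ≠ b := by decide

theorem card_C9 : ∀ c : Bool, (C9 c).card = 4 := by decide

theorem pattern9 : ∀ i j : Fin 9, i ≠ j → (∀ a, i ∈ Q9 a ↔ j ∈ Q9 a) →
    (i = 3 ∧ j = 4) ∨ (i = 4 ∧ j = 3) ∨ (i = 5 ∧ j = 6) ∨ (i = 6 ∧ j = 5) ∨ (i = 7 ∧ j = 8) ∨ (i = 8 ∧ j = 7) := by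
  decide

theorem nine (Q : Fin 3 → Finset (Fin 9)) (T : Fin 4 → Finset (Fin 9)) (hQ : ∀ a, (Q a).card = 4)
    (hT : ∀ a, (T a).card = 3) (hQQ : ∀ a b, a ≠ b → (Q a ∩ Q b).card ≤ 1)
    (hTT : ∀ a b, a ≠ b → (T a ∩ T b).card ≤ 1) (hTQ : ∀ a b, (T a ∩ Q b).card ≤ 1) :
    ∃ L : Fin 9 → Fin 3 → ℤ, (∀ i j, i ≠ j → indep (L i) (L j)) ∧ ∀ i j l, i ≠ j → j ≠ l → i ≠ l →
      (((∃ a, i ∈ Q a ∧ j ∈ Q a ∧ l ∈ Q a) ∨ ∃ a, i ∈ T a ∧ j ∈ T a ∧ l ∈ T a) ↔
        det3 (L i) (L j) (L l) = 0) := by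
  have hthree : ∀ a b c, a ≠ b → a ≠ c → b ≠ c → (Q a ∩ Q b).card = 1 ∧
      (Q c \ (Q a ∪ Q b)).card = 2 ∧ ∀ x, x ∈ Q a → x ∈ Q b → x ∈ Q c → False := by
    intro a b c hab hac hbc
    have e1 := card_union_add_card_inter (Q a) (Q b)
    have e2 := card_union_add_card_inter (Q a ∪ Q b) (Q c)
    have e3 : ((Q a ∪ Q b) ∩ Q c).card ≤ (Q a ∩ Q c).card + (Q b ∩ Q c).card := by
      rw [union_inter_distrib_right]
      exact card_union_le _ _
    have e4 := card_le_univ ((Q a ∪ Q b) ∪ Q c)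
    rw [Fintype.card_fin] at e4
    have f1 := hQQ a b hab
    have f2 := hQQ a c hac
    have f3 := hQQ b c hbc
    rw [hQ, hQ] at e1
    rw [hQ] at e2
    have e6 := card_sdiff_add_card_inter (Q c) (Q a ∪ Q b)
    rw [inter_comm, hQ] at e6
    refine ⟨by omega, by omega, fun x ha hb hc => ?_⟩
    have e5 : ((Q a ∪ Q b) ∩ Q c).card ≤ 1 := by
      rw [card_le_one]
      intro y hy z hz
      have key : ∀ y, y ∈ (Q a ∪ Q b) ∩ Q c → y = x := by
        intro y hy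
        rw [mem_inter, mem_union] at hy
        rcases hy.1 with h | h
        · exact card_le_one.1 f2 y (mem_inter.2 ⟨h, hy.2⟩) x (mem_inter.2 ⟨ha, hc⟩)
        · exact card_le_one.1 f3 y (mem_inter.2 ⟨h, hy.2⟩) x (mem_inter.2 ⟨hb, hc⟩)
      rw [key y hy, key z hz]
    omega
  -- the sides
  have hside : ∀ a b c, a ≠ b → a ≠ c → b ≠ c → ∃ x, x ∈ Q a ∧ x ∈ Q b ∧ x ∉ Q c := by
    intro a b c hab hac hbc
    have h := hthree a b c hab hac hbc
    obtain ⟨x, hx⟩ := card_pos.1 (by omega : 0 < (Q a ∩ Q b).card)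
    rw [mem_inter] at hx
    exact ⟨x, hx.1, hx.2, fun hc => h.2.2 x hx.1 hx.2 hc⟩
  have hpriv : ∀ a b c, a ≠ b → a ≠ c → b ≠ c → ∃ x y, x ≠ y ∧ x ∈ Q c ∧ x ∉ Q a ∧ x ∉ Q b ∧
      y ∈ Q c ∧ y ∉ Q a ∧ y ∉ Q b := by
    intro a b c hab hac hbc
    have h := (hthree a b c hab hac hbc).2.1
    obtain ⟨x, y, hxy, he⟩ := card_eq_two.1 h
    have hx : x ∈ Q c \ (Q a ∪ Q b) := by rw [he]; simp
    have hy : y ∈ Q c \ (Q a ∪ Q b) := by rw [he]; simp
    simp only [mem_sdiff, mem_union, not_or] at hx hy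
    exact ⟨x, y, hxy, hx.1, hx.2.1, hx.2.2, hy.1, hy.2.1, hy.2.2⟩
  obtain ⟨s0, s00, s01, s02⟩ := hside 0 1 2 (by decide) (by decide) (by decide)
  obtain ⟨s1, s10, s12, s11⟩ := hside 0 2 1 (by decide) (by decide) (by decide)
  obtain ⟨s2, s21, s22, s20⟩ := hside 1 2 0 (by decide) (by decide) (by decide)
  obtain ⟨a1, a2, ha, a10, a11, a12, a20, a21, a22⟩ := hpriv 1 2 0 (by decide) (by decide) (by decide)
  obtain ⟨b1, b2, hb, b11, b10, b12, b21, b20, b22⟩ := hpriv 0 2 1 (by decide) (by decide) (by decide)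
  obtain ⟨c1, c2, hc, c12, c10, c11, c22, c20, c21⟩ := hpriv 0 1 2 (by decide) (by decide) (by decide)
  let f : Fin 9 → Fin 9 := ![s0, s1, s2, a1, a2, b1, b2, c1, c2]
  have hmem : ∀ i a, f i ∈ Q a ↔ i ∈ Q9 a := by
    intro i a
    fin_cases i <;> fin_cases a <;> simp [f, Q9, *]
  have hinj : Function.Injective f := by
    intro i j hij
    by_contra hne
    have h := pattern9 i j hne (fun a => by rw [← hmem, ← hmem, hij])
    rcases h with ⟨rfl, rfl⟩ | ⟨rfl, rfl⟩ | ⟨rfl, rfl⟩ | ⟨rfl, rfl⟩ | ⟨rfl, rfl⟩ | ⟨rfl, rfl⟩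
    · exact ha hij
    · exact ha hij.symm
    · exact hb hij
    · exact hb hij.symm
    · exact hc hij
    · exact hc hij.symm
  have hbij : Function.Bijective f := Finite.injective_iff_bijective.1 hinj
  let g := (Equiv.ofBijective f hbij).symm
  have hg : ∀ x, f (g x) = x := fun x => (Equiv.ofBijective f hbij).apply_symm_apply x
  have hQg : ∀ b, (Q b).image g = Q9 b := by
    intro b
    ext i
    rw [mem_image]
    constructor
    · rintro ⟨x, hx, rfl⟩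
      rw [← hmem, hg]
      exact hx
    · intro hi
      exact ⟨f i, (hmem i b).2 hi, (Equiv.ofBijective f hbij).symm_apply_apply i⟩
  set T' : Fin 4 → Finset (Fin 9) := fun a => (T a).image g with hT'
  have hT'c : ∀ a, (T' a).card = 3 := fun a => by
    rw [hT', card_image_of_injective _ g.injective, hT]
  have hT'T' : ∀ a b, a ≠ b → (T' a ∩ T' b).card ≤ 1 := fun a b hab => by
    rw [hT']
    simp only
    rw [← image_inter _ _ g.injective, card_image_of_injective _ g.injective]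
    exact hTT a b hab
  have hT'Q : ∀ a b, (T' a ∩ Q9 b).card ≤ 1 := fun a b => by
    rw [hT', ← hQg]
    simp only
    rw [← image_inter _ _ g.injective, card_image_of_injective _ g.injective]
    exact hTQ a b
  have h8 : ∀ a, ∃ c : Bool, T' a ∈ C9 c := by
    intro a
    obtain ⟨x, y, z, hxy, hxz, hyz, h⟩ := card_eq_three.1 (hT'c a)
    obtain ⟨c, hc⟩ := eight x y z hxy hxz hyz (fun b => by rw [← h]; exact hT'Q a b)
    exact ⟨c, by rw [h]; exact hc⟩
  obtain ⟨c, hc0⟩ := h8 0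
  have hall : ∀ a, T' a ∈ C9 c := by
    intro a
    by_cases ha0 : a = 0
    · rw [ha0]; exact hc0
    · obtain ⟨d, hd⟩ := h8 a
      by_cases hdc : d = c
      · rw [← hdc]; exact hd
      · have hd' : d = !c := by revert hdc; cases c <;> cases d <;> simp
        rw [hd'] at hd
        obtain ⟨b, hb0, hba⟩ := fourth a
        obtain ⟨d', hb'⟩ := h8 b
        have h2 := hT'T' 0 a (fun h => ha0 h.symm)
        have h3 := hT'T' 0 b hb0
        have h4 := hT'T' a b hba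
        rcases same9 c d' _ hc0 _ hd _ hb' h2 with h | h <;> omega
  have hTinj : Function.Injective T' := by
    intro a b hab
    by_contra hne
    have h := hT'T' a b hne
    rw [hab, inter_self, hT'c] at h
    omega
  have himg : univ.image T' = C9 c := by
    apply eq_of_subset_of_card_le
    · intro S hS
      rw [mem_image] at hS
      obtain ⟨a, -, rfl⟩ := hS
      exact hall a
    · rw [card_C9, card_image_of_injective _ hTinj, card_univ, Fintype.card_fin]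
  refine ⟨fun x => l9 c (g x), fun i j hij => l9_indep c _ _ (fun h => hij (g.injective h)),
    fun i j l hij hjl hil => ?_⟩
  rw [← l9_det c (g i) (g j) (g l) (fun h => hij (g.injective h)) (fun h => hjl (g.injective h))
    (fun h => hil (g.injective h))]
  refine or_congr ?_ ?_
  · refine exists_congr fun a => ?_
    rw [← hmem, ← hmem, ← hmem, hg, hg, hg]
  · rw [← himg]
    constructor
    · rintro ⟨a, h1, h2, h3⟩
      exact ⟨T' a, mem_image_of_mem _ (mem_univ _), mem_image_of_mem _ h1, mem_image_of_mem _ h2,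
        mem_image_of_mem _ h3⟩
    · rintro ⟨S, hS, h1, h2, h3⟩
      rw [mem_image] at hS
      obtain ⟨a, -, rfl⟩ := hS
      have key : ∀ x, g x ∈ T' a → x ∈ T a := by
        intro x hx
        obtain ⟨y, hy, hyx⟩ := mem_image.1 hx
        rw [← g.injective hyx]
        exact hy
      exact ⟨a, key _ h1, key _ h2, key _ h3⟩

end Pool.Agent.H875.PL
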