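import Pool.Agent.H875.PL.Orb3
import Pool.Agent.H875.PL.Real9

/-!
# Coverings with `3 σ = e`: the arrangement is realized by lines with integral coordinates
-/

set_option autoImplicit false
set_option linter.unusedSectionVars false

namespace Pool.Agent.H875.PL

open Finset Function

variable {k : ℕ} {Φ : Type} [Fintype Φ] [DecidableEq Φ] (A : Arrangement k Φ)

/-- The pseudolines `i`, `j`, `l` have a common point. -/
def Arrangement.Conc (i j l : Fin k) : Prop :=
  ∃ P ∈ A.points, i ∈ P.image A.line ∧ j ∈ P.image A.line ∧ l ∈ P.image A.line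

/-- The combinatorics of the arrangement is the one of an arrangement of lines of the projective plane which are
given by linear forms with integral coefficients. -/
def Arrangement.Realized : Prop :=
  ∃ L : Fin k → Fin 3 → ℤ, (∀ i j, i ≠ j → indep (L i) (L j)) ∧
    ∀ i j l, i ≠ j → j ≠ l → i ≠ l → (A.Conc i j l ↔ det3 (L i) (L j) (L l) = 0)

namespace Arrangement

theorem three_le_of_conc {P : Finset Φ} {i j l : Fin k} (hij : i ≠ j) (hjl : j ≠ l) (hil : i ≠ l)
    (hi : i ∈ P.image A.line) (hj : j ∈ P.image A.line) (hl : l ∈ P.image A.line) : 3 ≤ A.mul P := by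
  have h : ({i, j, l} : Finset (Fin k)) ⊆ P.image A.line := by
    intro x hx
    simp only [mem_insert, mem_singleton] at hx
    rcases hx with rfl | rfl | rfl
    · exact hi
    · exact hj
    · exact hl
  have h3 : ({i, j, l} : Finset (Fin k)).card = 3 := card_eq_three.2 ⟨i, j, l, hij, hil, hjl, rfl⟩
  rw [← h3]
  exact card_le_card h

/-- The points of multiplicity `r`. -/
theorem exists_enum {r s : ℕ} (h : A.t r = s) : ∃ T : Fin s → Finset Φ, Injective T ∧
    (∀ a, T a ∈ A.points ∧ A.mul (T a) = r) ∧ ∀ P ∈ A.points, A.mul P = r → ∃ a, T a = P := by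
  have e := (A.points.filter fun P => A.mul P = r).equivFinOfCardEq h
  refine ⟨fun a => (e.symm a).1, fun a b hab => ?_, fun a => ?_, fun P hP hr => ?_⟩
  · exact e.symm.injective (Subtype.ext hab)
  · exact mem_filter.1 (e.symm a).2
  · exact ⟨e ⟨P, mem_filter.2 ⟨hP, hr⟩⟩, by simp⟩

theorem inter_le {P Q : Finset Φ} (hP : P ∈ A.points) (hQ : Q ∈ A.points) (hPQ : P ≠ Q) :
    (P.image A.line ∩ Q.image A.line).card ≤ 1 := by
  rw [card_le_one]
  intro i hi j hj
  by_contra hij
  rw [mem_inter] at hi hj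
  exact hPQ (A.unique hij hP hQ hi.1 hj.1 hi.2 hj.2)

/-- The pairs of pseudolines through the points of multiplicity three and four and one more point. -/
theorem pairs_le {P : Finset Φ} (hP : P ∈ A.points) (h3 : A.mul P ≠ 3) (h4 : A.mul P ≠ 4) :
    (A.t 3 : ℤ) * 6 + A.t 4 * 12 + (A.mul P : ℤ) * (A.mul P - 1) ≤ k * (k - 1) := by
  rw [← A.pairs]
  have h1 : ∑ Q ∈ A.points, ((if A.mul Q = 3 then (6 : ℤ) else 0) + (if A.mul Q = 4 then (12 : ℤ) else 0) +
      if Q = P then (A.mul P : ℤ) * (A.mul P - 1) else 0) ≤ ∑ Q ∈ A.points, ((A.mul Q : ℤ) * (A.mul Q - 1)) := by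
    refine sum_le_sum fun Q hQ => ?_
    have h2 : (2 : ℤ) ≤ A.mul Q := by exact_mod_cast A.two_le_mul hQ
    by_cases hQP : Q = P
    · subst hQP
      rw [if_neg h3, if_neg h4, if_pos rfl]
      linarith
    · rw [if_neg hQP]
      by_cases h3' : A.mul Q = 3
      · rw [if_pos h3', if_neg (by omega), h3']
        norm_num
      · rw [if_neg h3']
        by_cases h4' : A.mul Q = 4
        · rw [if_pos h4', h4']
          norm_num
        · rw [if_neg h4']
          nlinarith
  rw [sum_add_distrib, sum_add_distrib, A.t_cast_sum 6 3, A.t_cast_sum 12 4, sum_ite_eq' _ P, if_pos hP] at h1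
  exact h1

theorem realized_three {n : ℕ} {m : Finset Φ → ℕ} (h3 : k = 3) (hm : A.NotRuled n m) : A.Realized := by
  subst h3
  refine ⟨![![1, 0, 0], ![0, 1, 0], ![0, 0, 1]], by decide, fun i j l hij hjl hil => ?_⟩
  have h1 : ¬ A.Conc i j l := by
    rintro ⟨P, hP, hi, hj, hl⟩
    have h := A.three_le_of_conc hij hjl hil hi hj hl
    have hle : A.mul P ≤ 3 := by
      have := card_le_univ (P.image A.line)
      rwa [Fintype.card_fin] at this
    have he : A.mul P = 3 := le_antisymm hle h
    have h2 := (hm P hP h).2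
    rw [he] at h2
    have hy : 0 ≤ 1 / (m P : ℚ) := by positivity
    norm_num at h2
    have hy' : 0 ≤ ((m P : ℚ))⁻¹ := by positivity
    linarith
  have h2 : ∀ i j l : Fin 3, i ≠ j → j ≠ l → i ≠ l →
      det3 ((![![1, 0, 0], ![0, 1, 0], ![0, 0, 1]] : Fin 3 → Fin 3 → ℤ) i)
        ((![![1, 0, 0], ![0, 1, 0], ![0, 0, 1]] : Fin 3 → Fin 3 → ℤ) j)
        ((![![1, 0, 0], ![0, 1, 0], ![0, 0, 1]] : Fin 3 → Fin 3 → ℤ) l) ≠ 0 := by decide
  exact ⟨fun h => absurd h h1, fun h => absurd h (h2 i j l hij hjl hil)⟩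

theorem realized_six (h6 : k = 6) (h4 : A.t 3 = 4) : A.Realized := by
  subst h6
  obtain ⟨T, hT1, hT2, hT3⟩ := A.exists_enum h4
  obtain ⟨L, hL1, hL2⟩ := six (fun a => (T a).image A.line) (fun a => (hT2 a).2)
    (fun a b hab => A.inter_le (hT2 a).1 (hT2 b).1 (fun h => hab (hT1 h)))
  refine ⟨L, hL1, fun i j l hij hjl hil => ?_⟩
  rw [← hL2 i j l hij hjl hil]
  constructor
  · rintro ⟨P, hP, hi, hj, hl⟩
    have h := A.three_le_of_conc hij hjl hil hi hj hl
    have h3 : A.mul P = 3 := by
      by_contra hne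
      by_cases h4' : A.mul P = 4
      · have hp : 1 ≤ A.t 4 := by
          unfold t
          exact card_pos.2 ⟨P, mem_filter.2 ⟨hP, h4'⟩⟩
        obtain ⟨Q, hQ, hQ3, hQ4⟩ : ∃ Q ∈ A.points, A.mul Q ≠ 3 ∧ A.mul Q ≠ 4 := by
          by_contra hcon'
          have hcon : ∀ Q ∈ A.points, A.mul Q ≠ 3 → A.mul Q = 4 := fun Q hQ h3 =>
            by_contra fun h4 => hcon' ⟨Q, hQ, h3, h4⟩
          have hpairs := A.pairs
          have : ∑ Q ∈ A.points, ((A.mul Q : ℤ) * (A.mul Q - 1)) =
              ∑ Q ∈ A.points, ((if A.mul Q = 3 then (6 : ℤ) else 0) + (if A.mul Q = 4 then (12 : ℤ) else 0)) := by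
            refine sum_congr rfl fun Q hQ => ?_
            by_cases h3' : A.mul Q = 3
            · rw [if_pos h3', if_neg (by omega), h3']
              norm_num
            · rw [if_neg h3', if_pos (hcon Q hQ h3'), hcon Q hQ h3']
              norm_num
          rw [this, sum_add_distrib, A.t_cast_sum 6 3, A.t_cast_sum 12 4, h4] at hpairs
          push_cast at hpairs
          omega
        have h5 := A.pairs_le hQ hQ3 hQ4
        have h2 : (2 : ℤ) ≤ A.mul Q := by exact_mod_cast A.two_le_mul hQ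
        have hp' : (1 : ℤ) ≤ A.t 4 := by exact_mod_cast hp
        rw [h4] at h5
        push_cast at h5
        nlinarith
      · have h5 := A.pairs_le hP hne h4'
        have h6 : (5 : ℤ) ≤ A.mul P := by
          have : 5 ≤ A.mul P := by omega
          exact_mod_cast this
        have ht : (0 : ℤ) ≤ A.t 4 := by positivity
        rw [h4] at h5
        push_cast at h5
        nlinarith
    obtain ⟨a, ha⟩ := hT3 P hP h3
    exact ⟨a, by simp only [ha]; exact hi, by simp only [ha]; exact hj, by simp only [ha]; exact hl⟩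
  · rintro ⟨a, hi, hj, hl⟩
    exact ⟨T a, (hT2 a).1, hi, hj, hl⟩

theorem realized_nine (h9 : k = 9) (h3 : A.t 3 = 4) (h4 : A.t 4 = 3) : A.Realized := by
  subst h9
  obtain ⟨T, hT1, hT2, hT3⟩ := A.exists_enum h3
  obtain ⟨Q, hQ1, hQ2, hQ3⟩ := A.exists_enum h4
  obtain ⟨L, hL1, hL2⟩ := nine (fun a => (Q a).image A.line) (fun a => (T a).image A.line)
    (fun a => (hQ2 a).2) (fun a => (hT2 a).2)
    (fun a b hab => A.inter_le (hQ2 a).1 (hQ2 b).1 (fun h => hab (hQ1 h)))
    (fun a b hab => A.inter_le (hT2 a).1 (hT2 b).1 (fun h => hab (hT1 h)))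
    (fun a b => A.inter_le (hT2 a).1 (hQ2 b).1 (fun h => by
      have h1 := (hT2 a).2
      have h2 := (hQ2 b).2
      rw [h] at h1
      omega))
  refine ⟨L, hL1, fun i j l hij hjl hil => ?_⟩
  rw [← hL2 i j l hij hjl hil]
  constructor
  · rintro ⟨P, hP, hi, hj, hl⟩
    have h := A.three_le_of_conc hij hjl hil hi hj hl
    by_cases h3' : A.mul P = 3
    · obtain ⟨a, ha⟩ := hT3 P hP h3'
      right
      exact ⟨a, by simp only [ha]; exact hi, by simp only [ha]; exact hj, by simp only [ha]; exact hl⟩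
    · by_cases h4' : A.mul P = 4
      · obtain ⟨a, ha⟩ := hQ3 P hP h4'
        left
        exact ⟨a, by simp only [ha]; exact hi, by simp only [ha]; exact hj, by simp only [ha]; exact hl⟩
      · exfalso
        have h5 := A.pairs_le hP h3' h4'
        have h6 : (5 : ℤ) ≤ A.mul P := by
          have : 5 ≤ A.mul P := by omega
          exact_mod_cast this
        rw [h3, h4] at h5
        push_cast at h5
        nlinarith
  · rintro (⟨a, hi, hj, hl⟩ | ⟨a, hi, hj, hl⟩)
    · exact ⟨Q a, (hQ2 a).1, hi, hj, hl⟩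
    · exact ⟨T a, (hT2 a).1, hi, hj, hl⟩

/-- **If `3 σ = e` then the arrangement is realized by lines.** -/
theorem realized_of_eq (hk : 3 ≤ k) {n : ℕ} {m : Finset Φ → ℕ} (hn : 2 ≤ n) (hm : A.NotRuled n m)
    {e σ : ℤ} (h : A.OrbCovering n m e σ) (h0 : 3 * σ = e) : A.Realized := by
  rcases (A.orb_bmy_all hk hn hm h).2.1 h0 with h | h | h
  · exact A.realized_three h hm
  · exact A.realized_six h.1 h.2.1
  · exact A.realized_nine h.1 h.2.1 h.2.2.1

end Arrangement

end Pool.Agent.H875.PL
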