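import Pool.Agent.H875.PL.Orb

/-!
# Sums of squares over the pseudolines
-/

set_option autoImplicit false
set_option linter.unusedSectionVars false

namespace Pool.Agent.H875.PL

open Finset Function

variable {k : ℕ} {Φ : Type} [Fintype Φ] [DecidableEq Φ] (A : Arrangement k Φ)

namespace Arrangement

theorem line_sum (M : Finset (Finset Φ)) (w : Finset Φ → ℤ) :
    ∑ i : Fin k, (∑ P ∈ M, if i ∈ P.image A.line then w P else 0) = ∑ P ∈ M, (A.mul P : ℤ) * w P := by
  rw [sum_comm]
  refine sum_congr rfl fun P _ => ?_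
  rw [← sum_filter, sum_const, nsmul_eq_mul, filter_univ_mem]
  rfl

theorem line_squares (M : Finset (Finset Φ)) (hM : M ⊆ A.points) (w : Finset Φ → ℤ) (hw : ∀ P ∈ M, 0 ≤ w P) :
    ∑ i : Fin k, (∑ P ∈ M, if i ∈ P.image A.line then w P else 0) ^ 2 ≤
      ∑ P ∈ M, w P ^ 2 * ((A.mul P : ℤ) - 1) + (∑ P ∈ M, w P) ^ 2 := by
  have e1 : ∀ i : Fin k, (∑ P ∈ M, if i ∈ P.image A.line then w P else 0) ^ 2 =
      ∑ P ∈ M, ∑ Q ∈ M, if i ∈ P.image A.line ∩ Q.image A.line then w P * w Q else 0 := by
    intro i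
    rw [sq, sum_mul_sum]
    refine sum_congr rfl fun P _ => sum_congr rfl fun Q _ => ?_
    by_cases h1 : i ∈ P.image A.line
    · by_cases h2 : i ∈ Q.image A.line
      · rw [if_pos h1, if_pos h2, if_pos (mem_inter.2 ⟨h1, h2⟩)]
      · rw [if_neg h2, mul_zero, if_neg (fun h => h2 (mem_inter.1 h).2)]
    · rw [if_neg h1, zero_mul, if_neg (fun h => h1 (mem_inter.1 h).1)]
  have e2 : ∀ P ∈ M, ∑ i : Fin k, ∑ Q ∈ M, (if i ∈ P.image A.line ∩ Q.image A.line then w P * w Q else 0) =
      ∑ Q ∈ M, ((P.image A.line ∩ Q.image A.line).card : ℤ) * (w P * w Q) := by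
    intro P _
    rw [sum_comm]
    refine sum_congr rfl fun Q _ => ?_
    rw [← sum_filter, sum_const, nsmul_eq_mul, filter_univ_mem]
  rw [sum_congr rfl (fun i _ => e1 i), sum_comm, sum_congr rfl e2]
  calc ∑ P ∈ M, ∑ Q ∈ M, ((P.image A.line ∩ Q.image A.line).card : ℤ) * (w P * w Q)
      ≤ ∑ P ∈ M, ∑ Q ∈ M, ((if P = Q then w P ^ 2 * ((A.mul P : ℤ) - 1) else 0) + w P * w Q) := by
        refine sum_le_sum fun P hP => sum_le_sum fun Q hQ => ?_
        by_cases h : P = Q
        · subst h
          rw [inter_self, if_pos rfl]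
          have : ((P.image A.line).card : ℤ) = A.mul P := rfl
          rw [this]
          exact le_of_eq (by ring)
        · rw [if_neg h, zero_add]
          have hc : (P.image A.line ∩ Q.image A.line).card ≤ 1 := by
            rw [card_le_one]
            intro i hi j hj
            by_contra hij
            rw [mem_inter] at hi hj
            exact h (A.unique hij (hM hP) (hM hQ) hi.1 hj.1 hi.2 hj.2)
          have hc' : ((P.image A.line ∩ Q.image A.line).card : ℤ) ≤ 1 := by exact_mod_cast hc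
          have := mul_nonneg (hw P hP) (hw Q hQ)
          nlinarith
    _ = _ := by
        rw [sum_congr rfl (fun P hP => sum_add_distrib), sum_add_distrib, sq, sum_mul_sum]
        congr 1
        refine sum_congr rfl fun P hP => ?_
        rw [sum_ite_eq, if_pos hP]

end Arrangement

end Pool.Agent.H875.PL
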