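import Pool.Agent.H875.PL.Defs

/-!
# The flags at a vertex
-/

set_option autoImplicit false
set_option linter.unusedSectionVars false

namespace Pool.Agent.H875.PL

open Finset Function

variable {k : ℕ} {Φ : Type} [Fintype Φ] [DecidableEq Φ] (A : Arrangement k Φ)

namespace Arrangement

/-- The vertex of a flag. -/
noncomputable def vert (x : Φ) : Finset Φ := cell A.e A.f x

/-- The face of a flag. -/
noncomputable def face (x : Φ) : Finset Φ := cell A.v A.e x

theorem vert_mem (x : Φ) : A.vert x ∈ A.points := mem_image_of_mem _ (mem_univ _)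

theorem vert_eq_iff {x y : Φ} : A.vert y = A.vert x ↔ y ∈ A.vert x := cell_eq_iff

theorem vert_e (x : Φ) : A.vert (A.e x) = A.vert x := cell_left x

theorem vert_f (x : Φ) : A.vert (A.f x) = A.vert x := cell_right x

theorem vert_pow (x : Φ) (i : ℕ) : A.vert (((A.e * A.f) ^ i) x) = A.vert x := cell_pow x i

theorem mem_points {P : Finset Φ} (hP : P ∈ A.points) : ∃ x, P = A.vert x ∧ x ∈ P := by
  obtain ⟨x, -, rfl⟩ := mem_image.1 hP
  exact ⟨x, rfl, self_mem _ _ _⟩

theorem card_vert (x : Φ) : (A.vert x).card = 4 * A.mult x := by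
  unfold vert
  rw [card_cell A.ee A.ff A.e_ne A.f_ne, A.period]
  ring

theorem mult_eq {x y : Φ} (h : A.vert x = A.vert y) : A.mult x = A.mult y := by
  have h1 := A.card_vert x
  have h2 := A.card_vert y
  rw [h] at h1
  omega

/-- The flag after half a turn. -/
def opp (x : Φ) : Φ := ((A.e * A.f) ^ A.mult x) x

theorem vert_opp (x : Φ) : A.vert (A.opp x) = A.vert x := A.vert_pow x _

theorem line_opp (x : Φ) : A.line (A.opp x) = A.line x := A.cross x

theorem mult_pow (x : Φ) (i : ℕ) : A.mult (((A.e * A.f) ^ i) x) = A.mult x := A.mult_eq (A.vert_pow x i)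

theorem pow_two_mult (x : Φ) : ((A.e * A.f) ^ (2 * A.mult x)) x = x := by
  rw [pow_eq_iterate, ← A.period]
  exact iterate_minimalPeriod

theorem opp_opp (x : Φ) : A.opp (A.opp x) = x := by
  unfold opp
  rw [A.mult_pow, ← Equiv.Perm.mul_apply, ← pow_add]
  have := A.pow_two_mult x
  rw [two_mul] at this
  exact this

/-- The flags at the vertex of `x` on the pseudoline of `x`. -/
theorem four {x y : Φ} (hy : A.vert y = A.vert x) (hl : A.line y = A.line x) :
    y = x ∨ y = A.f x ∨ y = A.opp x ∨ y = A.f (A.opp x) := by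
  have h1 := (mem_cell_iff A.ee A.ff).1 (A.vert_eq_iff.1 hy)
  obtain ⟨i, hi, h⟩ := h1
  rw [A.period] at hi
  have key : A.line (((A.e * A.f) ^ i) x) = A.line x := by
    rcases h with h | h
    · rw [← h]; exact hl
    · rw [← A.line_f, ← h]; exact hl
  have hi2 : i = 0 ∨ i = A.mult x := by
    by_contra hcon
    rw [not_or] at hcon
    rcases lt_or_ge i (A.mult x) with h2 | h2
    · exact A.simple x i (by omega) h2 key
    · have h3 : ((A.e * A.f) ^ i) x = ((A.e * A.f) ^ (i - A.mult x)) (A.opp x) := by
        unfold opp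
        rw [← Equiv.Perm.mul_apply, ← pow_add]
        congr 2
        omega
      have h4 : A.mult (A.opp x) = A.mult x := A.mult_pow x _
      refine A.simple (A.opp x) (i - A.mult x) (by omega) (by omega) ?_
      rw [← h3, key, A.line_opp]
  rcases hi2 with rfl | rfl
  · rcases h with h | h
    · left; simpa using h
    · right; left; simpa using h
  · rcases h with h | h
    · right; right; left; exact h
    · right; right; right; exact h

/-- The pseudolines through the vertex of `x`. -/
theorem image_line (x : Φ) : (A.vert x).image A.line =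
    (range (A.mult x)).image fun i => A.line (((A.e * A.f) ^ i) x) := by
  ext l
  simp only [mem_image, mem_range]
  constructor
  · rintro ⟨y, hy, rfl⟩
    obtain ⟨i, hi, h⟩ := (mem_cell_iff A.ee A.ff).1 hy
    rw [A.period] at hi
    have key : A.line y = A.line (((A.e * A.f) ^ i) x) := by
      rcases h with h | h
      · rw [h]
      · rw [h, A.line_f]
    rcases lt_or_ge i (A.mult x) with h2 | h2
    · exact ⟨i, h2, key.symm⟩
    · refine ⟨i - A.mult x, by omega, ?_⟩
      rw [key, ← A.line_opp (((A.e * A.f) ^ (i - A.mult x)) x)]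
      unfold opp
      rw [A.mult_pow, ← Equiv.Perm.mul_apply, ← pow_add]
      congr 3
      omega
  · rintro ⟨i, hi, rfl⟩
    refine ⟨_, ?_, rfl⟩
    exact A.vert_eq_iff.1 (A.vert_pow x i)

theorem mul_vert (x : Φ) : A.mul (A.vert x) = A.mult x := by
  unfold mul
  rw [A.image_line, card_image_of_injOn, card_range]
  intro i hi j hj h
  simp only [coe_range, Set.mem_Iio] at hi hj
  simp only at h
  by_contra hne
  have aux : ∀ i j : ℕ, i < j → j < A.mult x →
      A.line (((A.e * A.f) ^ i) x) ≠ A.line (((A.e * A.f) ^ j) x) := by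
    intro i j hij hj hh
    have e1 : ((A.e * A.f) ^ j) x = ((A.e * A.f) ^ (j - i)) (((A.e * A.f) ^ i) x) := by
      rw [← Equiv.Perm.mul_apply, ← pow_add]
      congr 2
      omega
    rw [e1] at hh
    exact A.simple _ (j - i) (by omega) (by rw [A.mult_pow]; omega) hh.symm
  rcases lt_or_gt_of_ne hne with h2 | h2
  · exact aux i j h2 hj h
  · exact aux j i h2 hi h.symm

theorem line_mem (x : Φ) : A.line x ∈ (A.vert x).image A.line :=
  mem_image_of_mem _ (self_mem _ _ _)

theorem two_le_mul {P : Finset Φ} (hP : P ∈ A.points) : 2 ≤ A.mul P := by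
  obtain ⟨x, rfl, -⟩ := A.mem_points hP
  rw [A.mul_vert]
  exact A.two_le x

theorem card_point {P : Finset Φ} (hP : P ∈ A.points) : P.card = 4 * A.mul P := by
  obtain ⟨x, rfl, -⟩ := A.mem_points hP
  rw [A.mul_vert, A.card_vert]

/-- Two different pseudolines have only one common point. -/
theorem unique {i j : Fin k} (hij : i ≠ j) {P Q : Finset Φ} (hP : P ∈ A.points) (hQ : Q ∈ A.points)
    (h1 : i ∈ P.image A.line) (h2 : j ∈ P.image A.line) (h3 : i ∈ Q.image A.line) (h4 : j ∈ Q.image A.line) :
    P = Q :=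
  (A.meet i j hij).unique ⟨hP, h1, h2⟩ ⟨hQ, h3, h4⟩

theorem line_e_ne (x : Φ) : A.line (A.e x) ≠ A.line x := by
  have h := A.simple (A.f x) 1 one_pos (by have := A.two_le (A.f x); omega)
  rw [pow_one, Equiv.Perm.mul_apply, A.ff, A.line_f] at h
  exact h

end Arrangement

end Pool.Agent.H875.PL
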